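import Pool.Agent.Lib.MP_a0a715_lc_BQ.Enc
import Pool.Agent.Lib.MP_a0a715_lc_BW.Ext

/-!
# The circuit
-/

namespace Pool.Agent.MPa0a715.BQ

open Pool.Agent.MPa0a715 Pool.Agent.PolyTime
open Pool.Agent.MPa0a715.IN (step step_cases length_step val_lt_cost cost_lt_iff)
open Pool.Agent.MPa0a715.BW (top top_succ top_length jux Fam seg seg_getD length_seg jux_outBit
  jux_valid jux_outs_length jux_reads_out reads_of_env getD_flip_ne getD_flip_eq)

/-- number of clock bits -/
def KK (n : ℕ) : ℕ := 2 * Nat.size (n + 1) + 1

/-- the data given by a circuit -/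
def PC (C : Circuit) : Par where
  n := C.n
  m := C.outs.length
  K := KK C.n
  tp := fun b v => top C (b - 1) v
  dg := fun b v => decide (2 ≤ b) && (C.out v).getD (b - 2) false
  st := fun v => step C v

theorem good (C : Circuit) : (PC C).Good where
  K := by
    change 0 < KK C.n
    unfold KK
    omega
  F := by
    change C.n + 1 ≤ F (KK C.n - 1)
    have h1 := F_ge (KK C.n - 1)
    have h2 : (KK C.n - 1) / 2 = Nat.size (C.n + 1) := by
      unfold KK
      omega
    have h3 := Nat.lt_size_self (C.n + 1)
    rw [h2] at h1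
    omega
  st v hv := by
    change (step C v).length = C.n
    rw [length_step]
    exact hv
  top v w := by
    change top C (C.outs.length + 1 - 1) v = top C (C.outs.length + 1 - 1) w
    rw [Nat.add_sub_cancel, top_length, top_length]
  step b v h2 hb := by
    change top C (b - 1 - 1) v = 2 * top C (b - 1) v +
      (decide (2 ≤ b) && (C.out v).getD (b - 2) false).toNat
    have hb' : b ≤ C.outs.length + 1 := hb
    obtain ⟨b, rfl⟩ : ∃ b', b = b' + 2 := ⟨b - 2, by omega⟩
    rw [show b + 2 - 1 - 1 = b by omega, show b + 2 - 1 = b + 1 by omega,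
      show b + 2 - 2 = b by omega, decide_eq_true (show 2 ≤ b + 2 by omega), Bool.true_and,
      top_succ (show b < C.outs.length by omega), Nat.add_comm]

/-- read a variable from a list starting with level `β` -/
def rdv (n K β : ℕ) (y : List Bool) (v : Var) : Bool :=
  if (v.okb n K && decide (β ≤ v.lvl)) = true then
    y.getD ((v.lvl - β) * SS n K + v.idx n K) false else false

theorem SS_pos (n K : ℕ) : 0 < SS n K := by
  unfold SS
  omega

theorem rdv_seg {n K β : ℕ} {x : List Bool} {v : Var} (h1 : β ≤ v.lvl) (h2 : v.lvl ≤ β + 2) :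
    rdv n K β (seg (3 * SS n K) (SS n K) β x) v = rdv n K 0 x v := by
  unfold rdv
  rw [decide_eq_true h1, decide_eq_true (Nat.zero_le _), Bool.and_true, Nat.sub_zero]
  by_cases hok : v.okb n K = true
  · rw [if_pos hok, if_pos hok]
    have h3 := idx_lt (okb_iff.1 hok)
    obtain ⟨d, hd⟩ : ∃ d, v.lvl = β + d := ⟨v.lvl - β, by omega⟩
    have h4 : d * SS n K ≤ 2 * SS n K := Nat.mul_le_mul_right _ (by omega)
    rw [hd, Nat.add_sub_cancel_left, seg_getD _ (by omega), Nat.add_mul, Nat.add_assoc]
  · rw [if_neg hok, if_neg hok]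

/-- flipping a bit of the list -/
theorem rdv_flip {n K : ℕ} {x : List Bool} {b o : ℕ} (ho : o < SS n K)
    (hx : b * SS n K + o < x.length) :
    rdv n K 0 (flip x (b * SS n K + o)) = fl (rdv n K 0 x) (dec n K b o) := by
  obtain ⟨hd1, hd2, hd3⟩ := dec_spec (n := n) (K := K) (b := b) ho
  funext v
  unfold fl rdv
  rw [decide_eq_true (Nat.zero_le _), Bool.and_true, Nat.sub_zero]
  by_cases hok : v.okb n K = true
  · rw [if_pos hok, if_pos hok]
    by_cases hv : v = dec n K b o
    · rw [if_pos hv, hv, hd2, hd3, getD_flip_eq hx]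
    · rw [if_neg hv]
      refine getD_flip_ne fun h => hv ?_
      have h3 := idx_lt (okb_iff.1 hok)
      have h4 : b = v.lvl := by
        have e1 : (b * SS n K + o) / SS n K = b := by
          rw [Nat.mul_comm, Nat.mul_add_div (SS_pos n K), Nat.div_eq_of_lt ho, Nat.add_zero]
        have e2 : (v.lvl * SS n K + v.idx n K) / SS n K = v.lvl := by
          rw [Nat.mul_comm, Nat.mul_add_div (SS_pos n K), Nat.div_eq_of_lt h3, Nat.add_zero]
        rw [← e1, h, e2]
      rw [h4] at h
      have h5 : o = v.idx n K := by omega
      rw [h5, h4, dec_idx (okb_iff.1 hok)]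
  · rw [if_neg hok]
    have hv : v ≠ dec n K b o := by
      rintro rfl
      exact hok (okb_iff.2 hd1)
    rw [if_neg hv, if_neg hok]

/-- outputs read only three levels -/
theorem ev_congr {P : Par} {x y : Cf} {o : Out} (hr : 1 ≤ o.reg)
    (h : ∀ v : Var, o.reg ≤ v.lvl + 1 → v.lvl ≤ o.reg + 1 → x v = y v) :
    P.ev x o = P.ev y o := by
  cases o with
  | X b =>
    simp only [Out.reg] at hr h
    have hPv : P.vP x b = P.vP y b := by
      unfold Par.vP
      rw [h (.s (b + 1) 7) (by simp only [Var.lvl]; omega) (by simp only [Var.lvl]; omega),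
        h (.s b 3) (by simp only [Var.lvl]; omega) (by simp only [Var.lvl]; omega),
        h (.a b 5) (by simp only [Var.lvl]; omega) (by simp only [Var.lvl]; omega),
        h (.c b true P.K 3) (by simp only [Var.lvl]; omega) (by simp only [Var.lvl]; omega),
        h (.c b false P.K 3) (by simp only [Var.lvl]; omega) (by simp only [Var.lvl]; omega)]
      congr 1
      · exact Phi_congr fun j _ => h (.c b true j 3) (by simp only [Var.lvl]; omega) (by simp only [Var.lvl]; omega)
      · exact Phi_congr fun j _ => h (.c b false j 3) (by simp only [Var.lvl]; omega) (by simp only [Var.lvl]; omega)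
    have hP : P.bodyP x b (P.vP y b) = P.bodyP y b (P.vP y b) :=
      (Par.body_congr (fun s i => h (.R b s i) (by simp only [Var.lvl]; omega) (by simp only [Var.lvl]; omega))
        (fun s i => h (.R (b + 1) s i) (by simp only [Var.lvl]; omega) (by simp only [Var.lvl]; omega))
        (fun s => h (.z b s) (by simp only [Var.lvl]; omega) (by simp only [Var.lvl]; omega)) _).2
    rw [Par.ev_X, Par.ev_X]
    unfold Par.busy
    rw [hPv, hP]
    by_cases hb : 2 ≤ b
    · obtain ⟨b, rfl⟩ : ∃ b', b = b' + 1 := ⟨b - 1, by omega⟩
      rw [Nat.add_sub_cancel]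
      have hVv : P.vV x b = P.vV y b := by
        unfold Par.vV
        rw [h (.s (b + 1) 3) (by simp only [Var.lvl]; omega) (by simp only [Var.lvl]; omega),
          h (.a b 0) (by simp only [Var.lvl]; omega) (by simp only [Var.lvl]; omega),
          h (.g b) (by simp only [Var.lvl]; omega) (by simp only [Var.lvl]; omega),
          h (.k b) (by simp only [Var.lvl]; omega) (by simp only [Var.lvl]; omega),
          h (.c b true P.K 0) (by simp only [Var.lvl]; omega) (by simp only [Var.lvl]; omega)]
        congr 1
        · exact Phi_congr fun j _ => h (.c b true j 0) (by simp only [Var.lvl]; omega)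
            (by simp only [Var.lvl]; omega)
        · refine Phi_congr fun j _ => ?_
          rw [h (.c b false j 0) (by simp only [Var.lvl]; omega) (by simp only [Var.lvl]; omega)]
      have hV : P.bodyV x b (P.vV y b) = P.bodyV y b (P.vV y b) :=
        (Par.body_congr (fun s i => h (.R b s i) (by simp only [Var.lvl]; omega) (by simp only [Var.lvl]; omega))
          (fun s i => h (.R (b + 1) s i) (by simp only [Var.lvl]; omega) (by simp only [Var.lvl]; omega))
          (fun s => h (.z b s) (by simp only [Var.lvl]; omega) (by simp only [Var.lvl]; omega)) _).1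
      rw [hVv, hV]
    · rw [decide_eq_false hb, Bool.false_and, Bool.false_and]
  | U b =>
    simp only [Out.reg] at hr h
    rw [Par.ev_U, Par.ev_U, h (.a b 0) (by simp only [Var.lvl]; omega) (by simp only [Var.lvl]; omega),
      h (.s (b + 1) 4) (by simp only [Var.lvl]; omega) (by simp only [Var.lvl]; omega)]
  | D b =>
    simp only [Out.reg] at hr h
    rw [Par.ev_D, Par.ev_D, h (.a b 2) (by simp only [Var.lvl]; omega) (by simp only [Var.lvl]; omega),
      h (.g b) (by simp only [Var.lvl]; omega) (by simp only [Var.lvl]; omega),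
      h (.z b _) (by simp only [Var.lvl]; omega) (by simp only [Var.lvl]; omega)]
  | K b =>
    simp only [Out.reg] at hr h
    rw [Par.ev_K, Par.ev_K, h (.k b) (by simp only [Var.lvl]; omega) (by simp only [Var.lvl]; omega),
      h (.s b 1) (by simp only [Var.lvl]; omega) (by simp only [Var.lvl]; omega),
      h (.s (b + 1) 6) (by simp only [Var.lvl]; omega) (by simp only [Var.lvl]; omega)]
  | La b r =>
    simp only [Out.reg] at hr h
    rw [Par.ev_La, Par.ev_La, h (.a b r) (by simp only [Var.lvl]; omega) (by simp only [Var.lvl]; omega),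
      h (.a b (r - 1)) (by simp only [Var.lvl]; omega) (by simp only [Var.lvl]; omega)]
  | Ls b r =>
    simp only [Out.reg] at hr h
    rw [Par.ev_Ls, Par.ev_Ls, h (.s b 1) (by simp only [Var.lvl]; omega) (by simp only [Var.lvl]; omega),
      h (.a b 3) (by simp only [Var.lvl]; omega) (by simp only [Var.lvl]; omega),
      h (.g b) (by simp only [Var.lvl]; omega) (by simp only [Var.lvl]; omega),
      h (.s b r) (by simp only [Var.lvl]; omega) (by simp only [Var.lvl]; omega),
      h (.s b (r - 1)) (by simp only [Var.lvl]; omega) (by simp only [Var.lvl]; omega)]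
  | Lt b r =>
    simp only [Out.reg] at hr h
    rw [Par.ev_Lt, Par.ev_Lt, h (.s (b + 1) r) (by simp only [Var.lvl]; omega) (by simp only [Var.lvl]; omega),
      h (.s (b + 1) (r - 1)) (by simp only [Var.lvl]; omega) (by simp only [Var.lvl]; omega)]
  | Q b t j =>
    simp only [Out.reg] at hr h
    rw [Par.ev_Q, Par.ev_Q, h (.c b t P.K 0) (by simp only [Var.lvl]; omega) (by simp only [Var.lvl]; omega),
      h (.a b 1) (by simp only [Var.lvl]; omega) (by simp only [Var.lvl]; omega),
      h (.s (b + 1) 5) (by simp only [Var.lvl]; omega) (by simp only [Var.lvl]; omega),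
      h (.k b) (by simp only [Var.lvl]; omega) (by simp only [Var.lvl]; omega),
      h (.a b 4) (by simp only [Var.lvl]; omega) (by simp only [Var.lvl]; omega),
      h (.s b 2) (by simp only [Var.lvl]; omega) (by simp only [Var.lvl]; omega),
      h (.c b t j 0) (by simp only [Var.lvl]; omega) (by simp only [Var.lvl]; omega),
      h (.c b t (j + 1) 1) (by simp only [Var.lvl]; omega) (by simp only [Var.lvl]; omega),
      h (.c b t (j + 2) 2) (by simp only [Var.lvl]; omega) (by simp only [Var.lvl]; omega)]
  | L b t j r =>
    simp only [Out.reg] at hr h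
    rw [Par.ev_L, Par.ev_L, h (.c b t j r) (by simp only [Var.lvl]; omega) (by simp only [Var.lvl]; omega),
      h (.c b t j (r - 1)) (by simp only [Var.lvl]; omega) (by simp only [Var.lvl]; omega)]

end Pool.Agent.MPa0a715.BQ
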