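import Mathlib

/-!
# A clock in which every bit occurs in three digits

The bits `w j` for `j ≤ K` define the tokens `w j + w (j + 1) + w (j + 2)` modulo `2` for `j < K`.
Flipping bit `j` changes the tokens `j`, `j - 1` and `j - 2`, and a token `j` is worth `F j` steps.
-/

namespace Pool.Agent.MPa0a715.BQ

/-- the number of steps for a token -/
def F : ℕ → ℕ
  | 0 => 1
  | 1 => 2
  | j + 2 => F (j + 1) + F j + 1

theorem F_pos : ∀ j, 0 < F j
  | 0 => by simp [F]
  | 1 => by simp [F]
  | j + 2 => by simp [F]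

theorem F_ge : ∀ j, 2 ^ (j / 2) ≤ F j
  | 0 => by simp [F]
  | 1 => by simp [F]
  | j + 2 => by
    have h1 := F_ge j
    have h2 : F j ≤ F (j + 1) := F_mono j
    have h3 : (j + 2) / 2 = j / 2 + 1 := by omega
    rw [h3, pow_succ]
    unfold F
    omega
where
  F_mono : ∀ j, F j ≤ F (j + 1)
    | 0 => by simp [F]
    | j + 1 => by
      rw [show F (j + 1 + 1) = F (j + 1) + F j + 1 from rfl]
      omega

theorem F_le : ∀ j, F j + 1 ≤ 2 ^ (j + 1)
  | 0 => by simp [F]
  | 1 => by simp [F]
  | j + 2 => by
    have h1 := F_le j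
    have h2 := F_le (j + 1)
    have h3 : 2 ^ (j + 2 + 1) = 2 ^ (j + 1 + 1) + 2 ^ (j + 1) + 2 ^ (j + 1) := by ring
    have h4 := F_pos j
    unfold F
    omega

/-- the tokens -/
def tk (K : ℕ) (w : ℕ → Bool) (j : ℕ) : Bool :=
  Bool.xor (w j) (Bool.xor (w (j + 1)) (decide (j + 2 ≤ K) && w (j + 2)))

/-- the number of steps left -/
def Phi (K : ℕ) (w : ℕ → Bool) : ℕ := ∑ j ∈ Finset.range K, if tk K w j = true then F j else 0

theorem tk_congr {K : ℕ} {w w' : ℕ → Bool} (h : ∀ j ≤ K, w j = w' j) {j : ℕ} (hj : j < K) :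
    tk K w j = tk K w' j := by
  unfold tk
  rw [h j (by omega), h (j + 1) (by omega)]
  by_cases h2 : j + 2 ≤ K
  · rw [h _ h2]
  · rw [decide_eq_false h2, Bool.false_and, Bool.false_and]

theorem Phi_congr {K : ℕ} {w w' : ℕ → Bool} (h : ∀ j ≤ K, w j = w' j) :
    Phi K w = Phi K w' :=
  Finset.sum_congr rfl fun j hj => by rw [tk_congr h (Finset.mem_range.1 hj)]

theorem Phi_zero {K : ℕ} {w : ℕ → Bool} (h : ∀ j < K, tk K w j = false) : Phi K w = 0 :=
  Finset.sum_eq_zero fun j hj => by
    rw [h j (Finset.mem_range.1 hj), if_neg Bool.false_ne_true]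

/-- the clock at rest -/
theorem rest {K : ℕ} {w : ℕ → Bool} (hK : w K = false) (h : ∀ j < K, tk K w j = false) :
    ∀ j ≤ K, w j = false := by
  have key : ∀ r, ∀ j, j + r = K → w j = false := by
    intro r
    induction r using Nat.strong_induction_on with
    | _ r ih =>
      intro j hj
      rcases Nat.eq_zero_or_pos r with h0 | h0
      · rw [show j = K by omega]
        exact hK
      · have h1 := h j (by omega)
        have h2 := ih (r - 1) (by omega) (j + 1) (by omega)
        unfold tk at h1
        rw [h2] at h1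
        by_cases h3 : j + 2 ≤ K
        · have h4 := ih (r - 2) (by omega) (j + 2) (by omega)
          rw [h4, Bool.and_false, Bool.xor_false, Bool.xor_false] at h1
          exact h1
        · rw [decide_eq_false h3, Bool.false_and, Bool.xor_false, Bool.xor_false] at h1
          exact h1
  intro j hj
  exact key (K - j) j (by omega)

/-- the start -/
theorem Phi_start {K : ℕ} {w : ℕ → Bool} (hK0 : 0 < K) (hK : w K = true)
    (h : ∀ j < K, w j = false) : F (K - 1) ≤ Phi K w := by
  unfold Phi
  have h1 : (if tk K w (K - 1) = true then F (K - 1) else 0) = F (K - 1) := by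
    have h2 : tk K w (K - 1) = true := by
      unfold tk
      rw [h (K - 1) (by omega), show K - 1 + 1 = K by omega, hK,
        decide_eq_false (show ¬ (K - 1 + 2 ≤ K) by omega)]
      rfl
    rw [if_pos h2]
  rw [← h1]
  exact Finset.single_le_sum (f := fun j => if tk K w j = true then F j else 0)
    (fun _ _ => Nat.zero_le _) (Finset.mem_range.2 (by omega))

/-- flip one bit -/
def flw (w : ℕ → Bool) (j : ℕ) : ℕ → Bool := fun i => if i = j then !w i else w i

theorem tk_flw_self {K : ℕ} {w : ℕ → Bool} {j : ℕ} : tk K (flw w j) j = !tk K w j := by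
  unfold tk flw
  rw [if_pos rfl, if_neg (by omega), if_neg (by omega), Bool.not_xor]

theorem tk_flw_ne {K : ℕ} {w : ℕ → Bool} {i j : ℕ} (h0 : i ≠ j) (h1 : i + 1 ≠ j)
    (h2 : i + 2 ≠ j) : tk K (flw w j) i = tk K w i := by
  unfold tk flw
  rw [if_neg h0, if_neg h1, if_neg h2]

theorem tk_flw_one {K : ℕ} {w : ℕ → Bool} {i j : ℕ} (h : i + 1 = j) :
    tk K (flw w j) i = !tk K w i := by
  unfold tk flw
  rw [if_neg (by omega), if_pos h, if_neg (by omega)]
  cases w i <;> cases w (i + 1) <;> cases (decide (i + 2 ≤ K) && w (i + 2)) <;> rfl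

theorem tk_flw_two {K : ℕ} {w : ℕ → Bool} {i j : ℕ} (h : i + 2 = j) (hj : j ≤ K) :
    tk K (flw w j) i = !tk K w i := by
  unfold tk flw
  rw [if_neg (by omega), if_neg (by omega), if_pos h, decide_eq_true (by omega), Bool.true_and,
    Bool.true_and]
  cases w i <;> cases w (i + 1) <;> cases w (i + 2) <;> rfl

/-- flipping the lowest token takes exactly one step -/
theorem Phi_flw {K : ℕ} {w : ℕ → Bool} {j : ℕ} (hj : j < K) (h1 : tk K w j = true)
    (h0 : ∀ i < j, tk K w i = false) : Phi K (flw w j) + 1 = Phi K w := by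
  have e : ∀ w' : ℕ → Bool, Phi K w' = (∑ i ∈ Finset.range (j + 1),
      if tk K w' i = true then F i else 0) +
      ∑ i ∈ Finset.Ico (j + 1) K, if tk K w' i = true then F i else 0 := by
    intro w'
    unfold Phi
    rw [Finset.range_eq_Ico, Finset.range_eq_Ico, Finset.sum_Ico_consecutive _ (by omega) (by omega)]
  rw [e, e w]
  have e2 : (∑ i ∈ Finset.Ico (j + 1) K, if tk K (flw w j) i = true then F i else 0) =
      ∑ i ∈ Finset.Ico (j + 1) K, if tk K w i = true then F i else 0 := by
    refine Finset.sum_congr rfl fun i hi => ?_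
    rw [Finset.mem_Ico] at hi
    rw [tk_flw_ne (by omega) (by omega) (by omega)]
  rw [e2]
  have e3 : (∑ i ∈ Finset.range (j + 1), if tk K w i = true then F i else 0) = F j := by
    rw [Finset.sum_range_succ, if_pos h1, Finset.sum_eq_zero, Nat.zero_add]
    intro i hi
    rw [h0 i (Finset.mem_range.1 hi), if_neg Bool.false_ne_true]
  have e4 : (∑ i ∈ Finset.range (j + 1), if tk K (flw w j) i = true then F i else 0) + 1 =
      F j := by
    rw [Finset.sum_range_succ, tk_flw_self, h1, Bool.not_true, if_neg Bool.false_ne_true,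
      Nat.add_zero]
    rcases j with _ | _ | j
    · simp [F]
    · rw [Finset.sum_range_succ, Finset.range_zero, Finset.sum_empty, tk_flw_one (by omega),
        h0 0 (by omega)]
      simp [F]
    · rw [Finset.sum_range_succ, Finset.sum_range_succ,
        tk_flw_one (show j + 1 + 1 = j + 1 + 1 by omega),
        tk_flw_two (show j + 2 = j + 1 + 1 by omega) (show j + 1 + 1 ≤ K by omega),
        h0 (j + 1) (by omega), h0 j (by omega), Finset.sum_eq_zero]
      · simp only [Bool.not_false, if_true]
        rw [show F (j + 1 + 1) = F (j + 1) + F j + 1 from rfl]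
        omega
      · intro i hi
        rw [Finset.mem_range] at hi
        rw [tk_flw_ne (by omega) (by omega) (by omega), h0 i (by omega),
          if_neg Bool.false_ne_true]
  rw [e3]
  omega

end Pool.Agent.MPa0a715.BQ
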