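import Pool.Agent.Lib.MP_a0a715_lc_BQ.Gate

/-!
# Local minima
-/

namespace Pool.Agent.MPa0a715.BQ

namespace Par

variable {P : Par} {x : Cf} {b : ℕ}

theorem any_iff {n f : ℕ} {e : ℕ → Bool} :
    ((List.range (n + 1)).any fun i => decide (f ≤ i) && !e i) = false ↔
      ∀ i ≤ n, f ≤ i → e i = true := by
  rw [List.any_eq_false]
  constructor
  · intro h i hi hf
    have := h i (List.mem_range.2 (by omega))
    rw [decide_eq_true hf, Bool.true_and] at this
    revert this
    cases e i <;> simp
  · intro h i hi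
    rw [List.mem_range] at hi
    by_cases hf : f ≤ i
    · rw [h i (by omega) hf]
      simp
    · rw [decide_eq_false hf]
      simp

theorem bodyV_uns {v : View} (h : v.uns = true) : P.bodyV x b v = (v.h &&
    (List.range (P.n + 1)).any fun i => decide (v.fA ≤ i) && !P.entA x b v.σ' v.σ i) :=
  if_pos h

theorem bodyV_set {v : View} (h : v.uns = false) : P.bodyV x b v =
    (!(P.stat x b v.σ' v.σ) || (v.κ && (!(P.pre x b v.σ) ||
    (List.range (P.n + 1)).any fun i => decide (v.fC ≤ i) && !P.entC x b v.σ' v.σ i))) :=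
  if_neg (by rw [h]; exact Bool.false_ne_true)

section
variable (hx : P.LM x) (hb : 1 ≤ b) (hb' : b ≤ P.m + 1)
include hx hb hb'

/-- the first clock runs down -/
theorem clockA (h : ∀ j < P.K, tk P.K (wA x b) j = true →
      (∀ i < j, tk P.K (wA x b) i = false) → P.busy x (b + 1) = true ∨
      (P.bodyV x b { P.vV x b with fA := Phi P.K (flw (wA x b) j) } = true →
        P.bodyV x b (P.vV x b) = true)) :
    ∀ j < P.K, tk P.K (wA x b) j = false := by
  by_contra hcon
  push Not at hcon
  obtain ⟨j0, hj0, ht0⟩ := hcon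
  classical
  have hex : ∃ j, j < P.K ∧ tk P.K (wA x b) j = true := ⟨j0, hj0, by simpa using ht0⟩
  obtain ⟨hj, ht⟩ := Nat.find_spec hex
  have hmin : ∀ i < Nat.find hex, tk P.K (wA x b) i = false := by
    intro i hi
    have := Nat.find_min hex hi
    rw [← Bool.not_eq_true]
    exact fun h => this ⟨by omega, h⟩
  generalize Nat.find hex = j at hj ht hmin
  refine gate hx hb hb' (v := .c b true j 0) (Or.inr (Or.inr (Or.inr ⟨true, j, rfl⟩)))
    ⟨by omega, by omega⟩ (M := .Q b true j) (by exact hj.le) ?_ ?_ ?_ ?_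
  · intro o ho
    simp only [infl, Bool.true_eq_false, false_and, if_false, List.mem_cons,
      List.not_mem_nil, or_false] at ho
    rcases ho with rfl | rfl | rfl
    · exact Or.inl rfl
    · exact Or.inr (hi_irrefl _ _)
    · right
      simp [hi, Out.reg, Out.pos, bs]
      split_ifs <;> omega
  · rw [val_A hx hb hb' hj, ht]
  · rw [flip_Q hb hb' (Or.inl hj), val_A hx hb hb' hj, ht, Bool.not_true]
  · rw [view_A hj]
    exact h j hj ht hmin

/-- the second clock runs down -/
theorem clockC (h : ∀ j < P.K, tk P.K (P.wC x b) j = true →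
      (∀ i < j, tk P.K (P.wC x b) i = false) → P.busy x (b + 1) = true ∨
      (P.bodyV x b { P.vV x b with fC := Phi P.K (flw (P.wC x b) j) } = true →
        P.bodyV x b (P.vV x b) = true)) :
    ∀ j < P.K, tk P.K (P.wC x b) j = false := by
  by_contra hcon
  push Not at hcon
  obtain ⟨j0, hj0, ht0⟩ := hcon
  classical
  have hex : ∃ j, j < P.K ∧ tk P.K (P.wC x b) j = true := ⟨j0, hj0, by simpa using ht0⟩
  obtain ⟨hj, ht⟩ := Nat.find_spec hex
  have hmin : ∀ i < Nat.find hex, tk P.K (P.wC x b) i = false := by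
    intro i hi
    have := Nat.find_min hex hi
    rw [← Bool.not_eq_true]
    exact fun h => this ⟨by omega, h⟩
  generalize Nat.find hex = j at hj ht hmin
  have hjK : j ≠ P.K := by omega
  refine gate hx hb hb' (v := .c b false j 0) (Or.inr (Or.inr (Or.inr ⟨false, j, rfl⟩)))
    ⟨by omega, by omega⟩ (M := .Q b false j) (by exact hj.le) ?_ ?_ ?_ ?_
  · intro o ho
    simp only [infl, hjK, and_false, if_false, List.mem_cons, List.not_mem_nil,
      or_false] at ho
    rcases ho with rfl | rfl | rfl
    · exact Or.inl rfl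
    · exact Or.inr (hi_irrefl _ _)
    · right
      simp [hi, Out.reg, Out.pos, bs]
      split_ifs <;> omega
  · rw [val_C hx hb hb' hj, ht]
  · rw [flip_Q hb hb' (Or.inl hj), val_C hx hb hb' hj, ht, Bool.not_true]
  · rw [view_C hj]
    exact h j hj ht hmin

/-- flipping `k` -/
theorem flipk (h1 : (P.vV x b).κ = (P.vV x b).uns) (h3 : P.busy x (b + 1) = true ∨
      (P.bodyV x b { P.vV x b with κ := !(P.vV x b).κ, fC := Phi P.K (flw (P.wC x b) P.K) } =
        true → P.bodyV x b (P.vV x b) = true)) : False := by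
  refine gate hx hb hb' (v := .k b) (Or.inr (Or.inr (Or.inl rfl))) trivial (M := .K b) trivial
    ?_ ?_ ?_ ?_
  · intro o ho
    simp only [infl, List.mem_cons, List.not_mem_nil, or_false] at ho
    rcases ho with rfl | rfl | rfl
    · exact Or.inl rfl
    · exact Or.inr (hi_irrefl _ _)
    · right
      simp [hi, Out.reg, Out.pos]
  · rw [val_K hx hb hb', h1]
    cases (P.vV x b).uns <;> rfl
  · rw [flip_K hb hb', val_K hx hb hb', h1]
    cases (P.vV x b).uns <;> rfl
  · rw [view_k]
    exact h3

/-- flipping `h` -/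
theorem fliph (h1 : (P.vV x b).h ≠ (P.vV x b).uns) (h3 : P.busy x (b + 1) = true ∨
      (P.bodyV x b { P.vV x b with h := !(P.vV x b).h, fA := Phi P.K (flw (wA x b) P.K) } =
        true → P.bodyV x b (P.vV x b) = true)) : False := by
  have e : Bool.xor (P.vV x b).h (P.vV x b).uns = true := by
    revert h1
    cases (P.vV x b).h <;> cases (P.vV x b).uns <;> simp
  refine gate hx hb hb' (v := .c b true P.K 0) (Or.inr (Or.inr (Or.inr ⟨true, P.K, rfl⟩)))
    ⟨le_rfl, by omega⟩ (M := .Q b true P.K) (by exact le_rfl) ?_ ?_ ?_ ?_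
  · intro o ho
    simp only [infl, Bool.true_eq_false, false_and, if_false, List.mem_cons,
      List.not_mem_nil, or_false] at ho
    rcases ho with rfl | rfl | rfl
    · exact Or.inl rfl
    · exact Or.inr (hi_irrefl _ _)
    · right
      simp [hi, Out.reg, Out.pos, bs]
      omega
  · rw [val_H hx hb hb', e]
  · rw [flip_Q hb hb' (Or.inr rfl), val_H hx hb hb', e, Bool.not_true]
  · rw [view_h]
    exact h3

/-- flipping `a` -/
theorem flipa (h1 : (P.vV x b).uns = true) (h3 : P.busy x (b + 1) = true ∨
      (P.bodyV x b { P.vV x b with σ := !(P.vV x b).σ, uns := !(P.vV x b).uns } =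
        true → P.bodyV x b (P.vV x b) = true)) : False := by
  refine gate hx hb hb' (v := .a b 0) (Or.inl rfl) (Nat.zero_le _) (M := .U b) trivial
    ?_ ?_ ?_ ?_
  · intro o ho
    simp only [infl, List.mem_cons, List.not_mem_nil, or_false] at ho
    rcases ho with rfl | rfl | rfl
    · exact Or.inl rfl
    · exact Or.inr (hi_irrefl _ _)
    · right
      simp [hi, Out.reg, Out.pos]
  · rw [val_U hx hb hb', h1]
  · rw [flip_U hb hb', val_U hx hb hb', h1, Bool.not_true]
  · rw [view_a]
    exact h3

end

theorem wC_K : P.wC x b P.K = (P.vV x b).κ := by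
  unfold wC vV
  dsimp only
  rw [if_pos rfl]

theorem fA_eq : (P.vV x b).fA = Phi P.K (wA x b) := rfl

theorem fC_eq : (P.vV x b).fC = Phi P.K (P.wC x b) := rfl

theorem h_eq : (P.vV x b).h = wA x b P.K := rfl

/-- after a restart no entries are claimed -/
theorem Phi_restart (hG : Good P) {w : ℕ → Bool} (hK : w P.K = false)
    (h : ∀ j < P.K, tk P.K w j = false) : P.n < Phi P.K (flw w P.K) := by
  have h1 := rest hK h
  have h2 := Phi_start (w := flw w P.K) hG.K (by
    unfold flw
    rw [if_pos rfl, hK, Bool.not_false]) (fun j hj => by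
    unfold flw
    rw [if_neg (by omega)]
    exact h1 j hj.le)
  have := hG.F
  omega

end Par

end Pool.Agent.MPa0a715.BQ
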