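import Pool.Agent.Lib.MP_a0a715_lc_BQ.Min

/-!
# Numbering variables and outputs
-/

namespace Pool.Agent.MPa0a715.BQ

/-- size of a level -/
def SS (n K : ℕ) : ℕ := 2 * n + 17 + 8 * (K + 1)

/-- size of a region -/
def GS (K : ℕ) : ℕ := 8 * K + 32

/-- number of a variable in its level -/
def Var.idx (n K : ℕ) : Var → ℕ
  | .R _ w i => (if w = true then n else 0) + i
  | .z _ w => 2 * n + (if w = true then 1 else 0)
  | .a _ r => 2 * n + 2 + r
  | .g _ => 2 * n + 8
  | .k _ => 2 * n + 9
  | .s _ r => 2 * n + 9 + r
  | .c _ t j r => 2 * n + 17 + (if t = true then 4 * (K + 1) else 0) + 4 * j + r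

/-- is the variable valid? -/
def Var.okb (n K : ℕ) : Var → Bool
  | .R _ _ i => decide (i < n)
  | .z _ _ | .g _ | .k _ => true
  | .a _ r => decide (r ≤ 5)
  | .s _ r => decide (1 ≤ r) && decide (r ≤ 7)
  | .c _ _ j r => decide (j ≤ K) && decide (r ≤ 3)

theorem okb_iff {n K : ℕ} {v : Var} : v.okb n K = true ↔ v.Ok n K := by
  cases v <;> simp [Var.okb, Var.Ok]

/-- the variable with a given number -/
def dec (n K b o : ℕ) : Var :=
  if o < n then .R b false o else
  if o < 2 * n then .R b true (o - n) else
  if o = 2 * n then .z b false else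
  if o = 2 * n + 1 then .z b true else
  if o < 2 * n + 8 then .a b (o - (2 * n + 2)) else
  if o = 2 * n + 8 then .g b else
  if o = 2 * n + 9 then .k b else
  if o < 2 * n + 17 then .s b (o - (2 * n + 9)) else
  if o < 2 * n + 17 + 4 * (K + 1) then .c b false ((o - (2 * n + 17)) / 4) ((o - (2 * n + 17)) % 4)
  else .c b true ((o - (2 * n + 17 + 4 * (K + 1))) / 4) ((o - (2 * n + 17 + 4 * (K + 1))) % 4)

theorem dec_spec {n K b o : ℕ} (ho : o < SS n K) :
    (dec n K b o).Ok n K ∧ (dec n K b o).lvl = b ∧ (dec n K b o).idx n K = o := by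
  unfold SS at ho
  unfold dec
  split_ifs with h1 h2 h3 h4 h5 h6 h7 h8 h9
  all_goals simp only [Var.Ok, Var.lvl, Var.idx, if_true, Bool.false_eq_true, if_false, true_and]
  all_goals omega

theorem idx_lt {n K : ℕ} {v : Var} (hv : v.Ok n K) : v.idx n K < SS n K := by
  unfold SS
  cases v with
  | R b s i =>
    simp only [Var.Ok] at hv
    simp only [Var.idx]
    split_ifs <;> omega
  | z b s =>
    simp only [Var.idx]
    split_ifs <;> omega
  | a b r =>
    simp only [Var.Ok] at hv
    simp only [Var.idx]
    omega
  | g b =>
    simp only [Var.idx]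
    omega
  | k b =>
    simp only [Var.idx]
    omega
  | s b r =>
    simp only [Var.Ok] at hv
    simp only [Var.idx]
    omega
  | c b t j r =>
    simp only [Var.Ok] at hv
    simp only [Var.idx]
    split_ifs <;> omega

theorem dec_idx {n K : ℕ} {v : Var} (hv : v.Ok n K) : dec n K v.lvl (v.idx n K) = v := by
  unfold dec
  cases v with
  | R b s i =>
    simp only [Var.Ok] at hv
    simp only [Var.idx, Var.lvl]
    cases s
    · rw [if_neg Bool.false_ne_true, Nat.zero_add, if_pos hv]
    · rw [if_pos rfl, if_neg (by omega), if_pos (by omega), Nat.add_sub_cancel_left]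
  | z b s =>
    simp only [Var.idx, Var.lvl]
    cases s
    · rw [if_neg Bool.false_ne_true, if_neg (by omega), if_neg (by omega), if_pos (by omega)]
    · rw [if_pos rfl, if_neg (by omega), if_neg (by omega), if_neg (by omega),
        if_pos (by omega)]
  | a b r =>
    simp only [Var.Ok] at hv
    simp only [Var.idx, Var.lvl]
    rw [if_neg (by omega), if_neg (by omega), if_neg (by omega), if_neg (by omega),
      if_pos (by omega), Nat.add_sub_cancel_left]
  | g b =>
    simp only [Var.idx, Var.lvl]
    rw [if_neg (by omega), if_neg (by omega), if_neg (by omega), if_neg (by omega),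
      if_neg (by omega), if_pos trivial]
  | k b =>
    simp only [Var.idx, Var.lvl]
    rw [if_neg (by omega), if_neg (by omega), if_neg (by omega), if_neg (by omega),
      if_neg (by omega), if_neg (by omega), if_pos trivial]
  | s b r =>
    simp only [Var.Ok] at hv
    simp only [Var.idx, Var.lvl]
    rw [if_neg (by omega), if_neg (by omega), if_neg (by omega), if_neg (by omega),
      if_neg (by omega), if_neg (by omega), if_neg (by omega), if_pos (by omega),
      Nat.add_sub_cancel_left]
  | c b t j r =>
    simp only [Var.Ok] at hv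
    simp only [Var.idx, Var.lvl]
    rw [if_neg (by omega), if_neg (by omega), if_neg (by omega), if_neg (by omega),
      if_neg (by omega), if_neg (by omega), if_neg (by omega), if_neg (by omega)]
    cases t
    · rw [if_neg Bool.false_ne_true, if_pos (by omega)]
      congr 1 <;> omega
    · rw [if_pos rfl, if_neg (by omega)]
      congr 1 <;> omega

/-- the outputs in the part of a clock -/
def chunk (K b : ℕ) (t : Bool) (u : ℕ) : Out :=
  if u % 3 = 0 then (if 6 ≤ u then .Q b t (u / 3 - 2) else .U 0)
  else if u % 3 = 1 then (if u / 3 ≤ K then .L b t (u / 3) 2 else .U 0)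
  else (if 3 ≤ u then .L b t (u / 3 - 1) 1 else .U 0)

/-- the output in position `t` of region `b` -/
def outOf (K b t : ℕ) : Out :=
  if t = 0 then .X b else
  if t = 1 then .La b 5 else
  if t = 2 then .Ls b 3 else
  if t = 3 then .Lt b 7 else
  if t < K + 5 then .L b true (t - 4) 3 else
  if t < 2 * K + 6 then .L b false (t - (K + 5)) 3 else
  if t < 5 * K + 12 then chunk K b false (t - (2 * K + 6)) else
  if t = 5 * K + 12 then .Q b false K else
  if t = 5 * K + 13 then .La b 4 else
  if t = 5 * K + 14 then .Ls b 2 else
  if t = 5 * K + 15 then .K b else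
  if t = 5 * K + 16 then .Lt b 6 else
  if t = 5 * K + 17 then .Ls b 1 else
  if t = 5 * K + 18 then .La b 3 else
  if t = 5 * K + 19 then .D b else
  if t = 5 * K + 20 then .La b 2 else
  if t < 8 * K + 27 then chunk K b true (t - (5 * K + 21)) else
  if t = 8 * K + 27 then .Q b true K else
  if t = 8 * K + 28 then .Lt b 5 else
  if t = 8 * K + 29 then .La b 1 else
  if t = 8 * K + 30 then .U b else
  .Lt b 4

theorem chunk_spec {K b u : ℕ} {t : Bool} (hu : u < 3 * (K + 2)) : chunk K b t u = .U 0 ∨
    ((chunk K b t u).Ok K ∧ (chunk K b t u).reg = b ∧ (chunk K b t u).pos K = bs K t + u) := by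
  unfold chunk
  by_cases h0 : u % 3 = 0
  · rw [if_pos h0]
    by_cases h6 : 6 ≤ u
    · rw [if_pos h6]
      right
      refine ⟨by simp only [Out.Ok]; omega, rfl, ?_⟩
      simp only [Out.pos]
      rw [if_neg (by omega)]
      omega
    · rw [if_neg h6]
      exact Or.inl rfl
  rw [if_neg h0]
  by_cases h1 : u % 3 = 1
  · rw [if_pos h1]
    by_cases h6 : u / 3 ≤ K
    · rw [if_pos h6]
      right
      refine ⟨by simp only [Out.Ok]; omega, rfl, ?_⟩
      simp only [Out.pos]
      rw [if_neg (by omega), if_pos trivial]
      omega
    · rw [if_neg h6]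
      exact Or.inl rfl
  rw [if_neg h1]
  by_cases h6 : 3 ≤ u
  · rw [if_pos h6]
    right
    refine ⟨by simp only [Out.Ok]; omega, rfl, ?_⟩
    simp only [Out.pos]
    rw [if_neg (by omega), if_neg (by omega)]
    omega
  · rw [if_neg h6]
    exact Or.inl rfl

theorem outOf_spec {K b t : ℕ} (ht : t < GS K) : outOf K b t = .U 0 ∨
    ((outOf K b t).Ok K ∧ (outOf K b t).reg = b ∧ (outOf K b t).pos K = t) := by
  unfold GS at ht
  unfold outOf
  by_cases h0 : t = 0
  · rw [if_pos h0]
    exact Or.inr ⟨trivial, rfl, h0.symm⟩
  rw [if_neg h0]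
  by_cases h1 : t = 1
  · rw [if_pos h1]
    refine Or.inr ⟨by simp [Out.Ok], rfl, ?_⟩
    simp [Out.pos, h1]
  rw [if_neg h1]
  by_cases h2 : t = 2
  · rw [if_pos h2]
    refine Or.inr ⟨by simp [Out.Ok], rfl, ?_⟩
    simp [Out.pos, h2]
  rw [if_neg h2]
  by_cases h3 : t = 3
  · rw [if_pos h3]
    refine Or.inr ⟨by simp [Out.Ok], rfl, ?_⟩
    simp [Out.pos, h3]
  rw [if_neg h3]
  by_cases h4 : t < K + 5
  · rw [if_pos h4]
    refine Or.inr ⟨by simp only [Out.Ok]; omega, rfl, ?_⟩
    simp [Out.pos]
    omega
  rw [if_neg h4]
  by_cases h5 : t < 2 * K + 6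
  · rw [if_pos h5]
    refine Or.inr ⟨by simp only [Out.Ok]; omega, rfl, ?_⟩
    simp [Out.pos]
    omega
  rw [if_neg h5]
  by_cases h6 : t < 5 * K + 12
  · rw [if_pos h6]
    rcases chunk_spec (K := K) (b := b) (t := false) (u := (t - (2 * K + 6))) (by omega) with g | ⟨g1, g2, g3⟩
    · exact Or.inl g
    · refine Or.inr ⟨g1, g2, g3.trans ?_⟩
      simp [bs]
      omega
  rw [if_neg h6]
  by_cases h7 : t = 5 * K + 12
  · rw [if_pos h7]
    refine Or.inr ⟨by simp [Out.Ok], rfl, ?_⟩
    simp [Out.pos, h7]
  rw [if_neg h7]
  by_cases h8 : t = 5 * K + 13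
  · rw [if_pos h8]
    refine Or.inr ⟨by simp [Out.Ok], rfl, ?_⟩
    simp [Out.pos, h8]
  rw [if_neg h8]
  by_cases h9 : t = 5 * K + 14
  · rw [if_pos h9]
    refine Or.inr ⟨by simp [Out.Ok], rfl, ?_⟩
    simp [Out.pos, h9]
  rw [if_neg h9]
  by_cases h10 : t = 5 * K + 15
  · rw [if_pos h10]
    exact Or.inr ⟨trivial, rfl, h10.symm⟩
  rw [if_neg h10]
  by_cases h11 : t = 5 * K + 16
  · rw [if_pos h11]
    refine Or.inr ⟨by simp [Out.Ok], rfl, ?_⟩
    simp [Out.pos, h11]
  rw [if_neg h11]
  by_cases h12 : t = 5 * K + 17
  · rw [if_pos h12]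
    refine Or.inr ⟨by simp [Out.Ok], rfl, ?_⟩
    simp [Out.pos, h12]
  rw [if_neg h12]
  by_cases h13 : t = 5 * K + 18
  · rw [if_pos h13]
    refine Or.inr ⟨by simp [Out.Ok], rfl, ?_⟩
    simp [Out.pos, h13]
  rw [if_neg h13]
  by_cases h14 : t = 5 * K + 19
  · rw [if_pos h14]
    exact Or.inr ⟨trivial, rfl, h14.symm⟩
  rw [if_neg h14]
  by_cases h15 : t = 5 * K + 20
  · rw [if_pos h15]
    refine Or.inr ⟨by simp [Out.Ok], rfl, ?_⟩
    simp [Out.pos, h15]
  rw [if_neg h15]
  by_cases h16 : t < 8 * K + 27
  · rw [if_pos h16]
    rcases chunk_spec (K := K) (b := b) (t := true) (u := (t - (5 * K + 21))) (by omega) with g | ⟨g1, g2, g3⟩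
    · exact Or.inl g
    · refine Or.inr ⟨g1, g2, g3.trans ?_⟩
      simp [bs]
      omega
  rw [if_neg h16]
  by_cases h17 : t = 8 * K + 27
  · rw [if_pos h17]
    refine Or.inr ⟨by simp [Out.Ok], rfl, ?_⟩
    simp [Out.pos, h17]
  rw [if_neg h17]
  by_cases h18 : t = 8 * K + 28
  · rw [if_pos h18]
    refine Or.inr ⟨by simp [Out.Ok], rfl, ?_⟩
    simp [Out.pos, h18]
  rw [if_neg h18]
  by_cases h19 : t = 8 * K + 29
  · rw [if_pos h19]
    refine Or.inr ⟨by simp [Out.Ok], rfl, ?_⟩
    simp [Out.pos, h19]
  rw [if_neg h19]
  by_cases h20 : t = 8 * K + 30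
  · rw [if_pos h20]
    exact Or.inr ⟨trivial, rfl, h20.symm⟩
  rw [if_neg h20]
  refine Or.inr ⟨by simp [Out.Ok], rfl, ?_⟩
  simp [Out.pos]
  omega

theorem pos_lt {K : ℕ} {o : Out} (ho : o.Ok K) : o.pos K < GS K := by
  unfold GS
  cases o <;> simp only [Out.Ok] at ho <;> simp only [Out.pos, bs] <;> (try split_ifs) <;> omega

theorem outOf_pos {K : ℕ} {o : Out} (ho : o.Ok K) : outOf K o.reg (o.pos K) = o := by
  cases o with
  | X b => rfl
  | U b =>
    simp only [Out.reg, Out.pos]
    unfold outOf
    rw [if_neg (by omega)]
    rw [if_neg (by omega)]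
    rw [if_neg (by omega)]
    rw [if_neg (by omega)]
    rw [if_neg (by omega)]
    rw [if_neg (by omega)]
    rw [if_neg (by omega)]
    rw [if_neg (by omega)]
    rw [if_neg (by omega)]
    rw [if_neg (by omega)]
    rw [if_neg (by omega)]
    rw [if_neg (by omega)]
    rw [if_neg (by omega)]
    rw [if_neg (by omega)]
    rw [if_neg (by omega)]
    rw [if_neg (by omega)]
    rw [if_neg (by omega)]
    rw [if_neg (by omega)]
    rw [if_neg (by omega)]
    rw [if_neg (by omega)]
    rw [if_pos rfl]
  | D b =>
    simp only [Out.reg, Out.pos]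
    unfold outOf
    rw [if_neg (by omega)]
    rw [if_neg (by omega)]
    rw [if_neg (by omega)]
    rw [if_neg (by omega)]
    rw [if_neg (by omega)]
    rw [if_neg (by omega)]
    rw [if_neg (by omega)]
    rw [if_neg (by omega)]
    rw [if_neg (by omega)]
    rw [if_neg (by omega)]
    rw [if_neg (by omega)]
    rw [if_neg (by omega)]
    rw [if_neg (by omega)]
    rw [if_neg (by omega)]
    rw [if_pos rfl]
  | K b =>
    simp only [Out.reg, Out.pos]
    unfold outOf
    rw [if_neg (by omega)]
    rw [if_neg (by omega)]
    rw [if_neg (by omega)]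
    rw [if_neg (by omega)]
    rw [if_neg (by omega)]
    rw [if_neg (by omega)]
    rw [if_neg (by omega)]
    rw [if_neg (by omega)]
    rw [if_neg (by omega)]
    rw [if_neg (by omega)]
    rw [if_pos rfl]
  | La b r =>
    simp only [Out.Ok] at ho
    obtain ⟨h1, h2⟩ := ho
    have hr : r = 1 ∨ r = 2 ∨ r = 3 ∨ r = 4 ∨ r = 5 := by omega
    rcases hr with rfl | rfl | rfl | rfl | rfl
    · change outOf K b (8 * K + 29) = _
      unfold outOf
      rw [if_neg (by omega)]
      rw [if_neg (by omega)]
      rw [if_neg (by omega)]
      rw [if_neg (by omega)]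
      rw [if_neg (by omega)]
      rw [if_neg (by omega)]
      rw [if_neg (by omega)]
      rw [if_neg (by omega)]
      rw [if_neg (by omega)]
      rw [if_neg (by omega)]
      rw [if_neg (by omega)]
      rw [if_neg (by omega)]
      rw [if_neg (by omega)]
      rw [if_neg (by omega)]
      rw [if_neg (by omega)]
      rw [if_neg (by omega)]
      rw [if_neg (by omega)]
      rw [if_neg (by omega)]
      rw [if_neg (by omega)]
      rw [if_pos (by omega)]
    · change outOf K b (5 * K + 20) = _
      unfold outOf
      rw [if_neg (by omega)]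
      rw [if_neg (by omega)]
      rw [if_neg (by omega)]
      rw [if_neg (by omega)]
      rw [if_neg (by omega)]
      rw [if_neg (by omega)]
      rw [if_neg (by omega)]
      rw [if_neg (by omega)]
      rw [if_neg (by omega)]
      rw [if_neg (by omega)]
      rw [if_neg (by omega)]
      rw [if_neg (by omega)]
      rw [if_neg (by omega)]
      rw [if_neg (by omega)]
      rw [if_neg (by omega)]
      rw [if_pos (by omega)]
    · change outOf K b (5 * K + 18) = _
      unfold outOf
      rw [if_neg (by omega)]
      rw [if_neg (by omega)]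
      rw [if_neg (by omega)]
      rw [if_neg (by omega)]
      rw [if_neg (by omega)]
      rw [if_neg (by omega)]
      rw [if_neg (by omega)]
      rw [if_neg (by omega)]
      rw [if_neg (by omega)]
      rw [if_neg (by omega)]
      rw [if_neg (by omega)]
      rw [if_neg (by omega)]
      rw [if_neg (by omega)]
      rw [if_pos (by omega)]
    · change outOf K b (5 * K + 13) = _
      unfold outOf
      rw [if_neg (by omega)]
      rw [if_neg (by omega)]
      rw [if_neg (by omega)]
      rw [if_neg (by omega)]
      rw [if_neg (by omega)]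
      rw [if_neg (by omega)]
      rw [if_neg (by omega)]
      rw [if_neg (by omega)]
      rw [if_pos (by omega)]
    · change outOf K b (1) = _
      unfold outOf
      rw [if_neg (by omega)]
      rw [if_pos (by omega)]
  | Ls b r =>
    simp only [Out.Ok] at ho
    obtain ⟨h1, h2⟩ := ho
    have hr : r = 1 ∨ r = 2 ∨ r = 3 := by omega
    rcases hr with rfl | rfl | rfl
    · change outOf K b (5 * K + 17) = _
      unfold outOf
      rw [if_neg (by omega)]
      rw [if_neg (by omega)]
      rw [if_neg (by omega)]
      rw [if_neg (by omega)]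
      rw [if_neg (by omega)]
      rw [if_neg (by omega)]
      rw [if_neg (by omega)]
      rw [if_neg (by omega)]
      rw [if_neg (by omega)]
      rw [if_neg (by omega)]
      rw [if_neg (by omega)]
      rw [if_neg (by omega)]
      rw [if_pos (by omega)]
    · change outOf K b (5 * K + 14) = _
      unfold outOf
      rw [if_neg (by omega)]
      rw [if_neg (by omega)]
      rw [if_neg (by omega)]
      rw [if_neg (by omega)]
      rw [if_neg (by omega)]
      rw [if_neg (by omega)]
      rw [if_neg (by omega)]
      rw [if_neg (by omega)]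
      rw [if_neg (by omega)]
      rw [if_pos (by omega)]
    · change outOf K b (2) = _
      unfold outOf
      rw [if_neg (by omega)]
      rw [if_neg (by omega)]
      rw [if_pos (by omega)]
  | Lt b r =>
    simp only [Out.Ok] at ho
    obtain ⟨h1, h2⟩ := ho
    have hr : r = 4 ∨ r = 5 ∨ r = 6 ∨ r = 7 := by omega
    rcases hr with rfl | rfl | rfl | rfl
    · change outOf K b (8 * K + 31) = _
      unfold outOf
      rw [if_neg (by omega)]
      rw [if_neg (by omega)]
      rw [if_neg (by omega)]
      rw [if_neg (by omega)]
      rw [if_neg (by omega)]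
      rw [if_neg (by omega)]
      rw [if_neg (by omega)]
      rw [if_neg (by omega)]
      rw [if_neg (by omega)]
      rw [if_neg (by omega)]
      rw [if_neg (by omega)]
      rw [if_neg (by omega)]
      rw [if_neg (by omega)]
      rw [if_neg (by omega)]
      rw [if_neg (by omega)]
      rw [if_neg (by omega)]
      rw [if_neg (by omega)]
      rw [if_neg (by omega)]
      rw [if_neg (by omega)]
      rw [if_neg (by omega)]
      rw [if_neg (by omega)]
    · change outOf K b (8 * K + 28) = _
      unfold outOf
      rw [if_neg (by omega)]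
      rw [if_neg (by omega)]
      rw [if_neg (by omega)]
      rw [if_neg (by omega)]
      rw [if_neg (by omega)]
      rw [if_neg (by omega)]
      rw [if_neg (by omega)]
      rw [if_neg (by omega)]
      rw [if_neg (by omega)]
      rw [if_neg (by omega)]
      rw [if_neg (by omega)]
      rw [if_neg (by omega)]
      rw [if_neg (by omega)]
      rw [if_neg (by omega)]
      rw [if_neg (by omega)]
      rw [if_neg (by omega)]
      rw [if_neg (by omega)]
      rw [if_neg (by omega)]
      rw [if_pos (by omega)]
    · change outOf K b (5 * K + 16) = _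
      unfold outOf
      rw [if_neg (by omega)]
      rw [if_neg (by omega)]
      rw [if_neg (by omega)]
      rw [if_neg (by omega)]
      rw [if_neg (by omega)]
      rw [if_neg (by omega)]
      rw [if_neg (by omega)]
      rw [if_neg (by omega)]
      rw [if_neg (by omega)]
      rw [if_neg (by omega)]
      rw [if_neg (by omega)]
      rw [if_pos (by omega)]
    · change outOf K b (3) = _
      unfold outOf
      rw [if_neg (by omega)]
      rw [if_neg (by omega)]
      rw [if_neg (by omega)]
      rw [if_pos (by omega)]
  | Q b t j =>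
    simp only [Out.Ok] at ho
    simp only [Out.reg, Out.pos]
    by_cases hj : j = K
    · rw [if_pos hj, hj]
      cases t
      · rw [if_neg Bool.false_ne_true]
        unfold outOf
        rw [if_neg (by omega)]
        rw [if_neg (by omega)]
        rw [if_neg (by omega)]
        rw [if_neg (by omega)]
        rw [if_neg (by omega)]
        rw [if_neg (by omega)]
        rw [if_neg (by omega)]
        rw [if_pos rfl]
      · rw [if_pos rfl]
        unfold outOf
        rw [if_neg (by omega)]
        rw [if_neg (by omega)]
        rw [if_neg (by omega)]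
        rw [if_neg (by omega)]
        rw [if_neg (by omega)]
        rw [if_neg (by omega)]
        rw [if_neg (by omega)]
        rw [if_neg (by omega)]
        rw [if_neg (by omega)]
        rw [if_neg (by omega)]
        rw [if_neg (by omega)]
        rw [if_neg (by omega)]
        rw [if_neg (by omega)]
        rw [if_neg (by omega)]
        rw [if_neg (by omega)]
        rw [if_neg (by omega)]
        rw [if_neg (by omega)]
        rw [if_pos rfl]
    · rw [if_neg hj]
      have hc : chunk K b t (3 * j + 6) = .Q b t j := by
        unfold chunk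
        rw [if_pos (by omega), if_pos (by omega)]
        congr 1
        omega
      cases t
      · unfold bs outOf
        rw [if_neg (show ¬ (false = true) from Bool.false_ne_true)]
        rw [if_neg (by omega)]
        rw [if_neg (by omega)]
        rw [if_neg (by omega)]
        rw [if_neg (by omega)]
        rw [if_neg (by omega)]
        rw [if_neg (by omega)]
        rw [if_pos (by omega), show 2 * K + 6 + 3 * j + 6 - (2 * K + 6) = 3 * j + 6 by omega, hc]
      · unfold bs outOf
        rw [if_pos (show true = true from rfl)]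
        rw [if_neg (by omega)]
        rw [if_neg (by omega)]
        rw [if_neg (by omega)]
        rw [if_neg (by omega)]
        rw [if_neg (by omega)]
        rw [if_neg (by omega)]
        rw [if_neg (by omega)]
        rw [if_neg (by omega)]
        rw [if_neg (by omega)]
        rw [if_neg (by omega)]
        rw [if_neg (by omega)]
        rw [if_neg (by omega)]
        rw [if_neg (by omega)]
        rw [if_neg (by omega)]
        rw [if_neg (by omega)]
        rw [if_neg (by omega)]
        rw [if_pos (by omega), show 5 * K + 21 + 3 * j + 6 - (5 * K + 21) = 3 * j + 6 by omega, hc]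
  | L b t j r =>
    simp only [Out.Ok] at ho
    obtain ⟨h0, h1, h2⟩ := ho
    have hr : r = 1 ∨ r = 2 ∨ r = 3 := by omega
    rcases hr with rfl | rfl | rfl
    · have hc : chunk K b t (3 * j + 5) = .L b t j 1 := by
        unfold chunk
        rw [if_neg (by omega), if_neg (by omega), if_pos (by omega)]
        congr 1
        omega
      simp only [Out.reg, Out.pos]
      rw [if_neg (by omega), if_neg (by omega)]
      cases t
      · unfold bs outOf
        rw [if_neg (show ¬ (false = true) from Bool.false_ne_true)]
        rw [if_neg (by omega)]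
        rw [if_neg (by omega)]
        rw [if_neg (by omega)]
        rw [if_neg (by omega)]
        rw [if_neg (by omega)]
        rw [if_neg (by omega)]
        rw [if_pos (by omega), show 2 * K + 6 + 3 * j + 5 - (2 * K + 6) = 3 * j + 5 by omega, hc]
      · unfold bs outOf
        rw [if_pos (show true = true from rfl)]
        rw [if_neg (by omega)]
        rw [if_neg (by omega)]
        rw [if_neg (by omega)]
        rw [if_neg (by omega)]
        rw [if_neg (by omega)]
        rw [if_neg (by omega)]
        rw [if_neg (by omega)]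
        rw [if_neg (by omega)]
        rw [if_neg (by omega)]
        rw [if_neg (by omega)]
        rw [if_neg (by omega)]
        rw [if_neg (by omega)]
        rw [if_neg (by omega)]
        rw [if_neg (by omega)]
        rw [if_neg (by omega)]
        rw [if_neg (by omega)]
        rw [if_pos (by omega), show 5 * K + 21 + 3 * j + 5 - (5 * K + 21) = 3 * j + 5 by omega, hc]
    · have hc : chunk K b t (3 * j + 1) = .L b t j 2 := by
        unfold chunk
        rw [if_neg (by omega), if_pos (by omega), if_pos (by omega)]
        congr 1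
        omega
      simp only [Out.reg, Out.pos]
      rw [if_neg (by omega), if_pos trivial]
      cases t
      · unfold bs outOf
        rw [if_neg (show ¬ (false = true) from Bool.false_ne_true)]
        rw [if_neg (by omega)]
        rw [if_neg (by omega)]
        rw [if_neg (by omega)]
        rw [if_neg (by omega)]
        rw [if_neg (by omega)]
        rw [if_neg (by omega)]
        rw [if_pos (by omega), show 2 * K + 6 + 3 * j + 1 - (2 * K + 6) = 3 * j + 1 by omega, hc]
      · unfold bs outOf
        rw [if_pos (show true = true from rfl)]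
        rw [if_neg (by omega)]
        rw [if_neg (by omega)]
        rw [if_neg (by omega)]
        rw [if_neg (by omega)]
        rw [if_neg (by omega)]
        rw [if_neg (by omega)]
        rw [if_neg (by omega)]
        rw [if_neg (by omega)]
        rw [if_neg (by omega)]
        rw [if_neg (by omega)]
        rw [if_neg (by omega)]
        rw [if_neg (by omega)]
        rw [if_neg (by omega)]
        rw [if_neg (by omega)]
        rw [if_neg (by omega)]
        rw [if_neg (by omega)]
        rw [if_pos (by omega), show 5 * K + 21 + 3 * j + 1 - (5 * K + 21) = 3 * j + 1 by omega, hc]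
    · simp only [Out.reg, Out.pos]
      rw [if_pos trivial]
      cases t
      · rw [if_neg Bool.false_ne_true]
        unfold outOf
        rw [if_neg (by omega)]
        rw [if_neg (by omega)]
        rw [if_neg (by omega)]
        rw [if_neg (by omega)]
        rw [if_neg (by omega)]
        rw [if_pos (by omega), Nat.add_sub_cancel_left]
      · rw [if_pos rfl]
        unfold outOf
        rw [if_neg (by omega)]
        rw [if_neg (by omega)]
        rw [if_neg (by omega)]
        rw [if_neg (by omega)]
        rw [if_pos (by omega), Nat.add_sub_cancel_left]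

end Pool.Agent.MPa0a715.BQ
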