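import Pool.Agent.Lib.MP_a0a715_lc_BQ.Core

/-!
# The next entry is right
-/

namespace Pool.Agent.MPa0a715.BQ

namespace Par

variable {P : Par} {x : Cf} {b : ℕ}

/-- stored solutions and digits -/
def dat (v : Var) : Prop := (∃ b s i, v = .R b s i) ∨ ∃ b s, v = .z b s

theorem view_dat {v : Var} (hv : dat v) (b : ℕ) :
    P.vV (fl x v) b = P.vV x b ∧ P.vP (fl x v) b = P.vP x b := by
  have h1 : ∀ b' r, fl x v (.a b' r) = x (.a b' r) := fun b' r => fl_ne (by
    rcases hv with ⟨_, _, _, rfl⟩ | ⟨_, _, rfl⟩ <;> simp)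
  have h2 : ∀ b' r, fl x v (.s b' r) = x (.s b' r) := fun b' r => fl_ne (by
    rcases hv with ⟨_, _, _, rfl⟩ | ⟨_, _, rfl⟩ <;> simp)
  have h3 : ∀ b' t j r, fl x v (.c b' t j r) = x (.c b' t j r) := fun b' t j r => fl_ne (by
    rcases hv with ⟨_, _, _, rfl⟩ | ⟨_, _, rfl⟩ <;> simp)
  have h4 : ∀ b', fl x v (.g b') = x (.g b') := fun b' => fl_ne (by
    rcases hv with ⟨_, _, _, rfl⟩ | ⟨_, _, rfl⟩ <;> simp)
  have h5 : ∀ b', fl x v (.k b') = x (.k b') := fun b' => fl_ne (by
    rcases hv with ⟨_, _, _, rfl⟩ | ⟨_, _, rfl⟩ <;> simp)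
  constructor
  · unfold vV
    simp only [h1, h2, h3, h4, h5]
  · unfold vP
    simp only [h1, h2, h3]

theorem busy_dat {v : Var} (hv : dat v) (b : ℕ) : P.busy (fl x v) b = P.busy x b := by
  unfold busy
  rw [(view_dat hv b).2]

theorem vec_ne {b' : ℕ} {s s' : Bool} {i : ℕ} (h : b ≠ b' ∨ s ≠ s') :
    P.vec (fl x (.R b' s' i)) b s = P.vec x b s := by
  refine vec_congr fun j => fl_ne ?_
  rintro h1
  injection h1 with h2 h3 h4
  rcases h with h | h
  · exact h h2
  · exact h h3

theorem vec_z {b' : ℕ} {s s' : Bool} : P.vec (fl x (.z b' s')) b s = P.vec x b s :=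
  vec_congr fun j => fl_ne (by simp)

theorem any_congr' {l : List ℕ} {f g : ℕ → Bool} (h : ∀ i ∈ l, f i = g i) :
    l.any f = l.any g := by
  rw [Bool.eq_iff_iff, List.any_eq_true, List.any_eq_true]
  exact exists_congr fun i => and_congr_right fun hi => by rw [h i hi]

theorem not_ne (s : Bool) : s ≠ !s := by cases s <;> simp

theorem beq_not (a b : Bool) : ((!a) == b) = !(a == b) := by cases a <;> cases b <;> rfl

/-! ### flips of entries -/

theorem entA_R {σ' σ : Bool} {i j : ℕ} (hj : j < P.n) :
    P.entA (fl x (.R b (!σ) j)) b σ' σ i = if i = j then !P.entA x b σ' σ i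
      else P.entA x b σ' σ i := by
  unfold entA
  rw [vec_ne (Or.inl (by omega))]
  by_cases h : i = P.n
  · rw [if_pos h, if_neg (show i ≠ j by omega), fl_ne (by simp), if_pos h]
  · rw [if_neg h, if_neg h, fl_ne (w := .R (b + 1) σ' i) (by simp)]
    by_cases h1 : i = j
    · rw [if_pos h1, h1, fl_self, beq_not]
    · rw [if_neg h1, fl_ne (by simp [h1])]

theorem entA_z {σ' σ : Bool} {i : ℕ} :
    P.entA (fl x (.z b (!σ))) b σ' σ i = if i = P.n then !P.entA x b σ' σ i
      else P.entA x b σ' σ i := by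
  unfold entA
  rw [vec_z, fl_ne (w := .R b (!σ) i) (by simp), fl_ne (w := .R (b + 1) σ' i) (by simp)]
  by_cases h : i = P.n
  · rw [if_pos h, if_pos h, fl_self, beq_not, if_pos h]
  · rw [if_neg h, if_neg h, if_neg h]

theorem src_R {σ' σ : Bool} {j : ℕ} :
    P.src (fl x (.R (b + 1) (!σ') j)) b σ' σ = P.src x b σ' σ := by
  unfold src
  rw [vec_ne (Or.inr (not_ne _)), vec_ne (Or.inl (by omega))]

theorem src_z {σ' σ s : Bool} : P.src (fl x (.z b s)) b σ' σ = P.src x b σ' σ := by
  unfold src
  rw [vec_z, vec_z]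

theorem entC_R {σ' σ : Bool} {i j : ℕ} (hj : j < P.n) :
    P.entC (fl x (.R (b + 1) (!σ') j)) b σ' σ i = if i = j then !P.entC x b σ' σ i
      else P.entC x b σ' σ i := by
  unfold entC
  rw [src_R, vec_ne (Or.inl (by omega))]
  by_cases h : i = P.n
  · rw [if_pos h, if_neg (show i ≠ j by omega), fl_ne (by simp), if_pos h]
  · rw [if_neg h, if_neg h]
    by_cases h1 : i = j
    · rw [if_pos h1, h1, fl_self, beq_not]
    · rw [if_neg h1, fl_ne (by simp [h1])]

theorem entC_z {σ' σ : Bool} {i : ℕ} :
    P.entC (fl x (.z b (!σ))) b σ' σ i = if i = P.n then !P.entC x b σ' σ i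
      else P.entC x b σ' σ i := by
  unfold entC
  rw [src_z, vec_z, fl_ne (w := .R (b + 1) (!σ') i) (by simp)]
  by_cases h : i = P.n
  · rw [if_pos h, if_pos h, fl_self, beq_not, if_pos h]
  · rw [if_neg h, if_neg h, if_neg h]

section
variable (hx : P.LM x) (hb : 1 ≤ b) (hb' : b ≤ P.m + 1)
include hb hb'

theorem ev_X_low (y : Cf) (h : P.busy y b = true) : P.ev y (.X b) = P.bodyP y b (P.vP y b) := by
  rw [ev_X, decide_eq_true hb, decide_eq_true (show b ≤ P.m + 2 by omega), Bool.true_and,
    Bool.true_and, if_pos h]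

include hx

theorem busy_eq : P.busy x b = ((P.vV x b).uns || (P.vV x b).κ) := by
  unfold busy
  rw [view_eq hx hb hb', decide_eq_true hb', Bool.true_and]

/-- the next entry of the first kind is right -/
theorem entA_right (hu : (P.vV x b).uns = true) (hh : (P.vV x b).h = true)
    (h1 : 1 ≤ (P.vV x b).fA) (h2 : (P.vV x b).fA ≤ P.n + 1) :
    P.entA x b (P.vV x b).σ' (P.vV x b).σ ((P.vV x b).fA - 1) = true := by
  by_contra hcon
  have hbusy : P.busy x b = true := by rw [busy_eq hx hb hb', hu, Bool.true_or]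
  generalize hV : P.vV x b = V at *
  have hVP : P.vP x b = V := by rw [view_eq hx hb hb', hV]
  have he : P.entA x b V.σ' V.σ (V.fA - 1) = false := by simpa using hcon
  have hX : P.ev x (.X b) = true := by
    rw [ev_X_low hb hb' x hbusy, hVP]
    unfold bodyP
    rw [if_pos hu, hh, decide_eq_true h1, decide_eq_true h2, he]
    rfl
  have key : ∀ v : Var, dat v → v.Ok P.n P.K → v.lvl = b →
      (∀ i ≤ P.n, P.entA (fl x v) b V.σ' V.σ i = if i = V.fA - 1 then
        !P.entA x b V.σ' V.σ i else P.entA x b V.σ' V.σ i) →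
      (∀ b' s, b' ≠ b → fl x v (.z b' s) = x (.z b' s)) →
      (∀ b' s i, b' ≠ b → fl x v (.R b' s i) = x (.R b' s i)) →
      (∀ o ∈ P.infl v, hi P.K o (.X b) → o = .X (b + 1) ∨
        P.ev (fl x v) o = P.ev x o) → False := by
    intro v hv hok hl hent hz hR hinf
    refine noimp hx hok (by rw [hl]; exact hb) (by rw [hl]; omega) (o := .X b) trivial hX ?_
      fun o ho _ hh' => ?_
    · rw [ev_X_low hb hb' _ (by rw [busy_dat hv]; exact hbusy), (view_dat hv b).2, hVP]
      unfold bodyP
      rw [if_pos hu, hent _ (by omega), if_pos rfl, he]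
      simp
    · rcases hinf o ho hh' with rfl | h
      · rw [ev_X_eq hb hb', ev_X_eq hb hb', busy_dat hv, (view_dat hv (b + 1)).2,
          (view_dat hv b).1, hV]
        have e1 : P.bodyP (fl x v) (b + 1) (P.vP x (b + 1)) =
            P.bodyP x (b + 1) (P.vP x (b + 1)) :=
          (body_congr (fun s i => hR _ _ _ (by omega)) (fun s i => hR _ _ _ (by omega))
            (fun s => hz _ _ (by omega)) _).2
        have e2 : P.bodyV (fl x v) b V = P.bodyV x b V := by
          rw [bodyV_uns hu, bodyV_uns hu]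
          congr 1
          refine any_congr' fun i hi => ?_
          rw [List.mem_range] at hi
          by_cases hf : V.fA ≤ i
          · rw [hent _ (by omega), if_neg (by omega)]
          · rw [decide_eq_false hf, Bool.false_and, Bool.false_and]
        rw [e1, e2]
      · exact h
  rcases Nat.lt_or_ge (V.fA - 1) P.n with h3 | h3
  · refine key (.R b (!V.σ) (V.fA - 1)) (Or.inl ⟨_, _, _, rfl⟩) h3 rfl
      (fun i _ => entA_R h3) (fun b' s _ => fl_ne (by simp))
      (fun b' s i hb1 => fl_ne (by simp [hb1])) fun o ho hh' => ?_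
    simp only [infl, List.mem_cons, List.not_mem_nil, or_false] at ho
    rcases ho with rfl | rfl | rfl
    · exact Or.inl rfl
    · exact absurd hh' (hi_irrefl _ _)
    · exfalso
      simp only [hi, Out.reg] at hh'
      omega
  · have h4 : V.fA - 1 = P.n := by omega
    refine key (.z b (!V.σ)) (Or.inr ⟨_, _, rfl⟩) trivial rfl
      (fun i _ => by rw [entA_z, h4]) (fun b' s hb1 => fl_ne (by simp [hb1]))
      (fun b' s i hb1 => fl_ne (by simp)) fun o ho hh' => ?_
    simp only [infl, List.mem_cons, List.not_mem_nil, or_false] at ho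
    rcases ho with rfl | rfl | rfl
    · exact Or.inl rfl
    · right
      have e1 : x (.a b 2) = x (.a b 0) := sync_a' hx hb hb' (by omega)
      have e2 : Bool.xor (x (.a b 2)) (x (.g b)) = V.σ := by
        rw [e1, ← hV]
        rfl
      rw [ev_D, ev_D, fl_ne (w := .a b 2) (by simp), fl_ne (w := .g b) (by simp), e2,
        fl_ne (w := .z b V.σ) (by
          intro h5
          injection h5 with _ h6
          exact not_ne _ h6)]
    · exact absurd hh' (hi_irrefl _ _)

/-- the next entry of the second kind is right -/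
theorem entC_right (hu : (P.vV x b).uns = false) (hk : (P.vV x b).κ = true)
    (hbz : P.busy x (b + 1) = false)
    (hnext : b + 1 ≤ P.m + 1 → P.busy x (b + 2) = false ∧ (P.vV x (b + 1)).uns = false ∧
      (P.vV x (b + 1)).κ = false)
    (h1 : 1 ≤ (P.vV x b).fC) (h2 : (P.vV x b).fC ≤ P.n + 1) :
    P.entC x b (P.vV x b).σ' (P.vV x b).σ ((P.vV x b).fC - 1) = true := by
  by_contra hcon
  have hbusy : P.busy x b = true := by rw [busy_eq hx hb hb', hk, Bool.or_true]
  have hσ' : (P.vV x b).σ' = x (.s (b + 1) 3) := rfl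
  generalize hV : P.vV x b = V at *
  have hVP : P.vP x b = V := by rw [view_eq hx hb hb', hV]
  have he : P.entC x b V.σ' V.σ (V.fC - 1) = false := by simpa using hcon
  have hX : P.ev x (.X b) = true := by
    rw [ev_X_low hb hb' x hbusy, hVP]
    unfold bodyP
    rw [if_neg (by rw [hu]; exact Bool.false_ne_true), hk, decide_eq_true h1,
      decide_eq_true h2, he]
    rfl
  -- properties of the flipped variable
  have key : ∀ v : Var, dat v → v.Ok P.n P.K → 1 ≤ v.lvl → v.lvl ≤ P.m + 2 →
      (∀ i ≤ P.n, P.entC (fl x v) b V.σ' V.σ i = if i = V.fC - 1 then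
        !P.entC x b V.σ' V.σ i else P.entC x b V.σ' V.σ i) →
      P.stat (fl x v) b V.σ' V.σ = P.stat x b V.σ' V.σ →
      P.pre (fl x v) b V.σ = P.pre x b V.σ →
      (∀ o ∈ P.infl v, hi P.K o (.X b) → o = .X (b + 1) ∨
        P.ev (fl x v) o = P.ev x o) → False := by
    intro v hv hok hl hl' hent hst hpr hinf
    refine noimp hx hok hl hl' (o := .X b) trivial hX ?_ fun o ho _ hh' => ?_
    · rw [ev_X_low hb hb' _ (by rw [busy_dat hv]; exact hbusy), (view_dat hv b).2, hVP]
      unfold bodyP
      rw [if_neg (by rw [hu]; exact Bool.false_ne_true), hent _ (by omega), if_pos rfl, he]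
      simp
    · rcases hinf o ho hh' with rfl | h
      · rw [ev_X_eq hb hb', ev_X_eq hb hb', busy_dat hv, hbz, if_neg Bool.false_ne_true,
          if_neg Bool.false_ne_true, (view_dat hv b).1, hV, bodyV_set hu, bodyV_set hu, hst, hpr]
        congr 3
        refine any_congr' fun i hi => ?_
        rw [List.mem_range] at hi
        by_cases hf : V.fC ≤ i
        · rw [hent _ (by omega), if_neg (by omega)]
        · rw [decide_eq_false hf, Bool.false_and, Bool.false_and]
      · exact h
  rcases Nat.lt_or_ge (V.fC - 1) P.n with h3 | h3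
  · have hdat : dat (.R (b + 1) (!V.σ') (V.fC - 1)) := Or.inl ⟨_, _, _, rfl⟩
    refine key (.R (b + 1) (!V.σ') (V.fC - 1)) hdat h3 (Nat.succ_pos b)
      (Nat.succ_le_succ hb') (fun i _ => entC_R h3) ?_ ?_ fun o ho hh' => ?_
    · unfold stat
      rw [vec_ne (Or.inl (by omega)), vec_ne (Or.inr (not_ne _)), fl_ne (by simp)]
    · unfold pre
      rw [vec_ne (Or.inl (by omega)), vec_ne (Or.inl (by omega))]
    · simp only [infl, List.mem_cons, List.not_mem_nil, or_false] at ho
      rcases ho with rfl | rfl | rfl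
      · right
        by_cases hm : b + 1 ≤ P.m + 1
        · obtain ⟨g1, g2, g3⟩ := hnext hm
          rw [ev_X_eq (Nat.succ_pos b) hm, ev_X_eq (Nat.succ_pos b) hm, busy_dat hdat,
            show b + 1 + 1 = b + 2 from rfl, g1, if_neg Bool.false_ne_true,
            if_neg Bool.false_ne_true, (view_dat hdat _).1, bodyV_set g2, bodyV_set g2, g3,
            Bool.false_and, Bool.false_and]
          have hs : (P.vV x (b + 1)).σ = V.σ' := by
            rw [hσ', sync_s3 hx (Nat.succ_pos b) hm]
            rfl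
          unfold stat
          rw [hs, vec_ne (Or.inr (not_ne _)), vec_ne (Or.inl (by omega)), fl_ne (by simp)]
        · rw [ev_X, ev_X, decide_eq_false (show ¬ b + 1 + 1 ≤ P.m + 2 by omega),
            Bool.and_false, Bool.false_and, Bool.false_and]
      · exact Or.inl rfl
      · exact absurd hh' (hi_irrefl _ _)
  · have h4 : V.fC - 1 = P.n := by omega
    refine key (.z b (!V.σ)) (Or.inr ⟨_, _, rfl⟩) trivial hb (by
      change b ≤ P.m + 2
      omega) (fun i _ => by rw [entC_z, h4]) ?_ ?_ fun o ho hh' => ?_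
    · unfold stat
      rw [vec_z, vec_z, fl_ne (w := .z b V.σ) (by
          intro h5
          injection h5 with _ h6
          exact not_ne _ h6)]
    · unfold pre
      rw [vec_z, vec_z]
    · simp only [infl, List.mem_cons, List.not_mem_nil, or_false] at ho
      rcases ho with rfl | rfl | rfl
      · exact Or.inl rfl
      · right
        have e1 : x (.a b 2) = x (.a b 0) := sync_a' hx hb hb' (by omega)
        have e2 : Bool.xor (x (.a b 2)) (x (.g b)) = V.σ := by
          rw [e1, ← hV]
          rfl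
        rw [ev_D, ev_D, fl_ne (w := .a b 2) (by simp), fl_ne (w := .g b) (by simp), e2,
          fl_ne (w := .z b V.σ) (by
            intro h5
            injection h5 with _ h6
            exact not_ne _ h6)]
      · exact absurd hh' (hi_irrefl _ _)

end

end Par

end Pool.Agent.MPa0a715.BQ
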