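import Pool.Agent.Lib.MP_a0a715_lc_BQ.Sync

/-!
# Flipping control bits
-/

namespace Pool.Agent.MPa0a715.BQ

namespace Par

/-- assumptions on the data -/
structure Good (P : Par) : Prop where
  K : 0 < P.K
  F : P.n + 1 ≤ F (P.K - 1)
  st : ∀ v : List Bool, v.length = P.n → (P.st v).length = P.n
  top : ∀ v w, P.tp (P.m + 1) v = P.tp (P.m + 1) w
  step : ∀ b v, 2 ≤ b → b ≤ P.m + 1 → P.tp (b - 1) v = 2 * P.tp b v + (P.dg b v).toNat

variable {P : Par} {x : Cf} {b : ℕ}

/-- control bits of level `b` -/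
def ctl (b : ℕ) (v : Var) : Prop := v = .a b 0 ∨ v = .g b ∨ v = .k b ∨ ∃ t j, v = .c b t j 0

theorem ctl_infl {v : Var} (hv : ctl b v) : ∀ o ∈ P.infl v, o = .X (b + 1) ∨ o.reg = b := by
  rcases hv with rfl | rfl | rfl | ⟨t, j, rfl⟩
  · simp [infl, Out.reg]
  · simp [infl, Out.reg]
  · simp [infl, Out.reg]
  · simp only [infl]
    split_ifs <;> simp [Out.reg]

theorem ctl_lvl {v : Var} (hv : ctl b v) : v.lvl = b := by
  rcases hv with rfl | rfl | rfl | ⟨t, j, rfl⟩ <;> rfl

theorem not_busy_guard {b : ℕ} (h : P.m + 1 < b) : P.busy x b = false := by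
  unfold busy
  rw [decide_eq_false (by omega), Bool.false_and]

theorem ev_X_eq (hb : 1 ≤ b) (hb' : b ≤ P.m + 1) : P.ev x (.X (b + 1)) =
    if P.busy x (b + 1) = true then P.bodyP x (b + 1) (P.vP x (b + 1))
      else P.bodyV x b (P.vV x b) := by
  rw [ev_X, Nat.add_sub_cancel, decide_eq_true (show 1 ≤ b + 1 by omega),
    decide_eq_true (show b + 1 ≤ P.m + 2 by omega), decide_eq_true (show 2 ≤ b + 1 by omega),
    Bool.true_and, Bool.true_and, Bool.true_and]

/-- the view of the tests of block `b + 1` does not depend on control bits of level `b` -/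
theorem ev_X_ctl {v : Var} (hv : ctl b v) (hb : 1 ≤ b) (hb' : b ≤ P.m + 1) :
    P.ev (fl x v) (.X (b + 1)) =
    if P.busy x (b + 1) = true then P.bodyP x (b + 1) (P.vP x (b + 1))
      else P.bodyV x b (P.vV (fl x v) b) := by
  rw [ev_X_eq hb hb']
  have h1 : ∀ b' r, 0 < r → fl x v (.a b' r) = x (.a b' r) := fun b' r hr => fl_ne (by
    rcases hv with rfl | rfl | rfl | ⟨t, j, rfl⟩ <;> simp
    omega)
  have h2 : ∀ b' r, fl x v (.s b' r) = x (.s b' r) := fun b' r => fl_ne (by
    rcases hv with rfl | rfl | rfl | ⟨t, j, rfl⟩ <;> simp)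
  have h3 : ∀ b' t j r, 0 < r → fl x v (.c b' t j r) = x (.c b' t j r) := fun b' t j r hr =>
    fl_ne (by
      rcases hv with rfl | rfl | rfl | ⟨t, j, rfl⟩ <;> simp
      omega)
  have h4 : ∀ b' s i, fl x v (.R b' s i) = x (.R b' s i) := fun b' r i => fl_ne (by
    rcases hv with rfl | rfl | rfl | ⟨t, j, rfl⟩ <;> simp)
  have h5 : ∀ b' s, fl x v (.z b' s) = x (.z b' s) := fun b' r => fl_ne (by
    rcases hv with rfl | rfl | rfl | ⟨t, j, rfl⟩ <;> simp)
  have hP : P.vP (fl x v) (b + 1) = P.vP x (b + 1) := by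
    unfold vP
    rw [h2, h2, h1 _ _ (by omega), h3 _ _ _ _ (by omega), h3 _ _ _ _ (by omega)]
    congr 1
    · exact Phi_congr fun j _ => h3 _ _ _ _ (by omega)
    · exact Phi_congr fun j _ => h3 _ _ _ _ (by omega)
  have hbz : P.busy (fl x v) (b + 1) = P.busy x (b + 1) := by
    unfold busy
    rw [hP]
  rw [hbz, hP, (body_congr (fun s i => h4 _ s i) (fun s i => h4 _ s i) (fun s => h5 _ s) _).2,
    (body_congr (fun s i => h4 _ s i) (fun s i => h4 _ s i) (fun s => h5 _ s) _).1]

theorem hi_irrefl (K : ℕ) (o : Out) : ¬ hi K o o := by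
  rintro (h | ⟨_, h⟩) <;> omega

theorem not_hi_X {v : Var} (hv : ctl b v) {K : ℕ} :
    ∀ o ∈ P.infl v, ¬ hi K o (.X (b + 1)) := by
  intro o ho
  rcases ctl_infl hv o ho with rfl | h
  · exact hi_irrefl _ _
  · rintro (h1 | ⟨h1, _⟩)
    · rw [h] at h1
      simp only [Out.reg] at h1
      omega
    · rw [h] at h1
      simp only [Out.reg] at h1
      omega

/-- repairing a false claim -/
theorem repair (hx : P.LM x) (hb : 1 ≤ b) (hb' : b ≤ P.m + 1) {v : Var} (hv : ctl b v)
    (hok : v.Ok P.n P.K) (h0 : P.busy x (b + 1) = false)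
    (h1 : P.bodyV x b (P.vV x b) = true) (h2 : P.bodyV x b (P.vV (fl x v) b) = false) :
    False := by
  refine noimp hx hok (by rw [ctl_lvl hv]; exact hb) (by rw [ctl_lvl hv]; omega)
    (o := .X (b + 1)) trivial ?_ ?_ fun o' hm _ hh => absurd hh (not_hi_X hv o' hm)
  · rw [ev_X_eq hb hb', h0, if_neg Bool.false_ne_true, h1]
  · rw [ev_X_ctl hv hb hb', h0, if_neg Bool.false_ne_true, h2]

/-- making progress -/
theorem gate (hx : P.LM x) (hb : 1 ≤ b) (hb' : b ≤ P.m + 1) {v : Var} (hv : ctl b v)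
    (hok : v.Ok P.n P.K) {M : Out} (hM : M.Ok P.K)
    (hhi : ∀ o ∈ P.infl v, o = .X (b + 1) ∨ ¬ hi P.K o M)
    (h1 : P.ev x M = true) (h2 : P.ev (fl x v) M = false)
    (h3 : P.busy x (b + 1) = true ∨
      (P.bodyV x b (P.vV (fl x v) b) = true → P.bodyV x b (P.vV x b) = true)) : False := by
  have hl : 1 ≤ v.lvl := by rw [ctl_lvl hv]; exact hb
  have hl' : v.lvl ≤ P.m + 2 := by rw [ctl_lvl hv]; omega
  by_cases hX : P.ev (fl x v) (.X (b + 1)) = P.ev x (.X (b + 1))
  · refine noimp hx hok hl hl' hM h1 h2 fun o' hm _ hh => ?_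
    rcases hhi o' hm with rfl | h
    · exact hX
    · exact absurd hh h
  · have hX' : P.ev x (.X (b + 1)) = true ∧ P.ev (fl x v) (.X (b + 1)) = false := by
      have e1 := ev_X_eq (x := x) hb hb'
      have e2 := ev_X_ctl (x := x) hv hb hb'
      rw [e1, e2] at hX ⊢
      rcases h3 with h3 | h3
      · rw [if_pos h3, if_pos h3] at hX
        exact absurd rfl hX
      · by_cases hz : P.busy x (b + 1) = true
        · rw [if_pos hz, if_pos hz] at hX
          exact absurd rfl hX
        · rw [if_neg hz, if_neg hz] at hX ⊢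
          revert hX h3
          cases P.bodyV x b (P.vV (fl x v) b) <;> cases P.bodyV x b (P.vV x b) <;> simp
    exact noimp hx hok hl hl' (o := .X (b + 1)) trivial hX'.1 hX'.2
      fun o' hm _ hh => absurd hh (not_hi_X hv o' hm)

/-! ### values of the outputs -/

/-- the clocks -/
def wA (x : Cf) (b : ℕ) : ℕ → Bool := fun j => x (.c b true j 0)

/-- the clocks -/
def wC (P : Par) (x : Cf) (b : ℕ) : ℕ → Bool := fun j =>
  if j = P.K then Bool.xor (x (.k b)) (x (.g b)) else x (.c b false j 0)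

section
variable (hx : P.LM x) (hb : 1 ≤ b) (hb' : b ≤ P.m + 1)
include hx hb hb'

theorem val_U : P.ev x (.U b) = (P.vV x b).uns := by
  rw [ev_U, rb_iff.2 ⟨hb, hb'⟩, Bool.true_and, sync_t' hx hb hb' (by omega) (by omega)]
  rfl

theorem val_K : P.ev x (.K b) = !(Bool.xor (P.vV x b).κ (P.vV x b).uns) := by
  rw [ev_K, rb_iff.2 ⟨hb, hb'⟩, Bool.true_and, sync_t' hx hb hb' (by omega) (by omega),
    sync_s1 hx hb hb']
  unfold vV
  dsimp only
  cases x (.k b) <;> cases x (.a b 0) <;> cases x (.g b) <;> cases x (.s (b + 1) 3) <;> rfl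

theorem val_H : P.ev x (.Q b true P.K) = Bool.xor (P.vV x b).h (P.vV x b).uns := by
  rw [ev_Q, rb_iff.2 ⟨hb, hb'⟩, Bool.true_and, if_pos rfl, if_pos rfl,
    sync_t' hx hb hb' (by omega) (by omega), sync_a' hx hb hb' (by omega)]
  rfl

theorem val_A {j : ℕ} (hj : j < P.K) : P.ev x (.Q b true j) = tk P.K (wA x b) j := by
  rw [ev_Q, rb_iff.2 ⟨hb, hb'⟩, Bool.true_and, if_neg (by omega),
    sync_c' hx hb hb' (t := true) (j := j + 1) (r := 1) (by omega) (by omega)]
  unfold tk wA
  by_cases h2 : j + 2 ≤ P.K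
  · rw [sync_c' hx hb hb' (t := true) (j := j + 2) (r := 2) h2 (by omega)]
  · rw [decide_eq_false h2, Bool.false_and, Bool.false_and]

theorem val_C {j : ℕ} (hj : j < P.K) : P.ev x (.Q b false j) = tk P.K (P.wC x b) j := by
  have e : ∀ i ≤ P.K, x (.c b false i 0) = P.wC x b i := by
    intro i hi
    unfold wC
    by_cases h : i = P.K
    · rw [if_pos h, h]
      exact sync_q hx hb hb'
    · rw [if_neg h]
  rw [ev_Q, rb_iff.2 ⟨hb, hb'⟩, Bool.true_and, if_neg (by omega),
    sync_c' hx hb hb' (t := false) (j := j + 1) (r := 1) (by omega) (by omega),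
    e _ (by omega), e _ (by omega)]
  unfold tk
  by_cases h2 : j + 2 ≤ P.K
  · rw [sync_c' hx hb hb' (t := false) (j := j + 2) (r := 2) h2 (by omega), e _ h2]
  · rw [decide_eq_false h2, Bool.false_and, Bool.false_and]

theorem val_D : P.ev x (.D b) = x (.z b (P.vV x b).σ) := by
  rw [ev_D, rb_iff.2 ⟨hb, hb'⟩, Bool.true_and, sync_a' hx hb hb' (by omega)]
  rfl

end

/-! ### flipping the own variable -/

theorem not_xor' (a b : Bool) : Bool.xor (!a) b = !(Bool.xor a b) := by
  cases a <;> cases b <;> rfl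

section
variable (hb : 1 ≤ b) (hb' : b ≤ P.m + 1)
include hb hb'

theorem flip_U : P.ev (fl x (.a b 0)) (.U b) = !P.ev x (.U b) := by
  rw [ev_U, ev_U, rb_iff.2 ⟨hb, hb'⟩, Bool.true_and, Bool.true_and, fl_self, fl_ne (by simp),
    not_xor']

theorem flip_K : P.ev (fl x (.k b)) (.K b) = !P.ev x (.K b) := by
  rw [ev_K, ev_K, rb_iff.2 ⟨hb, hb'⟩, Bool.true_and, Bool.true_and, fl_self, fl_ne (by simp),
    fl_ne (by simp), not_xor']

theorem flip_Q {t : Bool} {j : ℕ} (h : j < P.K ∨ t = true) :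
    P.ev (fl x (.c b t j 0)) (.Q b t j) = !P.ev x (.Q b t j) := by
  rw [ev_Q, ev_Q, rb_iff.2 ⟨hb, hb'⟩, Bool.true_and, Bool.true_and]
  by_cases hj : j = P.K
  · subst hj
    have ht : t = true := by
      rcases h with h | h
      · omega
      · exact h
    subst ht
    rw [if_pos rfl, if_pos rfl, if_pos rfl, if_pos rfl, fl_self, fl_ne (by simp),
      fl_ne (by simp), not_xor']
  · rw [if_neg hj, if_neg hj, fl_self, fl_ne (by simp), fl_ne (by simp), not_xor']

end

/-! ### the view after a flip -/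

theorem wA_flip (j : ℕ) : wA (fl x (.c b true j 0)) b = flw (wA x b) j := by
  funext i
  unfold wA flw
  by_cases h : i = j
  · subst h
    rw [fl_self, if_pos rfl]
  · rw [fl_ne (by simp [h]), if_neg h]

theorem wC_flip {j : ℕ} (hj : j < P.K) : P.wC (fl x (.c b false j 0)) b = flw (P.wC x b) j := by
  funext i
  unfold wC flw
  dsimp only
  rw [fl_ne (by simp), fl_ne (by simp)]
  by_cases h : i = j
  · subst h
    rw [if_neg (by omega), fl_self, if_pos rfl, if_neg (by omega)]
  · rw [fl_ne (by simp [h]), if_neg h]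

theorem wC_flip_k : P.wC (fl x (.k b)) b = flw (P.wC x b) P.K := by
  funext i
  unfold wC flw
  dsimp only
  rw [fl_self, fl_ne (by simp), fl_ne (by simp)]
  by_cases h : i = P.K
  · rw [if_pos h, if_pos h, if_pos h, not_xor']
  · rw [if_neg h, if_neg h, if_neg h]

theorem view_a : P.vV (fl x (.a b 0)) b =
    { P.vV x b with σ := !(P.vV x b).σ, uns := !(P.vV x b).uns } := by
  unfold vV
  simp only [fl_self, not_xor']
  congr 1

theorem view_g : P.vV (fl x (.g b)) b =
    { P.vV x b with σ := !(P.vV x b).σ, κ := !(P.vV x b).κ, fC := Phi P.K (P.wC (fl x (.g b)) b) } := by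
  unfold vV
  simp only [fl_self, Bool.xor_not]
  congr 1
  unfold wC
  simp only [fl_self, Bool.xor_not]

theorem view_k : P.vV (fl x (.k b)) b =
    { P.vV x b with κ := !(P.vV x b).κ, fC := Phi P.K (flw (P.wC x b) P.K) } := by
  rw [← wC_flip_k]
  unfold vV
  simp only [fl_self, not_xor']
  congr 1
  unfold wC
  simp only [fl_self, not_xor']

theorem view_h : P.vV (fl x (.c b true P.K 0)) b =
    { P.vV x b with h := !(P.vV x b).h, fA := Phi P.K (flw (wA x b) P.K) } := by
  rw [← wA_flip]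
  unfold vV
  simp only [fl_self]
  congr 1
  refine Phi_congr fun j _ => ?_
  by_cases h : j = P.K
  · rw [if_pos h, if_pos h]
    rfl
  · rw [if_neg h, if_neg h, fl_ne (by simp)]

theorem view_A {j : ℕ} (hj : j < P.K) : P.vV (fl x (.c b true j 0)) b =
    { P.vV x b with fA := Phi P.K (flw (wA x b) j) } := by
  rw [← wA_flip]
  unfold vV
  congr 1
  · exact fl_ne (by simp; omega)
  · refine Phi_congr fun j _ => ?_
    by_cases h : j = P.K
    · rw [if_pos h, if_pos h]
      rfl
    · rw [if_neg h, if_neg h, fl_ne (by simp)]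

theorem view_C {j : ℕ} (hj : j < P.K) : P.vV (fl x (.c b false j 0)) b =
    { P.vV x b with fC := Phi P.K (flw (P.wC x b) j) } := by
  rw [← wC_flip hj]
  unfold vV
  congr 1
  · exact fl_ne (by simp)
  · exact Phi_congr fun j _ => fl_ne (by simp)

end Par

end Pool.Agent.MPa0a715.BQ
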