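import Pool.Agent.Lib.MP_a0a715_lc_BQ.PTB

/-!
# The reduction is computed in polynomial time
-/

namespace Pool.Agent.MPa0a715.BQ

open Pool.Agent.MPa0a715 Pool.Agent.PolyTime
open Pool.Agent.MPa0a715.IN (ptime_step step)
open Pool.Agent.MPa0a715.BW (ptime_top top ptime_testBit ptime_sl ptime_jux)

section
variable {α : Type} [Enc α] (c : Ctx α) {b : α → ℕ} (hb : PTime b)
include hb

/-- the outputs are computed in polynomial time -/
abbrev Ctx.E (o : α → Out) : Prop := PTime (fun a => (PC (c.C a)).ev (c.x a) (o a))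

theorem Ctx.eX : c.E fun a => .X (b a) := by
  have hm : PTime (fun a => (c.C a).outs.length) := (PU.ofLength (ptime_outs c.hC)).toNat
  have hb1 : PTime (fun a => b a - 1) := hb.sub (PTime.const 1)
  have hbusy : PTime (fun a => (PC (c.C a)).busy (c.x a) (b a)) :=
    (PTime.le hb (hm.add (PTime.const 1))).and ((c.vPu hb).or (c.vPk hb))
  exact ((PTime.le (PTime.const 1) hb).and (PTime.le hb (hm.add (PTime.const 2)))).and
    (PTime.ite hbusy (c.vP hb) ((PTime.le (PTime.const 2) hb).and (c.vV hb1)))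

theorem Ctx.eU : c.E fun a => .U (b a) := by
  have hb1 : PTime (fun a => b a + 1) := hb.add (PTime.const 1)
  exact (c.rb hb).and ((c.va hb (PTime.const 0)).xor (c.s hb1 (PTime.const 4)))

theorem Ctx.eD : c.E fun a => .D (b a) :=
  (c.rb hb).and (c.z hb ((c.va hb (PTime.const 2)).xor (c.g hb)))

theorem Ctx.eK : c.E fun a => .K (b a) := by
  have hb1 : PTime (fun a => b a + 1) := hb.add (PTime.const 1)
  exact (c.rb hb).and ((c.k hb).xor ((c.s hb (PTime.const 1)).xor
    (c.s hb1 (PTime.const 6)))).not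

theorem Ctx.eLa (r : ℕ) : c.E fun a => .La (b a) r :=
  (c.rb hb).and ((c.va hb (PTime.const r)).xor (c.va hb (PTime.const (r - 1))))

theorem Ctx.eLs (r : ℕ) : c.E fun a => .Ls (b a) r := by
  by_cases hr : r = 1
  · refine ((c.rb hb).and ((c.s hb (PTime.const 1)).xor ((c.va hb (PTime.const 3)).xor
      (c.g hb)))).of_eq fun a => ?_
    rw [Par.ev_Ls, if_pos hr]
  · refine ((c.rb hb).and ((c.s hb (PTime.const r)).xor
      (c.s hb (PTime.const (r - 1))))).of_eq fun a => ?_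
    rw [Par.ev_Ls, if_neg hr]

theorem Ctx.eLt (r : ℕ) : c.E fun a => .Lt (b a) r := by
  have hb1 : PTime (fun a => b a + 1) := hb.add (PTime.const 1)
  exact (c.rb hb).and ((c.s hb1 (PTime.const r)).xor (c.s hb1 (PTime.const (r - 1))))

theorem Ctx.eQ {j : α → ℕ} (hj : PTime j) (t : Bool) : c.E fun a => .Q (b a) t (j a) := by
  have hb1 : PTime (fun a => b a + 1) := hb.add (PTime.const 1)
  have ht : PTime (fun _ : α => t) := PTime.const t
  have hj1 : PTime (fun a => j a + 1) := hj.add (PTime.const 1)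
  have hj2 : PTime (fun a => j a + 2) := hj.add (PTime.const 2)
  have hK := c.K.toNat
  have r0 : PTime (fun a => c.x a (.c (b a) t (KK (c.C a).n) 0)) := c.vc hb ht hK (PTime.const 0)
  have q1 : PTime (fun a => Bool.xor (c.x a (.c (b a) t (KK (c.C a).n) 0))
      (Bool.xor (c.x a (.a (b a) 1)) (c.x a (.s (b a + 1) 5)))) :=
    r0.xor ((c.va hb (PTime.const 1)).xor (c.s hb1 (PTime.const 5)))
  have q2 : PTime (fun a => Bool.xor (c.x a (.c (b a) t (KK (c.C a).n) 0))
      (Bool.xor (c.x a (.k (b a))) (Bool.xor (c.x a (.a (b a) 4)) (c.x a (.s (b a) 2))))) :=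
    r0.xor ((c.k hb).xor ((c.va hb (PTime.const 4)).xor (c.s hb (PTime.const 2))))
  have q3 : PTime (fun a => if t = true then
      Bool.xor (c.x a (.c (b a) t (KK (c.C a).n) 0))
        (Bool.xor (c.x a (.a (b a) 1)) (c.x a (.s (b a + 1) 5)))
      else Bool.xor (c.x a (.c (b a) t (KK (c.C a).n) 0))
        (Bool.xor (c.x a (.k (b a))) (Bool.xor (c.x a (.a (b a) 4)) (c.x a (.s (b a) 2))))) := by
    by_cases h : t = true
    · exact q1.of_eq fun a => by rw [if_pos h]
    · exact q2.of_eq fun a => by rw [if_neg h]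
  exact (c.rb hb).and (PTime.iteP (PTime.eq hj hK) q3
    ((c.vc hb ht hj (PTime.const 0)).xor ((c.vc hb ht hj1 (PTime.const 1)).xor
      ((PTime.le hj2 hK).and (c.vc hb ht hj2 (PTime.const 2))))))

theorem Ctx.eL {j : α → ℕ} (hj : PTime j) (t : Bool) (r : ℕ) : c.E fun a => .L (b a) t (j a) r :=
  (c.rb hb).and ((c.vc hb (PTime.const t) hj (PTime.const r)).xor
    (c.vc hb (PTime.const t) hj (PTime.const (r - 1))))

omit hb in
theorem Ctx.e0 : c.E fun _ => .U 0 := (PTime.const false).of_eq fun _ => (ev_dummy _ _).symm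

theorem Ctx.eCh {u : α → ℕ} (hu : PTime u) (t : Bool) :
    c.E fun a => chunk (KK (c.C a).n) (b a) t (u a) := by
  have hK := c.K.toNat
  have h3 : PTime (fun a => u a / 3) := hu.div (PTime.const 3)
  have m3 : PTime (fun a => u a % 3) := hu.mod (PTime.const 3)
  have e0 := c.e0
  refine (PTime.iteP (PTime.eq m3 (PTime.const 0))
    (PTime.iteP (PTime.le (PTime.const 6) hu) (c.eQ hb (h3.sub (PTime.const 2)) t) e0)
    (PTime.iteP (PTime.eq m3 (PTime.const 1))
      (PTime.iteP (PTime.le h3 hK) (c.eL hb h3 t 2) e0)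
      (PTime.iteP (PTime.le (PTime.const 3) hu) (c.eL hb (h3.sub (PTime.const 1)) t 1)
        e0))).of_eq fun a => ?_
  unfold chunk
  simp only [apply_ite ((PC (c.C a)).ev (c.x a))]

theorem Ctx.eOut {t : α → ℕ} (ht : PTime t) :
    c.E fun a => outOf (KK (c.C a).n) (b a) (t a) := by
  have hK := c.K.toNat
  have lin : ∀ p q : ℕ, PTime (fun a => p * KK (c.C a).n + q) := fun p q =>
    ((PTime.const p).mul hK).add (PTime.const q)
  have hK5 : PTime (fun a => KK (c.C a).n + 5) := hK.add (PTime.const 5)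
  refine (PTime.iteP (PTime.eq ht (PTime.const 0)) (c.eX hb) <|
    PTime.iteP (PTime.eq ht (PTime.const 1)) (c.eLa hb 5) <|
    PTime.iteP (PTime.eq ht (PTime.const 2)) (c.eLs hb 3) <|
    PTime.iteP (PTime.eq ht (PTime.const 3)) (c.eLt hb 7) <|
    PTime.iteP (PTime.lt ht hK5) (c.eL hb (ht.sub (PTime.const 4)) true 3) <|
    PTime.iteP (PTime.lt ht (lin 2 6)) (c.eL hb (ht.sub hK5) false 3) <|
    PTime.iteP (PTime.lt ht (lin 5 12)) (c.eCh hb (ht.sub (lin 2 6)) false) <|
    PTime.iteP (PTime.eq ht (lin 5 12)) (c.eQ hb hK false) <|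
    PTime.iteP (PTime.eq ht (lin 5 13)) (c.eLa hb 4) <|
    PTime.iteP (PTime.eq ht (lin 5 14)) (c.eLs hb 2) <|
    PTime.iteP (PTime.eq ht (lin 5 15)) (c.eK hb) <|
    PTime.iteP (PTime.eq ht (lin 5 16)) (c.eLt hb 6) <|
    PTime.iteP (PTime.eq ht (lin 5 17)) (c.eLs hb 1) <|
    PTime.iteP (PTime.eq ht (lin 5 18)) (c.eLa hb 3) <|
    PTime.iteP (PTime.eq ht (lin 5 19)) (c.eD hb) <|
    PTime.iteP (PTime.eq ht (lin 5 20)) (c.eLa hb 2) <|
    PTime.iteP (PTime.lt ht (lin 8 27)) (c.eCh hb (ht.sub (lin 5 21)) true) <|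
    PTime.iteP (PTime.eq ht (lin 8 27)) (c.eQ hb hK true) <|
    PTime.iteP (PTime.eq ht (lin 8 28)) (c.eLt hb 5) <|
    PTime.iteP (PTime.eq ht (lin 8 29)) (c.eLa hb 1) <|
    PTime.iteP (PTime.eq ht (lin 8 30)) (c.eU hb) (c.eLt hb 4)).of_eq fun a => ?_
  unfold outOf
  simp only [apply_ite ((PC (c.C a)).ev (c.x a))]

end

theorem ptime_Fb : PTime (fun p : (Circuit × ℕ) × (ℕ × List Bool) => Fb p.1 p.2.1 p.2.2) := by
  have hC : PTime (fun p : (Circuit × ℕ) × (ℕ × List Bool) => p.1.1) := PTime.fst' PTime.fst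
  have hb : PTime (fun p : (Circuit × ℕ) × (ℕ × List Bool) => p.1.2) := PTime.snd' PTime.fst
  have ht : PTime (fun p : (Circuit × ℕ) × (ℕ × List Bool) => p.2.1) := PTime.fst' PTime.snd
  have hy : PTime (fun p : (Circuit × ℕ) × (ℕ × List Bool) => p.2.2) := PTime.snd' PTime.snd
  exact Ctx.eOut ⟨_, _, _, hC, hb, hy⟩ (hb.add (PTime.const 1)) ht

theorem pu_SC {α : Type} [Enc α] {C : α → Circuit} (hC : PTime C) : PU (fun a => SC (C a)) :=
  (((PU.const 2).mul (pu_n hC)).add (PU.const 17)).add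
    ((PU.const 8).mul ((pu_KK (pu_n hC).toNat).add (PU.const 1)))

theorem pu_LC {α : Type} [Enc α] {C : α → Circuit} (hC : PTime C) : PU (fun a => LC (C a)) :=
  ((PU.const 8).mul (pu_KK (pu_n hC).toNat)).add (PU.const 32)

/-- there are circuits for the blocks -/
theorem exists_G : ∃ G : Circuit × ℕ → Circuit, PTime G ∧ GOK G := by
  have hC : PTime (fun a : Circuit × ℕ => a.1) := PTime.fst
  obtain ⟨G, hG, h⟩ := WM.circStmt (α := Circuit × ℕ) Fb
    (fun a => 3 * SC a.1) (fun a => LC a.1) ptime_Fb ((PU.const 3).mul (pu_SC hC)) (pu_LC hC)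
  refine ⟨G, hG, fun a => ?_⟩
  have hpos := SC_pos a.1
  obtain ⟨h1, h2, h3, h4⟩ := h a (by omega)
  exact ⟨h1, h2, h3, h4⟩

theorem ptime_red {G : Circuit × ℕ → Circuit} (hG : PTime G) (κ : ℕ) :
    PTime (fun C : Circuit => red G κ C) := by
  have hn := pu_n (PTime.id (α := Circuit))
  have hm := PU.ofLength (ptime_outs (PTime.id (α := Circuit)))
  have hS : PU (fun C : Circuit => SC C) := pu_SC PTime.id
  have hN : PU (fun C : Circuit => NN κ C) :=
    ((hm.add (PU.const 4)).mul hS).add (BW.pu_pow ((PU.const 2).mul (hn.add (PU.const 2))) _)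
  have hG2 : PTime (fun p : Circuit × ℕ => (G (p.1, p.2)).gates) := ptime_gates hG
  have hΓ : PU (fun C : Circuit => GG G C) :=
    PU.ofLength (PTime.flatMap (g := fun (C : Circuit) (b : ℕ) => (G (C, b)).gates)
      (hm.add (PU.const 2)).range hG2)
  exact ptime_jux (G := fun (C : Circuit) (b : ℕ) => G (C, b)) hN
    ((PTime.const 3).mul hS.toNat) hS.toNat (pu_LC PTime.id) hΓ (hm.add (PU.const 2)) hG

theorem ptime_rd : PTime (fun p : Circuit × List Bool => rd p.1 p.2) := by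
  have hC : PTime (fun p : Circuit × List Bool => p.1) := PTime.fst
  have hn := pu_n hC
  have hS : PTime (fun p : Circuit × List Bool => 2 * SC p.1) :=
    (PTime.const 2).mul (pu_SC hC).toNat
  exact PTime.ite (PTime.listGetD PTime.snd (hS.add (((PTime.const 2).mul hn.toNat).add
    (PTime.const 12))) (PTime.const false)) (ptime_sl hn PTime.snd (hS.add hn.toNat))
    (ptime_sl hn PTime.snd hS)

/-- Unrestricted Circuit-FLIP reduces to Circuit-FLIP with arity `n ^ ε`, influence `3` and windows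
of size `ε * log n`. -/
theorem hard (κ : ℕ) : PLSReduces (fun _ => True) fun C => ∃ a β : ℕ, a ^ κ ≤ C.n ∧
    κ * β ≤ Nat.log 2 C.n ∧ C.Arity a ∧ C.Influence 3 ∧ C.Window β := by
  obtain ⟨G, hG, hGOK⟩ := exists_G
  refine ⟨fun C => red G κ C, fun p => rd p.1 p.2, (ptime_red hG κ).isPolyTime,
    ptime_rd.isPolyTime, fun C _ _ => ⟨red_valid hGOK κ C,
      ⟨3 * SC C, 3 * LC C, le_NN κ C (SC_le C), ?_, red_arity hGOK κ C, red_influence hGOK κ C,
        red_window hGOK κ C⟩, fun y hy => red_min hGOK hy⟩⟩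
  refine Nat.le_log_of_pow_le (by norm_num) ?_
  rw [Nat.mul_comm, pow_mul]
  exact le_NN κ C (two_pow_LC C)

end Pool.Agent.MPa0a715.BQ
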