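import Pool.Agent.Lib.MP_a0a715_lc_BW.Main
import Pool.Agent.Lib.MP_a0a715_lc_BI.Red
import Pool.Agent.Lib.MP_a0a715_lc_BQ.PTC

/-!
# Influence three and four
-/

namespace Pool.Agent.MPa0a715.BQ

open Pool.Agent.MPa0a715 Pool.Agent.PolyTime
open Pool.Agent.MPa0a715.BW (mono pad_red padc_arity padc_influence hard_of window_length)

/-- arity `3`, influence `4` and windows of size `n ^ ε` -/
theorem hard_four (κ : ℕ) (hκ : 0 < κ) :
    Hard (Circuit.Bounded fun n a q β => a ≤ 3 ∧ q ≤ 4 ∧ β ^ κ ≤ n) := by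
  refine hard_of (mono (fun C h => ?_) (pad_red κ hκ (K := fun C => C.Arity 3 ∧ C.Influence 4)
    (fun C N hC hn hN h => ⟨padc_arity hC hn hN h.1, padc_influence hC hn hN h.2⟩) BI.hard34))
  exact ⟨3, 4, C.outs.length, ⟨le_rfl, le_rfl, h.2⟩, h.1.1, h.1.2, window_length C⟩

/-- arity `n ^ ε`, influence `3` and windows of size `ε * log n` -/
theorem hard_log (κ : ℕ) :
    Hard (Circuit.Bounded fun n a q β => a ^ κ ≤ n ∧ q ≤ 3 ∧ κ * β ≤ Nat.log 2 n) := by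
  refine hard_of (mono (fun C h => ?_) (hard κ))
  obtain ⟨a, β, h1, h2, h3, h4, h5⟩ := h
  exact ⟨a, 3, β, ⟨h1, le_rfl, h2⟩, h3, h4, h5⟩

end Pool.Agent.MPa0a715.BQ
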