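import Pool.Agent.Lib.MP_a0a715_lc_BQ.Entry

/-!
# Local minima solve the given problem
-/

namespace Pool.Agent.MPa0a715.BQ

namespace Par

variable {P : Par} {x : Cf} {b : ℕ}

theorem any_step {n f : ℕ} {e : ℕ → Bool} (hf : f ≤ n → e f = true)
    (h : ((List.range (n + 1)).any fun i => decide (f ≤ i) && !e i) = true) :
    ((List.range (n + 1)).any fun i => decide (f + 1 ≤ i) && !e i) = true := by
  rw [List.any_eq_true] at h ⊢
  obtain ⟨i, hi, h1⟩ := h
  rw [List.mem_range] at hi
  rw [Bool.and_eq_true, decide_eq_true_eq] at h1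
  refine ⟨i, List.mem_range.2 hi, ?_⟩
  rw [Bool.and_eq_true, decide_eq_true_eq]
  refine ⟨?_, h1.2⟩
  rcases Nat.lt_or_ge f i with h2 | h2
  · exact h2
  · exfalso
    have h3 : f = i := by omega
    subst h3
    rw [hf (by omega)] at h1
    exact Bool.false_ne_true h1.2

theorem none_claimed {n f : ℕ} {e : ℕ → Bool} (h : n < f) :
    ((List.range (n + 1)).any fun i => decide (f ≤ i) && !e i) = false :=
  any_iff.2 fun i hi hf => by omega

section
variable (hG : Good P) (hx : P.LM x)
include hG hx

/-- no block is unsettled -/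
theorem settled (hb : 1 ≤ b) (hb' : b ≤ P.m + 1) : (P.vV x b).uns = false := by
  by_contra hcon
  have hu : (P.vV x b).uns = true := by simpa using hcon
  -- the flag of the second clock is off
  have hκ : (P.vV x b).κ = false := by
    by_contra hc
    have hc' : (P.vV x b).κ = true := by simpa using hc
    refine flipk hx hb hb' (by rw [hc', hu]) (Or.inr fun h => ?_)
    rw [bodyV_uns hu]
    rw [bodyV_uns (by exact hu)] at h
    exact h
  -- the flag of the first clock is on
  have hh : (P.vV x b).h = true := by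
    by_contra hc
    have hc' : (P.vV x b).h = false := by simpa using hc
    have hrest := clockA hx hb hb' fun j _ _ _ => Or.inr fun h => by
      rw [bodyV_uns (by exact hu)] at h
      dsimp only at h
      rw [hc', Bool.false_and] at h
      exact absurd h Bool.false_ne_true
    refine fliph hx hb hb' (by rw [hc', hu]; exact Bool.false_ne_true) (Or.inr fun h => ?_)
    exfalso
    rw [bodyV_uns (by exact hu)] at h
    dsimp only at h
    rw [none_claimed (Phi_restart hG (by rw [← h_eq]; exact hc') hrest), Bool.and_false] at h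
    exact Bool.false_ne_true h
  -- the claims are true
  have hV : P.busy x (b + 1) = true ∨ P.bodyV x b (P.vV x b) = false := by
    by_contra hc
    push Not at hc
    refine repair hx hb hb' (v := .c b true P.K 0) (Or.inr (Or.inr (Or.inr ⟨true, P.K, rfl⟩)))
      ⟨le_rfl, by omega⟩ (by simpa using hc.1) (by simpa using hc.2) ?_
    rw [view_h, bodyV_uns (by exact hu)]
    dsimp only
    rw [hh, Bool.not_true, Bool.false_and]
  -- the first clock has run down
  have hclock : ∀ j < P.K, tk P.K (wA x b) j = false := by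
    refine clockA hx hb hb' fun j hj ht hmin => Or.inr fun h => ?_
    have hP := Phi_flw hj ht hmin
    rw [bodyV_uns (by exact hu)] at h
    rw [bodyV_uns hu]
    dsimp only at h
    rw [hh, Bool.true_and] at h ⊢
    rw [fA_eq, ← hP]
    refine any_step (fun hle => ?_) h
    have h1 := entA_right hx hb hb' hu hh (by rw [fA_eq]; omega) (by rw [fA_eq]; omega)
    rw [fA_eq, ← hP, Nat.add_sub_cancel] at h1
    exact h1
  refine flipa hx hb hb' hu ?_
  rcases hV with hV | hV
  · exact Or.inl hV
  right
  intro h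
  exfalso
  rw [bodyV_uns hu, hh, Bool.true_and, fA_eq, Phi_zero hclock, any_iff] at hV
  rw [bodyV_set (by change (!(P.vV x b).uns) = false; rw [hu]; rfl)] at h
  dsimp only at h
  rw [hκ, Bool.false_and, Bool.or_false] at h
  have hvec : P.vec x b (!(P.vV x b).σ) = P.vec x (b + 1) (P.vV x b).σ' := by
    unfold vec
    refine List.map_congr_left fun i hi => ?_
    rw [List.mem_range] at hi
    have := hV i hi.le (Nat.zero_le _)
    unfold entA at this
    rw [if_neg (by omega), beq_iff_eq] at this
    exact this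
  have hz := hV P.n le_rfl (Nat.zero_le _)
  unfold entA at hz
  rw [if_pos rfl, beq_iff_eq] at hz
  unfold stat at h
  rw [hvec, hz] at h
  simp at h

theorem h_off (hb : 1 ≤ b) (hb' : b ≤ P.m + 1) : (P.vV x b).h = false := by
  have hu := settled hG hx hb hb'
  by_contra hc
  refine fliph hx hb hb' (by rw [hu]; exact hc) (Or.inr fun h => ?_)
  rw [bodyV_set hu]
  rw [bodyV_set (by exact hu)] at h
  exact h

/-- all visible claims are true -/
theorem claims (hb : 1 ≤ b) (hb' : b ≤ P.m + 1) (h0 : P.busy x (b + 1) = false) :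
    P.bodyV x b (P.vV x b) = false := by
  have hu := settled hG hx hb hb'
  by_contra hc
  have hc' : P.bodyV x b (P.vV x b) = true := by simpa using hc
  cases hst : P.stat x b (P.vV x b).σ' (P.vV x b).σ
  · refine repair hx hb hb' (v := .a b 0) (Or.inl rfl) (Nat.zero_le _) h0 hc' ?_
    rw [view_a, bodyV_uns (by change (!(P.vV x b).uns) = true; rw [hu]; rfl)]
    dsimp only
    rw [h_off hG hx hb hb', Bool.false_and]
  · refine repair hx hb hb' (v := .k b) (Or.inr (Or.inr (Or.inl rfl))) trivial h0 hc' ?_
    have hk : (P.vV x b).κ = true := by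
      rw [bodyV_set hu, hst, Bool.not_true, Bool.false_or, Bool.and_eq_true] at hc'
      exact hc'.1
    rw [view_k, bodyV_set (by exact hu)]
    dsimp only
    rw [hst, hk]
    rfl

theorem stat_true (hb : 1 ≤ b) (hb' : b ≤ P.m + 1) (h0 : P.busy x (b + 1) = false) :
    P.stat x b (P.vV x b).σ' (P.vV x b).σ = true := by
  have h := claims hG hx hb hb' h0
  rw [bodyV_set (settled hG hx hb hb')] at h
  revert h
  cases P.stat x b (P.vV x b).σ' (P.vV x b).σ <;> simp

/-- if the second flag is off then the other solution is not better -/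
theorem pre_false (hb : 1 ≤ b) (hb' : b ≤ P.m + 1) (h0 : P.busy x (b + 1) = false)
    (hk : (P.vV x b).κ = false) : P.pre x b (P.vV x b).σ = false := by
  have hu := settled hG hx hb hb'
  have hst := stat_true hG hx hb hb' h0
  by_contra hc
  have hc' : P.pre x b (P.vV x b).σ = true := by simpa using hc
  have hrest := clockC hx hb hb' fun j _ _ _ => Or.inr fun h => by
    rw [bodyV_set (by exact hu)] at h
    dsimp only at h
    rw [hst, hk] at h
    exact absurd h Bool.false_ne_true
  refine flipk hx hb hb' (by rw [hk, hu]) (Or.inr fun h => ?_)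
  exfalso
  rw [bodyV_set (by exact hu)] at h
  dsimp only at h
  rw [none_claimed (Phi_restart hG (by rw [wC_K]; exact hk) hrest), hst, hc'] at h
  simp at h

/-- if the second flag is on then all entries are right -/
theorem entC_all (hb : 1 ≤ b) (hb' : b ≤ P.m + 1) (h0 : P.busy x (b + 1) = false)
    (hnext : b + 1 ≤ P.m + 1 → P.busy x (b + 2) = false ∧ (P.vV x (b + 1)).κ = false)
    (hk : (P.vV x b).κ = true) :
    P.pre x b (P.vV x b).σ = true ∧
      ∀ i ≤ P.n, P.entC x b (P.vV x b).σ' (P.vV x b).σ i = true := by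
  have hu := settled hG hx hb hb'
  have hcl := claims hG hx hb hb' h0
  have hst := stat_true hG hx hb hb' h0
  rw [bodyV_set hu, hst, hk, Bool.not_true, Bool.false_or, Bool.true_and,
    Bool.or_eq_false_iff] at hcl
  obtain ⟨h1, h2⟩ := hcl
  have hpre : P.pre x b (P.vV x b).σ = true := by
    revert h1
    cases P.pre x b (P.vV x b).σ <;> simp
  refine ⟨hpre, ?_⟩
  have hclock : ∀ j < P.K, tk P.K (P.wC x b) j = false := by
    refine clockC hx hb hb' fun j hj ht hmin => Or.inr fun h => ?_
    have hP := Phi_flw hj ht hmin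
    rw [bodyV_set (by exact hu)] at h
    rw [bodyV_set hu]
    dsimp only at h
    rw [hk, hst, hpre] at h ⊢
    simp only [Bool.not_true, Bool.false_or, Bool.true_and] at h ⊢
    rw [fC_eq, ← hP]
    refine any_step (fun hle => ?_) h
    have h1 := entC_right hx hb hb' hu hk h0 (fun hm => by
      obtain ⟨g1, g2⟩ := hnext hm
      exact ⟨g1, settled hG hx (Nat.succ_pos b) hm, g2⟩) (by rw [fC_eq]; omega)
      (by rw [fC_eq]; omega)
    rw [fC_eq, ← hP, Nat.add_sub_cancel] at h1
    exact h1
  rw [fC_eq, Phi_zero hclock, any_iff] at h2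
  exact fun i hi => h2 i hi (Nat.zero_le _)

omit hG hx in
theorem entC_vec {σ' σ : Bool} (hlen : (P.src x b σ' σ).length = P.n)
    (h : ∀ i ≤ P.n, P.entC x b σ' σ i = true) :
    P.vec x (b + 1) (!σ') = P.src x b σ' σ := by
  unfold vec
  refine List.ext_getElem (by simp [hlen]) fun i h1 h2 => ?_
  rw [List.getElem_map, List.getElem_range]
  have hi : i < P.n := by simpa using h1
  have := h i hi.le
  unfold entC at this
  rw [if_neg (by omega), beq_iff_eq] at this
  rw [this, List.getD_eq_getElem _ _ h2]

/-- no second flag is on, except in block `1` -/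
theorem k_off : ∀ b, 2 ≤ b → b ≤ P.m + 1 → (P.vV x b).κ = false := by
  by_contra hcon
  push Not at hcon
  obtain ⟨b0, h20, hm0, hk0⟩ := hcon
  have hP0 : 2 ≤ b0 ∧ (P.vV x b0).κ = true := ⟨h20, by simpa using hk0⟩
  classical
  set b := Nat.findGreatest (fun b => 2 ≤ b ∧ (P.vV x b).κ = true) (P.m + 1) with hbdef
  obtain ⟨h2, hk⟩ : 2 ≤ b ∧ (P.vV x b).κ = true :=
    Nat.findGreatest_spec (P := fun b => 2 ≤ b ∧ (P.vV x b).κ = true) hm0 hP0
  have hb' : b ≤ P.m + 1 := Nat.findGreatest_le _
  have hmax : ∀ b', b < b' → b' ≤ P.m + 1 → (P.vV x b').κ = false := by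
    intro b' h1 h3
    by_contra hc
    exact Nat.findGreatest_is_greatest (P := fun b => 2 ≤ b ∧ (P.vV x b).κ = true) h1 h3
      ⟨by omega, by simpa using hc⟩
  clear_value b
  have hb : 1 ≤ b := by omega
  have hnb : ∀ b', b < b' → P.busy x b' = false := by
    intro b' h1
    by_cases h3 : b' ≤ P.m + 1
    · rw [busy_eq hx (by omega) h3, settled hG hx (by omega) h3, hmax b' h1 h3]
      rfl
    · exact not_busy_guard (by omega)
  have h0 := hnb (b + 1) (by omega)
  have hu := settled hG hx hb hb'
  obtain ⟨hpre, hent⟩ := entC_all hG hx hb hb' h0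
    (fun hm => ⟨hnb (b + 2) (by omega), hmax _ (by omega) hm⟩) hk
  have hst := stat_true hG hx hb hb' h0
  have hsrc : P.src x b (P.vV x b).σ' (P.vV x b).σ = P.vec x b (!(P.vV x b).σ) := by
    unfold src
    rw [if_neg (by omega)]
  have hvec := entC_vec (by rw [hsrc]; simp [vec]) hent
  rw [hsrc] at hvec
  unfold pre at hpre
  rw [decide_eq_false (show ¬ b = 1 by omega), Bool.false_or, decide_eq_true_eq] at hpre
  unfold stat at hst
  rw [Bool.and_eq_true, decide_eq_true_eq, beq_iff_eq] at hst
  obtain ⟨hst1, hst2⟩ := hst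
  -- the leading digits agree
  have htop : P.tp b (P.vec x b (P.vV x b).σ) ≤ P.tp b (P.vec x b (!(P.vV x b).σ)) := by
    by_cases hm : b + 1 ≤ P.m + 1
    · have h3 := pre_false hG hx (b := b + 1) (Nat.succ_pos b) hm (hnb (b + 2) (by omega))
        (hmax _ (by omega) hm)
      have hs : (P.vV x (b + 1)).σ = (P.vV x b).σ' := by
        change _ = x (.s (b + 1) 3)
        rw [sync_s3 hx (Nat.succ_pos b) hm]
        rfl
      unfold pre at h3
      rw [decide_eq_false (show ¬ b + 1 = 1 by omega), Bool.false_or, decide_eq_false_iff_not,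
        hs, hvec, Nat.add_sub_cancel, not_lt] at h3
      rw [hst1]
      exact h3
    · have : b = P.m + 1 := by omega
      rw [this]
      exact (hG.top _ _).le
  rw [hG.step b _ h2 hb', hG.step b _ h2 hb'] at hpre
  have hd : P.dg b (P.vec x b (!(P.vV x b).σ)) = false ∧
      P.dg b (P.vec x b (P.vV x b).σ) = true ∧
      P.tp b (P.vec x b (!(P.vV x b).σ)) = P.tp b (P.vec x b (P.vV x b).σ) := by
    revert hpre
    cases P.dg b (P.vec x b (!(P.vV x b).σ)) <;> cases P.dg b (P.vec x b (P.vV x b).σ) <;>
      simp <;> omega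
  obtain ⟨hd1, hd2, hd3⟩ := hd
  have hz := hent P.n le_rfl
  unfold entC at hz
  rw [if_pos rfl, beq_iff_eq, hd1] at hz
  -- exchange
  have ha2 : x (.a b 2) = x (.a b 0) := sync_a' hx hb hb' (by omega)
  refine gate hx hb hb' (v := .g b) (Or.inr (Or.inl rfl)) trivial (M := .D b) trivial
    ?_ ?_ ?_ (Or.inr fun h => ?_)
  · intro o ho
    simp only [infl, List.mem_cons, List.not_mem_nil, or_false] at ho
    rcases ho with rfl | rfl | rfl
    · exact Or.inl rfl
    · exact Or.inr (hi_irrefl _ _)
    · right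
      simp [hi, Out.reg, Out.pos]
  · rw [val_D hx hb hb', hst2, hd2]
  · rw [ev_D, rb_iff.2 ⟨hb, hb'⟩, Bool.true_and, fl_ne (w := .a b 2) (by simp), fl_self,
      fl_ne (by simp), ha2, Bool.xor_not]
    exact hz
  · exfalso
    rw [view_g, bodyV_set (by exact hu)] at h
    dsimp only at h
    rw [hk] at h
    have hst' : P.stat x b (P.vV x b).σ' (!(P.vV x b).σ) = true := by
      unfold stat
      rw [Bool.and_eq_true, decide_eq_true_eq, beq_iff_eq]
      exact ⟨hd3.trans hst1, by rw [hz, hd1]⟩
    rw [hst'] at h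
    simp at h

/-- in local minima the solution in level `2` cannot be improved -/
theorem main (hm : 1 ≤ P.m) : ¬ P.tp 1 (P.st (P.vec x 2 (x (.s 2 3)))) <
    P.tp 1 (P.vec x 2 (x (.s 2 3))) := by
  have hb2 : 2 ≤ P.m + 1 := by omega
  have hnb : ∀ b', 2 ≤ b' → P.busy x b' = false := by
    intro b' h1
    by_cases h3 : b' ≤ P.m + 1
    · rw [busy_eq hx (by omega) h3, settled hG hx (by omega) h3, k_off hG hx b' h1 h3]
      rfl
    · exact not_busy_guard (by omega)
  have hk : (P.vV x 1).κ = true := by
    by_contra hc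
    have h := pre_false hG hx (b := 1) le_rfl (by omega) (hnb 2 le_rfl) (by simpa using hc)
    unfold pre at h
    rw [decide_eq_true rfl, Bool.true_or] at h
    exact Bool.false_ne_true h.symm
  obtain ⟨_, hent⟩ := entC_all hG hx (b := 1) le_rfl (by omega) (hnb 2 le_rfl)
    (fun _ => ⟨hnb 3 (by omega), k_off hG hx 2 le_rfl hb2⟩) hk
  have hsrc : P.src x 1 (P.vV x 1).σ' (P.vV x 1).σ = P.st (P.vec x 2 (P.vV x 1).σ') := by
    unfold src
    rw [if_pos rfl]
  have hvec := entC_vec (by rw [hsrc]; exact hG.st _ (by simp [vec])) hent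
  rw [hsrc] at hvec
  have h := pre_false hG hx (b := 2) (by omega) hb2 (hnb 3 (by omega))
    (k_off hG hx 2 le_rfl hb2)
  have hs : (P.vV x 2).σ = x (.s 2 3) := by
    rw [sync_s3 hx (by omega) hb2]
    rfl
  unfold pre at h
  rw [hs, decide_eq_false (show ¬ 2 = 1 by omega), Bool.false_or,
    decide_eq_false_iff_not] at h
  have e : P.vec x 2 (!x (.s 2 3)) = P.st (P.vec x 2 (x (.s 2 3))) := hvec
  rw [e] at h
  exact h

end

end Par

end Pool.Agent.MPa0a715.BQ
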