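import Pool.Agent.Lib.MP_a0a715_lc_BQ.Red

/-!
# The clock and the reading functions are computed in polynomial time
-/

namespace Pool.Agent.MPa0a715.BQ

open Pool.Agent.MPa0a715 Pool.Agent.PolyTime
open Pool.Agent.MPa0a715.IN (ptime_step)
open Pool.Agent.MPa0a715.BW (ptime_top top ptime_testBit)

/-! ### the clock -/

/-- one step of adding the values of the tokens -/
def phS (s : ℕ × (ℕ × ℕ)) (b : Bool) : ℕ × (ℕ × ℕ) :=
  ((if b = true then s.1 + s.2.1 else s.1), (s.2.2, s.2.2 + s.2.1 + 1))

theorem phS_fold (K : ℕ) (f : ℕ → Bool) : ((List.range K).map f).foldl phS (0, (1, 2)) =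
    (∑ j ∈ Finset.range K, if f j = true then F j else 0, (F K, F (K + 1))) := by
  induction K with
  | zero => rfl
  | succ K ih =>
    rw [List.range_succ, List.map_append, List.foldl_append, ih, Finset.sum_range_succ]
    unfold phS
    simp only [List.map_cons, List.map_nil, List.foldl_cons, List.foldl_nil]
    congr 1
    split_ifs <;> rfl

theorem sumF_le (K : ℕ) : (∑ j ∈ Finset.range K, F j) + 2 ≤ 2 ^ (K + 1) := by
  induction K with
  | zero => simp
  | succ K ih =>
    rw [Finset.sum_range_succ]
    have h1 := F_le K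
    have h2 : 2 ^ (K + 1 + 1) = 2 ^ (K + 1) + 2 ^ (K + 1) := by ring
    omega

theorem phS_size (l : List Bool) :
    size (enc (l.foldl phS (0, (1, 2)))) ≤ 12 * l.length + 30 := by
  have h1 : l = (List.range l.length).map fun j => l.getD j false := by
    refine ext_getD (by simp) fun i hi => ?_
    rw [List.getD_eq_getElem (l := (List.range l.length).map _) _ (by simpa using hi),
      List.getElem_map, List.getElem_range]
  rw [h1, phS_fold, size_pair, size_pair, List.length_map, List.length_range]
  have h2 : (∑ j ∈ Finset.range l.length, if l.getD j false = true then F j else 0) <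
      2 ^ (l.length + 1) := by
    have h3 : (∑ j ∈ Finset.range l.length, if l.getD j false = true then F j else 0) ≤
        ∑ j ∈ Finset.range l.length, F j :=
      Finset.sum_le_sum fun j _ => by split_ifs <;> omega
    have h4 := sumF_le l.length
    omega
  have h5 : F l.length < 2 ^ (l.length + 1) := by
    have := F_le l.length
    omega
  have h6 : F (l.length + 1) < 2 ^ (l.length + 1 + 1) := by
    have := F_le (l.length + 1)
    omega
  have k1 := size_nat_le_of_lt h2
  have k2 := size_nat_le_of_lt h5
  have k3 := size_nat_le_of_lt h6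
  omega

section
variable {α : Type} [Enc α]

theorem ptime_tk {K j : α → ℕ} {w : α → ℕ → Bool} (hK : PTime K) (hw : PTime₂ w)
    (hj : PTime j) : PTime (fun a => tk (K a) (w a) (j a)) := by
  have h : ∀ {i : α → ℕ}, PTime i → PTime (fun a => w a (i a)) := fun hi =>
    hw.comp (PTime.id.pair hi)
  exact (h hj).xor ((h (hj.add (PTime.const 1))).xor ((PTime.le (hj.add (PTime.const 2)) hK).and
    (h (hj.add (PTime.const 2)))))

theorem ptime_Phi {K : α → ℕ} {w : α → ℕ → Bool} (hK : PU K) (hw : PTime₂ w) :
    PTime (fun a => Phi (K a) (w a)) := by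
  have h1 : PTime (fun a => (List.range (K a)).map fun j => tk (K a) (w a) j) := by
    refine PTime.map (g := fun (a : α) (j : ℕ) => tk (K a) (w a) j) hK.range ?_
    refine ptime_tk (α := α × ℕ) (K := fun p => K p.1) (w := fun p => w p.1)
      (hK.toNat.comp PTime.fst) ?_ PTime.snd
    exact hw.comp ((PTime.fst.comp PTime.fst).pair PTime.snd)
  have h2 : PTime (fun p : α × ((ℕ × (ℕ × ℕ)) × Bool) => phS p.2.1 p.2.2) := by
    have s1 : PTime (fun p : α × ((ℕ × (ℕ × ℕ)) × Bool) => p.2.1.1) :=
      PTime.fst' (PTime.fst' PTime.snd)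
    have s2 : PTime (fun p : α × ((ℕ × (ℕ × ℕ)) × Bool) => p.2.1.2.1) :=
      PTime.fst' (PTime.snd' (PTime.fst' PTime.snd))
    have s3 : PTime (fun p : α × ((ℕ × (ℕ × ℕ)) × Bool) => p.2.1.2.2) :=
      PTime.snd' (PTime.snd' (PTime.fst' PTime.snd))
    have s4 : PTime (fun p : α × ((ℕ × (ℕ × ℕ)) × Bool) => p.2.2) := PTime.snd' PTime.snd
    exact (PTime.ite s4 (s1.add s2) s1).pair (s3.pair ((s3.add s2).add (PTime.const 1)))
  obtain ⟨T, hT, _, hTs⟩ := h1.size_le
  have h3 := PTime.foldl (g := fun _ : α => ((0, (1, 2)) : ℕ × (ℕ × ℕ)))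
    (h := fun (_ : α) (s : ℕ × (ℕ × ℕ)) (b : Bool) => phS s b) h1 (PTime.const _) h2
    (B := fun n => 12 * T n + 30) (((PBd.const 12).mul hT).add (PBd.const 30))
    (fun a l₁ l₂ hl => by
      refine (phS_size l₁).trans ?_
      have e1 := length_le_size ((List.range (K a)).map fun j => tk (K a) (w a) j)
      have e2 := hTs a
      have e3 : l₁.length ≤ ((List.range (K a)).map fun j => tk (K a) (w a) j).length := by
        rw [hl, List.length_append]
        omega
      omega)
  refine (PTime.fst' h3).of_eq fun a => ?_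
  change (((List.range (K a)).map fun j => tk (K a) (w a) j).foldl phS (0, (1, 2))).1 = _
  rw [phS_fold]
  rfl

/-! ### reading -/

/-- variables computed in polynomial time -/
structure PV (n K : α → ℕ) (v : α → Var) : Prop where
  ok : PTime fun a => (v a).okb (n a) (K a)
  lvl : PTime fun a => (v a).lvl
  idx : PTime fun a => (v a).idx (n a) (K a)

section
variable {n K b r j i : α → ℕ} {d t : α → Bool} (hn : PTime n) (hK : PTime K) (hb : PTime b)
include hn

section
include hb

theorem PV.R (hs : PTime d) (hi : PTime i) : PV n K fun a => .R (b a) (d a) (i a) where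
  ok := PTime.lt hi hn
  lvl := hb
  idx := (PTime.ite hs hn (PTime.const 0)).add hi

theorem PV.z (hs : PTime d) : PV n K fun a => .z (b a) (d a) where
  ok := PTime.const true
  lvl := hb
  idx := ((PTime.const 2).mul hn).add (PTime.ite hs (PTime.const 1) (PTime.const 0))

theorem PV.a (hr : PTime r) : PV n K fun a => .a (b a) (r a) where
  ok := PTime.le hr (PTime.const 5)
  lvl := hb
  idx := (((PTime.const 2).mul hn).add (PTime.const 2)).add hr

theorem PV.g : PV n K fun a => .g (b a) where
  ok := PTime.const true
  lvl := hb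
  idx := ((PTime.const 2).mul hn).add (PTime.const 8)

theorem PV.k : PV n K fun a => .k (b a) where
  ok := PTime.const true
  lvl := hb
  idx := ((PTime.const 2).mul hn).add (PTime.const 9)

theorem PV.s (hr : PTime r) : PV n K fun a => .s (b a) (r a) where
  ok := (PTime.le (PTime.const 1) hr).and (PTime.le hr (PTime.const 7))
  lvl := hb
  idx := (((PTime.const 2).mul hn).add (PTime.const 9)).add hr

include hK in
theorem PV.c (ht : PTime t) (hj : PTime j) (hr : PTime r) :
    PV n K fun a => .c (b a) (t a) (j a) (r a) where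
  ok := (PTime.le hj hK).and (PTime.le hr (PTime.const 3))
  lvl := hb
  idx := (((((PTime.const 2).mul hn).add (PTime.const 17)).add (PTime.ite ht
    ((PTime.const 4).mul (hK.add (PTime.const 1))) (PTime.const 0))).add
    ((PTime.const 4).mul hj)).add hr

end

include hK in
theorem PV.read {β : α → ℕ} {y : α → List Bool} {v : α → Var} (hβ : PTime β) (hy : PTime y)
    (hv : PV n K v) : PTime (fun a => rdv (n a) (K a) (β a) (y a) (v a)) := by
  have hS : PTime (fun a => SS (n a) (K a)) :=
    (((PTime.const 2).mul hn).add (PTime.const 17)).add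
      ((PTime.const 8).mul (hK.add (PTime.const 1)))
  exact PTime.ite (hv.ok.and (PTime.le hβ hv.lvl))
    (PTime.listGetD hy (((hv.lvl.sub hβ).mul hS).add hv.idx) (PTime.const false))
    (PTime.const false)

end

end

end Pool.Agent.MPa0a715.BQ
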