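import Pool.Agent.Lib.MP_a0a715_lc_BQ.PTA

/-!
# The tests are computed in polynomial time
-/

namespace Pool.Agent.MPa0a715.BQ

open Pool.Agent.MPa0a715 Pool.Agent.PolyTime
open Pool.Agent.MPa0a715.IN (ptime_step step)
open Pool.Agent.MPa0a715.BW (ptime_top top ptime_testBit)

/-- a circuit and a configuration computed in polynomial time -/
structure Ctx (α : Type) [Enc α] where
  C : α → Circuit
  β : α → ℕ
  y : α → List Bool
  hC : PTime C
  hβ : PTime β
  hy : PTime y

section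
variable {α γ : Type} [Enc α] [Enc γ]

/-- the configuration -/
abbrev Ctx.x (c : Ctx α) (a : α) : Cf := rdv (c.C a).n (KK (c.C a).n) (c.β a) (c.y a)

/-- change the arguments -/
abbrev Ctx.pull (c : Ctx α) {f : γ → α} (hf : PTime f) : Ctx γ where
  C a := c.C (f a)
  β a := c.β (f a)
  y a := c.y (f a)
  hC := c.hC.comp hf
  hβ := c.hβ.comp hf
  hy := c.hy.comp hf

theorem pu_KK {n : α → ℕ} (hn : PTime n) : PU (fun a => KK (n a)) := by
  have h1 : PTime (fun a => n a + 1) := hn.add (PTime.const 1)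
  have h2 : PU (fun a => Nat.size (n a + 1)) :=
    PU.of_eq (PU.ofLength (PTime.natBits h1)) fun a => Nat.size_eq_bits_len _
  exact ((PU.const 2).mul h2).add (PU.const 1)

variable (c : Ctx α)

theorem Ctx.n : PU (fun a => (c.C a).n) := pu_n c.hC

theorem Ctx.K : PU (fun a => KK (c.C a).n) := pu_KK c.n.toNat

theorem Ctx.read {v : α → Var} (hv : PV (fun a => (c.C a).n) (fun a => KK (c.C a).n) v) :
    PTime (fun a => c.x a (v a)) :=
  PV.read (n := fun a => (c.C a).n) (K := fun a => KK (c.C a).n) c.n.toNat c.K.toNat c.hβ c.hy hv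

section
variable {b r j i : α → ℕ} {d t : α → Bool} (hb : PTime b)
include hb

theorem Ctx.R (hd : PTime d) (hi : PTime i) : PTime (fun a => c.x a (.R (b a) (d a) (i a))) :=
  c.read (PV.R c.n.toNat hb hd hi)

theorem Ctx.z (hd : PTime d) : PTime (fun a => c.x a (.z (b a) (d a))) :=
  c.read (PV.z c.n.toNat hb hd)

theorem Ctx.va (hr : PTime r) : PTime (fun a => c.x a (.a (b a) (r a))) :=
  c.read (PV.a c.n.toNat hb hr)

theorem Ctx.g : PTime (fun a => c.x a (.g (b a))) := c.read (PV.g c.n.toNat hb)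

theorem Ctx.k : PTime (fun a => c.x a (.k (b a))) := c.read (PV.k c.n.toNat hb)

theorem Ctx.s (hr : PTime r) : PTime (fun a => c.x a (.s (b a) (r a))) :=
  c.read (PV.s c.n.toNat hb hr)

theorem Ctx.vc (ht : PTime t) (hj : PTime j) (hr : PTime r) :
    PTime (fun a => c.x a (.c (b a) (t a) (j a) (r a))) :=
  c.read (PV.c c.n.toNat c.K.toNat hb ht hj hr)

theorem Ctx.vec (hd : PTime d) : PTime (fun a => (PC (c.C a)).vec (c.x a) (b a) (d a)) :=
  PTime.map (g := fun (a : α) (i : ℕ) => c.x a (.R (b a) (d a) i)) c.n.range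
    ((c.pull PTime.fst).R (hb.comp PTime.fst) (hd.comp PTime.fst) PTime.snd)

theorem Ctx.tp {v : α → List Bool} (hv : PTime v) :
    PTime (fun a => (PC (c.C a)).tp (b a) (v a)) :=
  ptime_top c.hC (hb.sub (PTime.const 1)) hv

theorem Ctx.dg {v : α → List Bool} (hv : PTime v) :
    PTime (fun a => (PC (c.C a)).dg (b a) (v a)) :=
  (PTime.le (PTime.const 2) hb).and (PTime.listGetD (ptime_out c.hC hv)
    (hb.sub (PTime.const 2)) (PTime.const false))

end

section
variable {b i : α → ℕ} {σ' σ : α → Bool} (hb : PTime b) (h1 : PTime σ') (h2 : PTime σ)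
include hb h2

theorem Ctx.pre : PTime (fun a => (PC (c.C a)).pre (c.x a) (b a) (σ a)) := by
  have hb1 : PTime (fun a => b a - 1) := hb.sub (PTime.const 1)
  exact (PTime.eq hb (PTime.const 1)).or (PTime.lt (c.tp hb1 (c.vec hb h2.not))
    (c.tp hb1 (c.vec hb h2)))

include h1

theorem Ctx.src : PTime (fun a => (PC (c.C a)).src (c.x a) (b a) (σ' a) (σ a)) :=
  PTime.iteP (PTime.eq hb (PTime.const 1))
    (ptime_step c.hC (c.vec (hb.add (PTime.const 1)) h1)) (c.vec hb h2.not)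

theorem Ctx.stat : PTime (fun a => (PC (c.C a)).stat (c.x a) (b a) (σ' a) (σ a)) :=
  (PTime.eq (c.tp hb (c.vec hb h2)) (c.tp hb (c.vec (hb.add (PTime.const 1)) h1))).and
    ((PTime.eq (c.z hb h2) (c.dg hb (c.vec hb h2))).of_eq fun a => by
      rw [Bool.beq_eq_decide_eq])

theorem Ctx.entA (hi : PTime i) :
    PTime (fun a => (PC (c.C a)).entA (c.x a) (b a) (σ' a) (σ a) (i a)) := by
  have hb1 : PTime (fun a => b a + 1) := hb.add (PTime.const 1)
  refine PTime.iteP (PTime.eq hi c.n.toNat)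
    ((PTime.eq (c.z hb h2.not) (c.dg hb (c.vec hb1 h1))).of_eq fun a => ?_)
    ((PTime.eq (c.R hb h2.not hi) (c.R hb1 h1 hi)).of_eq fun a => ?_)
  · rw [Bool.beq_eq_decide_eq]
  · rw [Bool.beq_eq_decide_eq]

theorem Ctx.entC (hi : PTime i) :
    PTime (fun a => (PC (c.C a)).entC (c.x a) (b a) (σ' a) (σ a) (i a)) := by
  have hb1 : PTime (fun a => b a + 1) := hb.add (PTime.const 1)
  refine PTime.iteP (PTime.eq hi c.n.toNat)
    ((PTime.eq (c.z hb h2.not) (c.dg hb (c.vec hb h2.not))).of_eq fun a => ?_)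
    ((PTime.eq (c.R hb1 h1.not hi) (PTime.listGetD (c.src hb h1 h2) hi
      (PTime.const false))).of_eq fun a => ?_)
  · rw [Bool.beq_eq_decide_eq]
  · rw [Bool.beq_eq_decide_eq]

end

section
variable {b fA fC : α → ℕ} {σ' σ uns h κ : α → Bool} (hb : PTime b) (h1 : PTime σ')
  (h2 : PTime σ) (h3 : PTime uns) (h4 : PTime h) (h5 : PTime κ) (h6 : PTime fA)
  (h7 : PTime fC)
include hb h1 h2 h3 h4 h5 h6 h7

theorem Ctx.bodyV : PTime (fun a => (PC (c.C a)).bodyV (c.x a) (b a)
    ⟨σ' a, σ a, uns a, h a, κ a, fA a, fC a⟩) := by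
  have hr : PTime (fun a => List.range ((c.C a).n + 1)) := (c.n.add (PU.const 1)).range
  have q1 : PTime₂ (fun (a : α) (i : ℕ) => decide (fA a ≤ i) &&
      !(PC (c.C a)).entA (c.x a) (b a) (σ' a) (σ a) i) :=
    (PTime.le (h6.comp PTime.fst) PTime.snd).and ((c.pull PTime.fst).entA
      (hb.comp PTime.fst) (h1.comp PTime.fst) (h2.comp PTime.fst) PTime.snd).not
  have q2 : PTime₂ (fun (a : α) (i : ℕ) => decide (fC a ≤ i) &&
      !(PC (c.C a)).entC (c.x a) (b a) (σ' a) (σ a) i) :=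
    (PTime.le (h7.comp PTime.fst) PTime.snd).and ((c.pull PTime.fst).entC
      (hb.comp PTime.fst) (h1.comp PTime.fst) (h2.comp PTime.fst) PTime.snd).not
  exact PTime.ite h3 (h4.and (PTime.any hr q1)) ((c.stat hb h1 h2).not.or
    (h5.and ((c.pre hb h2).not.or (PTime.any hr q2))))

theorem Ctx.bodyP : PTime (fun a => (PC (c.C a)).bodyP (c.x a) (b a)
    ⟨σ' a, σ a, uns a, h a, κ a, fA a, fC a⟩) := by
  have hn : PTime (fun a => (c.C a).n + 1) := (c.n.add (PU.const 1)).toNat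
  exact PTime.ite h3
    (h4.and ((PTime.le (PTime.const 1) h6).and ((PTime.le h6 hn).and
      (c.entA hb h1 h2 (h6.sub (PTime.const 1))).not)))
    (h5.and ((PTime.le (PTime.const 1) h7).and ((PTime.le h7 hn).and
      (c.entC hb h1 h2 (h7.sub (PTime.const 1))).not)))

end

section
variable {b : α → ℕ} (hb : PTime b)
include hb

theorem Ctx.ΦA (r : ℕ) (t : Bool) :
    PTime (fun a => Phi (KK (c.C a).n) fun j => c.x a (.c (b a) t j r)) :=
  ptime_Phi c.K ((c.pull PTime.fst).vc (t := fun _ => t) (r := fun _ => r) (hb.comp PTime.fst)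
    (PTime.const _) PTime.snd (PTime.const _))

theorem Ctx.κ : PTime (fun a => Bool.xor (c.x a (.k (b a))) (c.x a (.g (b a)))) :=
  (c.k hb).xor (c.g hb)

theorem Ctx.ΦC : PTime (fun a => Phi (KK (c.C a).n) fun j => if j = KK (c.C a).n then
    Bool.xor (c.x a (.k (b a))) (c.x a (.g (b a))) else c.x a (.c (b a) false j 0)) := by
  refine ptime_Phi (w := fun a j => if j = KK (c.C a).n then
    Bool.xor (c.x a (.k (b a))) (c.x a (.g (b a))) else c.x a (.c (b a) false j 0)) c.K ?_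
  exact PTime.iteP (PTime.eq PTime.snd (c.K.toNat.comp PTime.fst))
    ((c.pull PTime.fst).κ (hb.comp PTime.fst))
    ((c.pull PTime.fst).vc (t := fun _ => false) (r := fun _ => 0) (hb.comp PTime.fst)
      (PTime.const _) PTime.snd (PTime.const _))

theorem Ctx.vV : PTime (fun a => (PC (c.C a)).bodyV (c.x a) (b a)
    ((PC (c.C a)).vV (c.x a) (b a))) := by
  have hb1 : PTime (fun a => b a + 1) := hb.add (PTime.const 1)
  have s3 : PTime (fun a => c.x a (.s (b a + 1) 3)) := c.s hb1 (PTime.const 3)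
  have a0 : PTime (fun a => c.x a (.a (b a) 0)) := c.va hb (PTime.const 0)
  exact c.bodyV hb s3 (a0.xor (c.g hb)) (a0.xor s3)
    (c.vc hb (PTime.const true) c.K.toNat (PTime.const 0)) (c.κ hb) (c.ΦA hb 0 true) (c.ΦC hb)

theorem Ctx.vPu : PTime (fun a => ((PC (c.C a)).vP (c.x a) (b a)).uns) :=
  (c.va hb (PTime.const 5)).xor (c.s (hb.add (PTime.const 1)) (PTime.const 7))

theorem Ctx.vPk : PTime (fun a => ((PC (c.C a)).vP (c.x a) (b a)).κ) :=
  c.vc hb (PTime.const false) c.K.toNat (PTime.const 3)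

theorem Ctx.vP : PTime (fun a => (PC (c.C a)).bodyP (c.x a) (b a)
    ((PC (c.C a)).vP (c.x a) (b a))) :=
  c.bodyP hb (c.s (hb.add (PTime.const 1)) (PTime.const 7)) (c.s hb (PTime.const 3))
    (c.vPu hb) (c.vc hb (PTime.const true) c.K.toNat (PTime.const 3)) (c.vPk hb)
    (c.ΦA hb 3 true) (c.ΦA hb 3 false)

theorem Ctx.rb : PTime (fun a => (PC (c.C a)).rb (b a)) :=
  (PTime.le (PTime.const 1) hb).and (PTime.le hb ((PU.ofLength (ptime_outs c.hC)).toNat.add
    (PTime.const 1)))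

end

end

end Pool.Agent.MPa0a715.BQ
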