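import Pool.Agent.Lib.MP_a0a715_lc_BQ.Circ

/-!
# The reduction
-/

namespace Pool.Agent.MPa0a715.BQ

open Pool.Agent.MPa0a715 Pool.Agent.PolyTime
open Pool.Agent.MPa0a715.IN (step step_cases length_step val_lt_cost cost_lt_iff)
open Pool.Agent.MPa0a715.BW (top top_succ top_length jux Fam seg seg_getD length_seg jux_outBit
  jux_valid jux_outs_length jux_reads_out reads_of_env getD_flip_ne getD_flip_eq sl)

/-- size of a level -/
def SC (C : Circuit) : ℕ := SS C.n (KK C.n)

/-- size of a region -/
def LC (C : Circuit) : ℕ := GS (KK C.n)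

/-- the outputs of the circuit for block `a.2` -/
def Fb (a : Circuit × ℕ) (t : ℕ) (y : List Bool) : Bool :=
  (PC a.1).ev (rdv a.1.n (KK a.1.n) a.2 y) (outOf (KK a.1.n) (a.2 + 1) t)

/-- the circuits for the blocks are correct -/
def GOK (G : Circuit × ℕ → Circuit) : Prop :=
  ∀ a : Circuit × ℕ, (G a).Valid ∧ (G a).n = 3 * SC a.1 ∧
    (G a).outs.length = LC a.1 ∧ ∀ x : List Bool, x.length = 3 * SC a.1 →
      ∀ j < LC a.1, (G a).outBit x j = Fb a j x

/-- number of inputs of the new circuit -/
def NN (κ : ℕ) (C : Circuit) : ℕ :=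
  (C.outs.length + 4) * SC C + (2 * (C.n + 2)) ^ (168 * κ)

/-- bound for the numbers of gates of the parts -/
def GG (G : Circuit × ℕ → Circuit) (C : Circuit) : ℕ :=
  ((List.range (C.outs.length + 2)).flatMap fun b => (G (C, b)).gates).length

/-- the new circuit -/
def red (G : Circuit × ℕ → Circuit) (κ : ℕ) (C : Circuit) : Circuit :=
  jux (NN κ C) (3 * SC C) (SC C) (LC C) (GG G C) (C.outs.length + 2) fun b => G (C, b)

theorem SC_pos (C : Circuit) : 0 < SC C := SS_pos _ _

theorem LC_pos (C : Circuit) : 0 < LC C := by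
  unfold LC GS
  omega

section
variable {G : Circuit × ℕ → Circuit} (hG : GOK G) (κ : ℕ) (C : Circuit)

include hG in
theorem fam : Fam (NN κ C) (3 * SC C) (SC C) (LC C) (GG G C)
    (C.outs.length + 2) fun b => G (C, b) where
  pos := by
    have := SC_pos C
    omega
  valid b _ := (hG (C, b)).1
  n b _ := (hG (C, b)).2.1
  outs b _ := (hG (C, b)).2.2.1
  gates b hb := by
    have h1 : (G (C, b)).gates.Sublist
        ((List.range (C.outs.length + 2)).flatMap fun b => (G (C, b)).gates) := by
      generalize hl : List.range (C.outs.length + 2) = l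
      have hbl : b ∈ l := by
        rw [← hl]
        exact List.mem_range.2 hb
      clear hl
      induction l with
      | nil => exact absurd hbl List.not_mem_nil
      | cons a l ih =>
        rw [List.flatMap_cons]
        rcases List.mem_cons.1 hbl with rfl | h
        · exact List.sublist_append_left _ _
        · exact (ih h).trans (List.sublist_append_right _ _)
    exact h1.length_le
  le b hb := by
    unfold NN
    have h1 : (b + 3) * SC C ≤ (C.outs.length + 4) * SC C :=
      Nat.mul_le_mul_right _ (by omega)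
    rw [Nat.add_mul] at h1
    omega

include hG in
theorem red_valid : (red G κ C).Valid := jux_valid (fam hG κ C)

theorem red_n : (red G κ C).n = NN κ C := rfl

theorem red_outs_length : (red G κ C).outs.length = (C.outs.length + 2) * LC C :=
  jux_outs_length

variable {κ C}

/-- the variables -/
def cf (C : Circuit) (x : List Bool) : Cf := rdv C.n (KK C.n) 0 x

theorem ev_dummy (P : Par) (x : Cf) : P.ev x (.U 0) = false := by
  rw [Par.ev_U]
  unfold Par.rb
  rw [decide_eq_false (show ¬ 1 ≤ 0 by omega), Bool.false_and, Bool.false_and]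

include hG in
/-- the outputs of the new circuit -/
theorem red_outBit {x : List Bool} (hx : x.length = NN κ C) {b t : ℕ}
    (hb : b < C.outs.length + 2) (ht : t < LC C) :
    (red G κ C).outBit x (b * LC C + t) = (PC C).ev (cf C x) (outOf (KK C.n) (b + 1) t) := by
  unfold red
  rw [jux_outBit (fam hG κ C) hx hb ht, (hG (C, b)).2.2.2 _ (length_seg _ _ _ _) t ht]
  unfold Fb cf
  dsimp only
  rcases outOf_spec (K := KK C.n) (b := b + 1) (t := t) ht with h | ⟨_, h2, _⟩
  · rw [h, ev_dummy, ev_dummy]
  · refine ev_congr (by rw [h2]; omega) fun v h3 h4 => ?_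
    rw [h2] at h3 h4
    exact rdv_seg (by omega) (by omega)

/-- real outputs have regions from `1` to `m + 2` -/
theorem reg_of_ev {P : Par} {x : Cf} {o : Out} (h : P.ev x o = true) :
    1 ≤ o.reg ∧ o.reg ≤ P.m + 2 := by
  have key : ∀ b : ℕ, ∀ c : Bool, (P.rb b && c) = true → 1 ≤ b ∧ b ≤ P.m + 2 := by
    intro b c hc
    rw [Bool.and_eq_true] at hc
    have := Par.rb_iff.1 hc.1
    omega
  cases o with
  | X b =>
    rw [Par.ev_X, Bool.and_eq_true, Bool.and_eq_true, decide_eq_true_eq, decide_eq_true_eq] at h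
    exact h.1
  | U b => exact key _ _ h
  | D b => exact key _ _ h
  | K b => exact key _ _ h
  | La b r => exact key _ _ h
  | Ls b r => exact key _ _ h
  | Lt b r => exact key _ _ h
  | Q b t j => exact key _ _ h
  | L b t j r => exact key _ _ h

theorem level_lt {b o : ℕ} (hb : b ≤ C.outs.length + 2) (ho : o < SC C) :
    b * SC C + o < NN κ C := by
  have h1 : (b + 1) * SC C ≤ (C.outs.length + 4) * SC C := Nat.mul_le_mul_right _ (by omega)
  rw [Nat.add_one_mul] at h1
  unfold NN
  omega

include hG in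
/-- local minima of the new circuit -/
theorem red_LM {x : List Bool} (h : (red G κ C).IsLocalMin x) : (PC C).LM (cf C x) := by
  obtain ⟨hx, hmin⟩ := h
  rw [red_n] at hx hmin
  intro v hv h1 h2 o ho e1 e2 e3
  have hidx : v.idx C.n (KK C.n) < SC C := idx_lt hv
  have hp : v.lvl * SC C + v.idx C.n (KK C.n) < NN κ C := level_lt h2 hidx
  have hfl : cf C (flip x (v.lvl * SC C + v.idx C.n (KK C.n))) = fl (cf C x) v := by
    have h3 : fl (rdv C.n (KK C.n) 0 x) (dec C.n (KK C.n) v.lvl (v.idx C.n (KK C.n))) =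
        fl (rdv C.n (KK C.n) 0 x) v := congrArg _ (dec_idx hv)
    exact (rdv_flip (x := x) hidx (hx ▸ hp)).trans h3
  have hc := hmin _ hp
  rw [← not_lt] at hc
  apply hc
  rw [cost_lt_iff]
  obtain ⟨g1, g2⟩ := reg_of_ev e1
  have g2' : o.reg ≤ C.outs.length + 2 := g2
  have hy : (flip x (v.lvl * SC C + v.idx C.n (KK C.n))).length = NN κ C := by
    rw [length_flip, hx]
  have ht : o.pos (KK C.n) < LC C := pos_lt ho
  obtain ⟨b, hb⟩ : ∃ b, o.reg = b + 1 := ⟨o.reg - 1, by omega⟩
  have hbB : b < C.outs.length + 2 := by omega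
  have hout : outOf (KK C.n) (b + 1) (o.pos (KK C.n)) = o := by
    rw [← hb]
    exact outOf_pos ho
  refine ⟨b * LC C + o.pos (KK C.n), ?_, ?_, ?_, fun q hq hpq => ?_⟩
  · rw [red_outs_length]
    have := Nat.mul_le_mul_right (LC C) (Nat.succ_le_of_lt hbB)
    rw [Nat.succ_mul] at this
    omega
  · rw [red_outBit hG hy hbB ht, hout, hfl]
    exact e2
  · rw [red_outBit hG hx hbB ht, hout]
    exact e1
  · rw [red_outs_length] at hq
    have hL := LC_pos C
    have hqb : q / LC C < C.outs.length + 2 := (Nat.div_lt_iff_lt_mul hL).2 hq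
    have hqm : q % LC C < LC C := Nat.mod_lt _ hL
    have hdm : q / LC C * LC C + q % LC C = q := by
      rw [Nat.mul_comm]
      exact Nat.div_add_mod q _
    rw [← hdm, red_outBit hG hy hqb hqm, red_outBit hG hx hqb hqm, hfl]
    rcases outOf_spec (K := KK C.n) (b := q / LC C + 1) (t := q % LC C) hqm with h | ⟨k1, k2, k3⟩
    · rw [h, ev_dummy, ev_dummy]
    · refine e3 _ k1 ?_
      unfold hi
      change o.reg < _ ∨ (o.reg = _ ∧ o.pos (KK C.n) < Out.pos (KK C.n) _)
      rw [k2, k3, hb]
      rcases Nat.lt_trichotomy (q / LC C) b with h4 | h4 | h4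
      · exfalso
        have := Nat.mul_le_mul_right (LC C) (Nat.succ_le_of_lt h4)
        rw [Nat.succ_mul] at this
        omega
      · right
        rw [h4] at hdm ⊢
        omega
      · left
        omega

/-- the solution found -/
def rd (C : Circuit) (y : List Bool) : List Bool :=
  if y.getD (2 * SC C + (2 * C.n + 12)) false = true then sl C.n y (2 * SC C + C.n)
  else sl C.n y (2 * SC C)

theorem rd_eq (y : List Bool) : rd C y = (PC C).vec (cf C y) 2 (cf C y (.s 2 3)) := by
  have e1 : cf C y (.s 2 3) = y.getD (2 * SC C + (2 * C.n + 12)) false := by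
    unfold cf rdv
    rw [if_pos (by simp [Var.okb])]
    simp only [Var.lvl, Var.idx, Nat.sub_zero]
    rfl
  have e2 : ∀ s : Bool, ∀ i < C.n, cf C y (.R 2 s i) =
      y.getD (2 * SC C + (if s = true then C.n else 0) + i) false := by
    intro s i hi
    unfold cf rdv
    rw [if_pos (by simp [Var.okb, hi])]
    simp only [Var.lvl, Var.idx, Nat.sub_zero]
    rw [Nat.add_assoc]
    rfl
  unfold rd
  rw [e1]
  cases y.getD (2 * SC C + (2 * C.n + 12)) false
  · rw [if_neg Bool.false_ne_true]
    refine List.map_congr_left fun i hi => ?_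
    rw [e2 false i (List.mem_range.1 hi)]
    simp
  · rw [if_pos rfl]
    refine List.map_congr_left fun i hi => ?_
    rw [e2 true i (List.mem_range.1 hi)]
    simp

theorem length_rd (y : List Bool) : (rd C y).length = C.n := by
  unfold rd
  split_ifs <;> simp [sl]

include hG in
/-- local minima of the new circuit hold local minima of the given one -/
theorem red_min {x : List Bool} (h : (red G κ C).IsLocalMin x) : C.IsLocalMin (rd C x) := by
  rcases step_cases C (rd C x) with ⟨_, h2⟩ | ⟨i, hi, h1, h2⟩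
  · exact ⟨length_rd x, h2⟩
  exfalso
  rw [← h1, ← val_lt_cost] at h2
  have hm0 : 0 < C.outs.length := by
    rcases Nat.eq_zero_or_pos C.outs.length with h0 | h0
    · have e : ∀ v, C.out v = [] := by
        intro v
        unfold Circuit.out
        rw [List.length_eq_zero_iff.1 h0]
        rfl
      rw [e, e] at h2
      omega
    · exact h0
  have hmain := Par.main (good C) (red_LM hG h) hm0
  rw [← rd_eq] at hmain
  exact hmain h2

/-! ### the bounds -/

theorem size_le_succ (n : ℕ) : Nat.size (n + 1) ≤ n + 1 := Nat.size_le.2 Nat.lt_two_pow_self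

theorem two_pow_size (n : ℕ) : 2 ^ Nat.size (n + 1) ≤ 2 * (n + 2) := by
  have h1 : 0 < Nat.size (n + 1) := Nat.size_pos.2 (by omega)
  have h2 : 2 ^ (Nat.size (n + 1) - 1) ≤ n + 1 := Nat.lt_size.1 (by omega)
  have h3 : 2 ^ Nat.size (n + 1) = 2 ^ (Nat.size (n + 1) - 1) * 2 := by
    rw [← pow_succ]
    congr 1
    omega
  omega

theorem two_pow_LC (C : Circuit) : 2 ^ (3 * LC C) ≤ (2 * (C.n + 2)) ^ 168 := by
  have h1 : 3 * LC C = Nat.size (C.n + 1) * 48 + 120 := by
    unfold LC GS KK
    omega
  rw [h1, pow_add, pow_mul, show 168 = 48 + 120 from rfl, pow_add (2 * (C.n + 2))]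
  exact Nat.mul_le_mul (Nat.pow_le_pow_left (two_pow_size _) _)
    (Nat.pow_le_pow_left (by omega) _)

theorem SC_le (C : Circuit) : 3 * SC C ≤ (2 * (C.n + 2)) ^ 168 := by
  have h1 := size_le_succ C.n
  have h2 : 3 * SC C ≤ 2 ^ 7 * (2 * (C.n + 2)) := by
    unfold SC SS KK
    omega
  have h3 : 2 ^ 7 * (2 * (C.n + 2)) ≤ (2 * (C.n + 2)) ^ 8 := by
    rw [pow_succ (2 * (C.n + 2)) 7]
    exact Nat.mul_le_mul_right _ (Nat.pow_le_pow_left (by omega) _)
  exact h2.trans (h3.trans (Nat.pow_le_pow_right (by omega) (by norm_num)))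

theorem le_NN (κ : ℕ) (C : Circuit) {t : ℕ} (h : t ≤ (2 * (C.n + 2)) ^ 168) :
    t ^ κ ≤ NN κ C := by
  unfold NN
  rw [pow_mul]
  exact (Nat.pow_le_pow_left h κ).trans (Nat.le_add_left _ _)

include hG in
theorem red_arity (κ : ℕ) (C : Circuit) : (red G κ C).Arity (3 * SC C) := by
  intro j hj
  refine ⟨Finset.Ico (j / LC C * SC C) (j / LC C * SC C + 3 * SC C),
    by rw [Nat.card_Ico]; omega, fun i hi hinf => ?_⟩
  obtain ⟨x, hx, hne⟩ := hinf
  have hv := red_valid hG κ C
  have hj' : (red G κ C).outs.getD j 0 < (red G κ C).n + (red G κ C).gates.length := by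
    rw [List.getD_eq_getElem _ _ hj]
    exact (hv.2 _ (List.getElem_mem hj)).2
  have hr := reads_of_env hv hx hi _ hj' hne
  rw [Finset.mem_Ico]
  exact jux_reads_out (fam hG κ C) hj hr

include hG in
/-- an input bit influences only the outputs listed -/
theorem red_influences {i j : ℕ} (hi : i < (red G κ C).n) (hj : j < (red G κ C).outs.length)
    (h : (red G κ C).Influences i j) :
    ∃ o ∈ (PC C).infl (dec C.n (KK C.n) (i / SC C) (i % SC C)), 1 ≤ o.reg ∧
      j = (o.reg - 1) * LC C + o.pos (KK C.n) ∧ o.Ok (KK C.n) := by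
  obtain ⟨x, hx, hne⟩ := h
  change x.length = NN κ C at hx
  change i < NN κ C at hi
  rw [red_outs_length] at hj
  have hL := LC_pos C
  have hS := SC_pos C
  have hqb : j / LC C < C.outs.length + 2 := (Nat.div_lt_iff_lt_mul hL).2 hj
  have hqm : j % LC C < LC C := Nat.mod_lt _ hL
  have hdm : j / LC C * LC C + j % LC C = j := by
    rw [Nat.mul_comm]
    exact Nat.div_add_mod j _
  have him : i / SC C * SC C + i % SC C = i := by
    rw [Nat.mul_comm]
    exact Nat.div_add_mod i _
  have hfl : cf C (flip x i) = fl (cf C x) (dec C.n (KK C.n) (i / SC C) (i % SC C)) := by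
    have h3 : rdv C.n (KK C.n) 0 (flip x (i / SC C * SC C + i % SC C)) =
        fl (rdv C.n (KK C.n) 0 x) (dec C.n (KK C.n) (i / SC C) (i % SC C)) :=
      rdv_flip (x := x) (Nat.mod_lt _ hS) (by
        change i / SC C * SC C + i % SC C < _
        omega)
    rw [him] at h3
    exact h3
  rw [← hdm, red_outBit hG (by rw [length_flip, hx]) hqb hqm, red_outBit hG hx hqb hqm,
    hfl] at hne
  rcases outOf_spec (K := KK C.n) (b := j / LC C + 1) (t := j % LC C) hqm with h | ⟨k1, k2, k3⟩
  · rw [h, ev_dummy, ev_dummy] at hne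
    exact absurd rfl hne
  · refine ⟨_, ?_, ?_, ?_, k1⟩
    · by_contra hcon
      exact hne (Par.ev_fl k1 hcon)
    · rw [k2]
      exact Nat.succ_pos _
    · rw [k2, k3, Nat.add_sub_cancel]
      exact hdm.symm

include hG in
theorem red_influence (κ : ℕ) (C : Circuit) : (red G κ C).Influence 3 := by
  classical
  intro i hi
  refine ⟨(((PC C).infl (dec C.n (KK C.n) (i / SC C) (i % SC C))).map fun o =>
    (o.reg - 1) * LC C + o.pos (KK C.n)).toFinset, ?_, fun j hj hij => ?_⟩
  · refine (List.toFinset_card_le _).trans ?_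
    rw [List.length_map]
    exact Par.infl_length _ _
  · obtain ⟨o, ho, _, h2, _⟩ := red_influences hG hi hj hij
    rw [List.mem_toFinset, List.mem_map]
    exact ⟨o, ho, h2.symm⟩

theorem infl_reg {P : Par} {v : Var} : ∀ o ∈ P.infl v, o.reg ≤ v.lvl + 1 ∧ v.lvl ≤ o.reg + 1 := by
  intro o ho
  unfold Par.infl at ho
  split at ho <;> (try split_ifs at ho) <;>
    simp only [List.mem_cons, List.not_mem_nil, or_false, List.mem_append,
      List.nil_append] at ho <;>
    (try rcases ho with rfl | rfl | rfl) <;> (try rcases ho with rfl | rfl) <;>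
    (try simp only [Out.reg, Var.lvl]) <;> omega

include hG in
theorem red_window (κ : ℕ) (C : Circuit) : (red G κ C).Window (3 * LC C) := by
  intro i hi
  have hL := LC_pos C
  have hS := SC_pos C
  refine ⟨(i / SC C - 2) * LC C, fun j hj hij => ?_⟩
  obtain ⟨o, ho, h1, h2, h3⟩ := red_influences hG hi hj hij
  have hl : (dec C.n (KK C.n) (i / SC C) (i % SC C)).lvl = i / SC C :=
    (dec_spec (Nat.mod_lt _ hS)).2.1
  have hr := infl_reg o ho
  rw [hl] at hr
  have hp : o.pos (KK C.n) < LC C := pos_lt h3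
  generalize i / SC C = I at hr
  generalize o.reg = r at h1 h2 hr
  have h5 : (I - 2) * LC C ≤ (r - 1) * LC C := Nat.mul_le_mul_right _ (by omega)
  have h8 : (r - 1 + 1) * LC C ≤ (I - 2 + 3) * LC C := Nat.mul_le_mul_right _ (by omega)
  rw [Nat.add_mul (I - 2), Nat.add_one_mul (r - 1)] at h8
  omega

end

end Pool.Agent.MPa0a715.BQ
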