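import Pool.Agent.Lib.MP_a0a715_lc_BQ.Var

/-!
# The order of the outputs; in local minima all copies are correct
-/

namespace Pool.Agent.MPa0a715.BQ

/-- the level of a variable -/
def Var.lvl : Var → ℕ
  | .R b _ _ | .z b _ | .a b _ | .g b | .k b | .s b _ | .c b _ _ _ => b

/-- the region of an output -/
def Out.reg : Out → ℕ
  | .X b | .U b | .D b | .K b | .La b _ | .Ls b _ | .Lt b _ | .Q b _ _ | .L b _ _ _ => b

/-- begin of the part of a clock -/
def bs (K : ℕ) (t : Bool) : ℕ := if t = true then 5 * K + 21 else 2 * K + 6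

/-- position in the region -/
def Out.pos (K : ℕ) : Out → ℕ
  | .X _ => 0
  | .La _ r => if r = 5 then 1 else if r = 4 then 5 * K + 13 else if r = 3 then 5 * K + 18
      else if r = 2 then 5 * K + 20 else 8 * K + 29
  | .Ls _ r => if r = 3 then 2 else if r = 2 then 5 * K + 14 else 5 * K + 17
  | .Lt _ r => if r = 7 then 3 else if r = 6 then 5 * K + 16 else if r = 5 then 8 * K + 28
      else 8 * K + 31
  | .L _ t j r => if r = 3 then (if t = true then 4 else K + 5) + j
      else if r = 2 then bs K t + 3 * j + 1 else bs K t + 3 * j + 5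
  | .Q _ t j => if j = K then (if t = true then 8 * K + 27 else 5 * K + 12)
      else bs K t + 3 * j + 6
  | .K _ => 5 * K + 15
  | .D _ => 5 * K + 19
  | .U _ => 8 * K + 30

/-- output `o` is more important than output `o'` -/
def hi (K : ℕ) (o o' : Out) : Prop := o'.reg < o.reg ∨ (o'.reg = o.reg ∧ o'.pos K < o.pos K)

namespace Par
variable (P : Par)

/-- local minima -/
def LM (x : Cf) : Prop := ∀ v : Var, v.Ok P.n P.K → 1 ≤ v.lvl → v.lvl ≤ P.m + 2 →
  ∀ o : Out, o.Ok P.K → P.ev x o = true → P.ev (fl x v) o = false →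
  (∀ o' : Out, o'.Ok P.K → hi P.K o' o → P.ev (fl x v) o' = P.ev x o') → False

variable {P} {x : Cf}

theorem noimp (hx : P.LM x) {v : Var} (hv : v.Ok P.n P.K) (h1 : 1 ≤ v.lvl)
    (h2 : v.lvl ≤ P.m + 2) {o : Out} (ho : o.Ok P.K) (e1 : P.ev x o = true)
    (e2 : P.ev (fl x v) o = false)
    (e3 : ∀ o' ∈ P.infl v, o'.Ok P.K → hi P.K o' o → P.ev (fl x v) o' = P.ev x o') : False :=
  hx v hv h1 h2 o ho e1 e2 fun o' ho' hh => by
    by_cases hm : o' ∈ P.infl v
    · exact e3 o' hm ho' hh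
    · exact ev_fl ho' hm

theorem follow (hx : P.LM x) {v : Var} (hv : v.Ok P.n P.K) (h1 : 1 ≤ v.lvl)
    (h2 : v.lvl ≤ P.m + 2) {o : Out} (ho : o.Ok P.K)
    (htog : P.ev x o = true → P.ev (fl x v) o = false)
    (hhi : ∀ o' ∈ P.infl v, ¬ hi P.K o' o) : P.ev x o = false := by
  rw [← Bool.not_eq_true]
  intro e1
  exact noimp hx hv h1 h2 ho e1 (htog e1) fun o' hm _ hh => absurd hh (hhi o' hm)

theorem rb_iff {b : ℕ} : P.rb b = true ↔ 1 ≤ b ∧ b ≤ P.m + 1 := by
  unfold rb
  rw [Bool.and_eq_true, decide_eq_true_eq, decide_eq_true_eq]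

theorem xor_eq_false {a b : Bool} : Bool.xor a b = false ↔ a = b := by
  cases a <;> cases b <;> simp

theorem tog {a b : Bool} (h : Bool.xor a b = true) : Bool.xor (!a) b = false := by
  revert h
  cases a <;> cases b <;> simp

section
variable (hx : P.LM x) {b : ℕ} (hb : 1 ≤ b) (hb' : b ≤ P.m + 1)
include hx hb hb'

theorem sync_a {r : ℕ} (h1 : 1 ≤ r) (h5 : r ≤ 5) : x (.a b r) = x (.a b (r - 1)) := by
  have hrb : P.rb b = true := rb_iff.2 ⟨hb, hb'⟩
  have h := follow hx (v := .a b r) (o := .La b r) h5 hb (Nat.le_succ_of_le hb') ⟨h1, h5⟩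
    (fun e => by
      rw [ev_La, hrb, Bool.true_and] at e ⊢
      rw [fl_self, fl_ne (by simp; omega)]
      exact tog e)
    (by
      interval_cases r <;> simp [infl, hi, Out.reg, Out.pos] <;> omega)
  rw [ev_La, hrb, Bool.true_and, xor_eq_false] at h
  exact h

theorem sync_a' {r : ℕ} (h5 : r ≤ 5) : x (.a b r) = x (.a b 0) := by
  induction r with
  | zero => rfl
  | succ r ih => rw [sync_a hx hb hb' (by omega) h5, Nat.add_sub_cancel, ih (by omega)]

theorem sync_s1 : x (.s b 1) = Bool.xor (x (.a b 0)) (x (.g b)) := by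
  have hrb : P.rb b = true := rb_iff.2 ⟨hb, hb'⟩
  have h := follow hx (v := .s b 1) (o := .Ls b 1) ⟨le_rfl, by omega⟩ hb
    (Nat.le_succ_of_le hb') ⟨le_rfl, by omega⟩
    (fun e => by
      rw [ev_Ls, hrb, Bool.true_and, if_pos rfl] at e ⊢
      rw [fl_self, fl_ne (by simp), fl_ne (by simp)]
      exact tog e)
    (by simp [infl, hi, Out.reg, Out.pos])
  rw [ev_Ls, hrb, Bool.true_and, if_pos rfl, xor_eq_false, sync_a' hx hb hb' (by omega)] at h
  exact h

theorem sync_s {r : ℕ} (h2 : 2 ≤ r) (h3 : r ≤ 3) : x (.s b r) = x (.s b (r - 1)) := by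
  have hrb : P.rb b = true := rb_iff.2 ⟨hb, hb'⟩
  have h := follow hx (v := .s b r) (o := .Ls b r) ⟨by omega, by omega⟩ hb
    (Nat.le_succ_of_le hb') ⟨by omega, h3⟩
    (fun e => by
      rw [ev_Ls, hrb, Bool.true_and, if_neg (by omega)] at e ⊢
      rw [fl_self, fl_ne (by simp; omega)]
      exact tog e)
    (by
      interval_cases r <;> simp [infl, hi, Out.reg, Out.pos] <;> omega)
  rw [ev_Ls, hrb, Bool.true_and, if_neg (by omega), xor_eq_false] at h
  exact h

theorem sync_s2 : x (.s b 2) = Bool.xor (x (.a b 0)) (x (.g b)) := by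
  rw [sync_s hx hb hb' le_rfl (by omega)]
  exact sync_s1 hx hb hb'

theorem sync_s3 : x (.s b 3) = Bool.xor (x (.a b 0)) (x (.g b)) := by
  rw [sync_s hx hb hb' (by omega) le_rfl]
  exact sync_s2 hx hb hb'

theorem sync_t {r : ℕ} (h4 : 4 ≤ r) (h7 : r ≤ 7) :
    x (.s (b + 1) r) = x (.s (b + 1) (r - 1)) := by
  have hrb : P.rb b = true := rb_iff.2 ⟨hb, hb'⟩
  have h := follow hx (v := .s (b + 1) r) (o := .Lt b r) ⟨by omega, h7⟩ (Nat.succ_pos b)
    (Nat.succ_le_succ hb') ⟨h4, h7⟩
    (fun e => by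
      rw [ev_Lt, hrb, Bool.true_and] at e ⊢
      rw [fl_self, fl_ne (by simp; omega)]
      exact tog e)
    (by
      interval_cases r <;> simp [infl, hi, Out.reg, Out.pos] <;> omega)
  rw [ev_Lt, hrb, Bool.true_and, xor_eq_false] at h
  exact h

theorem sync_t' {r : ℕ} (h3 : 3 ≤ r) (h7 : r ≤ 7) : x (.s (b + 1) r) = x (.s (b + 1) 3) := by
  induction r with
  | zero => omega
  | succ r ih =>
    rcases Nat.lt_or_ge r 3 with h | h
    · rw [show r + 1 = 3 by omega]
    · rw [sync_t hx hb hb' (by omega) h7, Nat.add_sub_cancel, ih h (by omega)]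

theorem sync_c {t : Bool} {j r : ℕ} (hj : j ≤ P.K) (h1 : 1 ≤ r) (h3 : r ≤ 3) :
    x (.c b t j r) = x (.c b t j (r - 1)) := by
  have hrb : P.rb b = true := rb_iff.2 ⟨hb, hb'⟩
  have h := follow hx (v := .c b t j r) (o := .L b t j r) ⟨hj, h3⟩ hb
    (Nat.le_succ_of_le hb') ⟨hj, h1, h3⟩
    (fun e => by
      rw [ev_L, hrb, Bool.true_and] at e ⊢
      rw [fl_self, fl_ne (by simp; omega)]
      exact tog e)
    (by
      interval_cases r
      · simp only [infl]
        split_ifs with h0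
        · simp [hi, Out.reg, Out.pos]
        · simp [hi, Out.reg, Out.pos]
          split_ifs <;> omega
      · simp only [infl]
        split_ifs with h0
        · simp [hi, Out.reg, Out.pos]
          cases t <;> simp [bs] <;> omega
        · simp [hi, Out.reg, Out.pos]
          cases t <;> simp [bs] <;> (try split_ifs) <;> omega
      · simp [infl, hi, Out.reg, Out.pos])
  rw [ev_L, hrb, Bool.true_and, xor_eq_false] at h
  exact h

theorem sync_c' {t : Bool} {j r : ℕ} (hj : j ≤ P.K) (h3 : r ≤ 3) :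
    x (.c b t j r) = x (.c b t j 0) := by
  induction r with
  | zero => rfl
  | succ r ih => rw [sync_c hx hb hb' hj (by omega) h3, Nat.add_sub_cancel, ih (by omega)]

theorem sync_q : x (.c b false P.K 0) = Bool.xor (x (.k b)) (x (.g b)) := by
  have hrb : P.rb b = true := rb_iff.2 ⟨hb, hb'⟩
  have h := follow hx (v := .c b false P.K 0) (o := .Q b false P.K) ⟨le_rfl, by omega⟩ hb
    (Nat.le_succ_of_le hb') le_rfl
    (fun e => by
      rw [ev_Q, hrb, Bool.true_and, if_pos rfl, if_neg Bool.false_ne_true] at e ⊢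
      rw [fl_self, fl_ne (by simp), fl_ne (by simp), fl_ne (by simp)]
      exact tog e)
    (by simp [infl, hi, Out.reg, Out.pos, bs]; omega)
  rw [ev_Q, hrb, Bool.true_and, if_pos rfl, if_neg Bool.false_ne_true, xor_eq_false,
    sync_a' hx hb hb' (by omega), sync_s2 hx hb hb'] at h
  rw [h]
  cases x (.k b) <;> cases x (.a b 0) <;> cases x (.g b) <;> rfl

/-- both views are the same -/
theorem view_eq : P.vP x b = P.vV x b := by
  unfold vP vV
  rw [sync_t' hx hb hb' (by omega) le_rfl, sync_s3 hx hb hb', sync_a' hx hb hb' le_rfl,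
    sync_c' hx hb hb' le_rfl le_rfl, sync_c' hx hb hb' le_rfl le_rfl, sync_q hx hb hb']
  congr 1
  · exact Phi_congr fun j hj => sync_c' hx hb hb' hj le_rfl
  · refine Phi_congr fun j hj => ?_
    by_cases h : j = P.K
    · rw [if_pos h, h, sync_c' hx hb hb' le_rfl le_rfl, sync_q hx hb hb']
    · rw [if_neg h, sync_c' hx hb hb' hj le_rfl]

end

end Par

end Pool.Agent.MPa0a715.BQ
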