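import Pool.Agent.Lib.MP_a0a715_lc_BQ.Clock

/-!
# Variables and outputs

There are levels `b` from `1` to `m + 2`. Level `b` stores two solutions `R b s`, two digits
`z b s`, and the control bits `a b 0`, `g b`, `k b` and two clocks `c b t j 0`. The other variables
are copies of control bits. The parity of `a b 0` and `g b` says which of the two solutions is the
current one. Copies of this parity are called `s b r`.
-/

namespace Pool.Agent.MPa0a715.BQ

/-- variables -/
inductive Var
  | R (b : ℕ) (s : Bool) (i : ℕ)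
  | z (b : ℕ) (s : Bool)
  | a (b r : ℕ)
  | g (b : ℕ)
  | k (b : ℕ)
  | s (b r : ℕ)
  | c (b : ℕ) (t : Bool) (j r : ℕ)
  deriving DecidableEq

/-- outputs -/
inductive Out
  | X (b : ℕ)
  | U (b : ℕ)
  | D (b : ℕ)
  | K (b : ℕ)
  | La (b r : ℕ)
  | Ls (b r : ℕ)
  | Lt (b r : ℕ)
  | Q (b : ℕ) (t : Bool) (j : ℕ)
  | L (b : ℕ) (t : Bool) (j r : ℕ)
  deriving DecidableEq

/-- configurations -/
abbrev Cf := Var → Bool

/-- flip a variable -/
def fl (x : Cf) (v : Var) : Cf := fun w => if w = v then !x w else x w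

theorem fl_self (x : Cf) (v : Var) : fl x v v = !x v := if_pos rfl

theorem fl_ne {x : Cf} {v w : Var} (h : w ≠ v) : fl x v w = x w := if_neg h

/-- the data: numbers of inputs, digits, clock bits; leading digits, digit, next solution -/
structure Par where
  n : ℕ
  m : ℕ
  K : ℕ
  tp : ℕ → List Bool → ℕ
  dg : ℕ → List Bool → Bool
  st : List Bool → List Bool

/-- what is known about the control bits of a block -/
structure View where
  σ' : Bool
  σ : Bool
  uns : Bool
  h : Bool
  κ : Bool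
  fA : ℕ
  fC : ℕ

namespace Par
variable (P : Par)

/-- stored solutions -/
def vec (x : Cf) (b : ℕ) (s : Bool) : List Bool := (List.range P.n).map fun i => x (.R b s i)

/-- the source for copying upwards -/
def src (x : Cf) (b : ℕ) (σ' σ : Bool) : List Bool :=
  if b = 1 then P.st (P.vec x (b + 1) σ') else P.vec x b (!σ)

/-- entry `i` of the other solution of level `b` is equal to the current one of level `b + 1` -/
def entA (x : Cf) (b : ℕ) (σ' σ : Bool) (i : ℕ) : Bool :=
  if i = P.n then x (.z b (!σ)) == P.dg b (P.vec x (b + 1) σ')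
  else x (.R b (!σ) i) == x (.R (b + 1) σ' i)

/-- entry `i` of the other solution of level `b + 1` is equal to the source -/
def entC (x : Cf) (b : ℕ) (σ' σ : Bool) (i : ℕ) : Bool :=
  if i = P.n then x (.z b (!σ)) == P.dg b (P.vec x b (!σ))
  else x (.R (b + 1) (!σ') i) == (P.src x b σ' σ).getD i false

/-- the levels `b` and `b + 1` agree -/
def stat (x : Cf) (b : ℕ) (σ' σ : Bool) : Bool :=
  decide (P.tp b (P.vec x b σ) = P.tp b (P.vec x (b + 1) σ')) &&
    (x (.z b σ) == P.dg b (P.vec x b σ))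

/-- the other solution is better -/
def pre (x : Cf) (b : ℕ) (σ : Bool) : Bool :=
  decide (b = 1) || decide (P.tp (b - 1) (P.vec x b (!σ)) < P.tp (b - 1) (P.vec x b σ))

/-- something claimed is wrong -/
def bodyV (x : Cf) (b : ℕ) (v : View) : Bool :=
  if v.uns = true then v.h && (List.range (P.n + 1)).any fun i =>
    decide (v.fA ≤ i) && !P.entA x b v.σ' v.σ i
  else !(P.stat x b v.σ' v.σ) || (v.κ && (!(P.pre x b v.σ) ||
    (List.range (P.n + 1)).any fun i => decide (v.fC ≤ i) && !P.entC x b v.σ' v.σ i))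

/-- the next entry to be written is wrong -/
def bodyP (x : Cf) (b : ℕ) (v : View) : Bool :=
  if v.uns = true then v.h && (decide (1 ≤ v.fA) && (decide (v.fA ≤ P.n + 1) &&
    !P.entA x b v.σ' v.σ (v.fA - 1)))
  else v.κ && (decide (1 ≤ v.fC) && (decide (v.fC ≤ P.n + 1) &&
    !P.entC x b v.σ' v.σ (v.fC - 1)))

/-- the control bits as seen by the claims -/
def vV (x : Cf) (b : ℕ) : View where
  σ' := x (.s (b + 1) 3)
  σ := Bool.xor (x (.a b 0)) (x (.g b))
  uns := Bool.xor (x (.a b 0)) (x (.s (b + 1) 3))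
  h := x (.c b true P.K 0)
  κ := Bool.xor (x (.k b)) (x (.g b))
  fA := Phi P.K fun j => x (.c b true j 0)
  fC := Phi P.K fun j => if j = P.K then Bool.xor (x (.k b)) (x (.g b)) else x (.c b false j 0)

/-- the control bits as seen by the tests for the next entry -/
def vP (x : Cf) (b : ℕ) : View where
  σ' := x (.s (b + 1) 7)
  σ := x (.s b 3)
  uns := Bool.xor (x (.a b 5)) (x (.s (b + 1) 7))
  h := x (.c b true P.K 3)
  κ := x (.c b false P.K 3)
  fA := Phi P.K fun j => x (.c b true j 3)
  fC := Phi P.K fun j => x (.c b false j 3)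

/-- block `b` is busy -/
def busy (x : Cf) (b : ℕ) : Bool := decide (b ≤ P.m + 1) && ((P.vP x b).uns || (P.vP x b).κ)

/-- the block exists -/
def rb (b : ℕ) : Bool := decide (1 ≤ b) && decide (b ≤ P.m + 1)

/-- the outputs -/
def ev (x : Cf) : Out → Bool
  | .X b => (decide (1 ≤ b) && decide (b ≤ P.m + 2)) &&
      (if P.busy x b = true then P.bodyP x b (P.vP x b)
        else decide (2 ≤ b) && P.bodyV x (b - 1) (P.vV x (b - 1)))
  | .U b => P.rb b && Bool.xor (x (.a b 0)) (x (.s (b + 1) 4))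
  | .D b => P.rb b && x (.z b (Bool.xor (x (.a b 2)) (x (.g b))))
  | .K b => P.rb b && !(Bool.xor (x (.k b)) (Bool.xor (x (.s b 1)) (x (.s (b + 1) 6))))
  | .La b r => P.rb b && Bool.xor (x (.a b r)) (x (.a b (r - 1)))
  | .Ls b r => P.rb b && (if r = 1 then Bool.xor (x (.s b 1)) (Bool.xor (x (.a b 3)) (x (.g b)))
      else Bool.xor (x (.s b r)) (x (.s b (r - 1))))
  | .Lt b r => P.rb b && Bool.xor (x (.s (b + 1) r)) (x (.s (b + 1) (r - 1)))
  | .Q b t j => P.rb b && (if j = P.K then
      (if t = true then Bool.xor (x (.c b t P.K 0)) (Bool.xor (x (.a b 1)) (x (.s (b + 1) 5)))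
        else Bool.xor (x (.c b t P.K 0)) (Bool.xor (x (.k b))
          (Bool.xor (x (.a b 4)) (x (.s b 2)))))
      else Bool.xor (x (.c b t j 0)) (Bool.xor (x (.c b t (j + 1) 1))
        (decide (j + 2 ≤ P.K) && x (.c b t (j + 2) 2))))
  | .L b t j r => P.rb b && Bool.xor (x (.c b t j r)) (x (.c b t j (r - 1)))

variable {P} in
theorem ev_X (x : Cf) (b : ℕ) : P.ev x (.X b) = ((decide (1 ≤ b) && decide (b ≤ P.m + 2)) &&
      (if P.busy x b = true then P.bodyP x b (P.vP x b)
        else decide (2 ≤ b) && P.bodyV x (b - 1) (P.vV x (b - 1)))) := rfl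

variable {P} in
theorem ev_U (x : Cf) (b : ℕ) : P.ev x (.U b) =
    (P.rb b && Bool.xor (x (.a b 0)) (x (.s (b + 1) 4))) := rfl

variable {P} in
theorem ev_D (x : Cf) (b : ℕ) : P.ev x (.D b) =
    (P.rb b && x (.z b (Bool.xor (x (.a b 2)) (x (.g b))))) := rfl

variable {P} in
theorem ev_K (x : Cf) (b : ℕ) : P.ev x (.K b) =
    (P.rb b && !(Bool.xor (x (.k b)) (Bool.xor (x (.s b 1)) (x (.s (b + 1) 6))))) := rfl

variable {P} in
theorem ev_La (x : Cf) (b r : ℕ) : P.ev x (.La b r) =
    (P.rb b && Bool.xor (x (.a b r)) (x (.a b (r - 1)))) := rfl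

variable {P} in
theorem ev_Ls (x : Cf) (b r : ℕ) : P.ev x (.Ls b r) =
    (P.rb b && (if r = 1 then Bool.xor (x (.s b 1)) (Bool.xor (x (.a b 3)) (x (.g b)))
      else Bool.xor (x (.s b r)) (x (.s b (r - 1))))) := rfl

variable {P} in
theorem ev_Lt (x : Cf) (b r : ℕ) : P.ev x (.Lt b r) =
    (P.rb b && Bool.xor (x (.s (b + 1) r)) (x (.s (b + 1) (r - 1)))) := rfl

variable {P} in
theorem ev_Q (x : Cf) (b : ℕ) (t : Bool) (j : ℕ) : P.ev x (.Q b t j) =
    (P.rb b && (if j = P.K then
      (if t = true then Bool.xor (x (.c b t P.K 0)) (Bool.xor (x (.a b 1)) (x (.s (b + 1) 5)))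
        else Bool.xor (x (.c b t P.K 0)) (Bool.xor (x (.k b))
          (Bool.xor (x (.a b 4)) (x (.s b 2)))))
      else Bool.xor (x (.c b t j 0)) (Bool.xor (x (.c b t (j + 1) 1))
        (decide (j + 2 ≤ P.K) && x (.c b t (j + 2) 2))))) := rfl

variable {P} in
theorem ev_L (x : Cf) (b : ℕ) (t : Bool) (j r : ℕ) : P.ev x (.L b t j r) =
    (P.rb b && Bool.xor (x (.c b t j r)) (x (.c b t j (r - 1)))) := rfl

/-- the outputs influenced by a variable -/
def infl : Var → List Out
  | .R b _ _ => [.X (b + 1), .X b, .X (b - 1)]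
  | .z b _ => [.X (b + 1), .D b, .X b]
  | .a b 0 => [.X (b + 1), .U b, .La b 1]
  | .a b 1 => [.La b 1, .Q b true P.K, .La b 2]
  | .a b 2 => [.La b 2, .D b, .La b 3]
  | .a b 3 => [.La b 3, .Ls b 1, .La b 4]
  | .a b 4 => [.La b 4, .Q b false P.K, .La b 5]
  | .a b 5 => [.La b 5, .X b]
  | .a b r => [.La b r, .La b (r + 1)]
  | .g b => [.X (b + 1), .D b, .Ls b 1]
  | .k b => [.X (b + 1), .K b, .Q b false P.K]
  | .s b 1 => [.Ls b 1, .K b, .Ls b 2]
  | .s b 2 => [.Ls b 2, .Q b false P.K, .Ls b 3]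
  | .s b 3 => [.Ls b 3, .X b, .Lt (b - 1) 4]
  | .s b 4 => [.Lt (b - 1) 4, .U (b - 1), .Lt (b - 1) 5]
  | .s b 5 => [.Lt (b - 1) 5, .Q (b - 1) true P.K, .Lt (b - 1) 6]
  | .s b 6 => [.Lt (b - 1) 6, .K (b - 1), .Lt (b - 1) 7]
  | .s b 7 => [.Lt (b - 1) 7, .X (b - 1)]
  | .s _ _ => []
  | .c b t j 0 => if t = false ∧ j = P.K then [.Q b t j, .L b t j 1]
      else [.X (b + 1), .Q b t j, .L b t j 1]
  | .c b t j 1 => .L b t j 1 :: ((if j = 0 then [] else [.Q b t (j - 1)]) ++ [.L b t j 2])
  | .c b t j 2 => .L b t j 2 :: ((if j ≤ 1 then [] else [.Q b t (j - 2)]) ++ [.L b t j 3])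
  | .c b t j 3 => [.L b t j 3, .X b]
  | .c b t j r => [.L b t j r, .L b t j (r + 1)]

theorem infl_length (v : Var) : (P.infl v).length ≤ 3 := by
  unfold infl
  split <;> (try split_ifs) <;> simp

variable {P}

/-- the outputs with valid numbers -/
def _root_.Pool.Agent.MPa0a715.BQ.Out.Ok (K : ℕ) : Out → Prop
  | .X _ | .U _ | .D _ | .K _ => True
  | .La _ r => 1 ≤ r ∧ r ≤ 5
  | .Ls _ r => 1 ≤ r ∧ r ≤ 3
  | .Lt _ r => 4 ≤ r ∧ r ≤ 7
  | .Q _ _ j => j ≤ K
  | .L _ _ j r => j ≤ K ∧ 1 ≤ r ∧ r ≤ 3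

/-- variables with valid numbers -/
def _root_.Pool.Agent.MPa0a715.BQ.Var.Ok (n K : ℕ) : Var → Prop
  | .R _ _ i => i < n
  | .z _ _ | .g _ | .k _ => True
  | .a _ r => r ≤ 5
  | .s _ r => 1 ≤ r ∧ r ≤ 7
  | .c _ _ j r => j ≤ K ∧ r ≤ 3

theorem fl_of {x : Cf} {v w : Var} {o : Out} (h : o ∉ P.infl v) (hw : o ∈ P.infl w) :
    fl x v w = x w := fl_ne fun e => h (e ▸ hw)

theorem vec_congr {x y : Cf} {b : ℕ} {s : Bool} (h : ∀ i, x (.R b s i) = y (.R b s i)) :
    P.vec x b s = P.vec y b s := by
  unfold vec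
  exact List.map_congr_left fun i _ => h i

theorem body_congr {x y : Cf} {b : ℕ} (h : ∀ s i, x (.R b s i) = y (.R b s i))
    (h' : ∀ s i, x (.R (b + 1) s i) = y (.R (b + 1) s i)) (hz : ∀ s, x (.z b s) = y (.z b s))
    (v : View) : P.bodyV x b v = P.bodyV y b v ∧ P.bodyP x b v = P.bodyP y b v := by
  have e1 : ∀ s, P.vec x b s = P.vec y b s := fun s => vec_congr (h s)
  have e2 : ∀ s, P.vec x (b + 1) s = P.vec y (b + 1) s := fun s => vec_congr (h' s)
  have e3 : ∀ σ' σ i, P.entA x b σ' σ i = P.entA y b σ' σ i := fun σ' σ i => by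
    unfold entA
    rw [hz, e2, h, h']
  have e4 : ∀ σ' σ i, P.entC x b σ' σ i = P.entC y b σ' σ i := fun σ' σ i => by
    unfold entC src
    rw [hz, e1, e2, h']
  have e5 : ∀ σ' σ, P.stat x b σ' σ = P.stat y b σ' σ := fun σ' σ => by
    unfold stat
    rw [hz, e1, e2]
  have e6 : ∀ σ, P.pre x b σ = P.pre y b σ := fun σ => by
    unfold pre
    rw [e1, e1]
  constructor
  · unfold bodyV
    simp only [e3, e4, e5, e6]
  · unfold bodyP
    simp only [e3, e4]

/-- a variable influences only the outputs in its list -/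
theorem ev_fl {x : Cf} {v : Var} {o : Out} (hok : o.Ok P.K) (h : o ∉ P.infl v) :
    P.ev (fl x v) o = P.ev x o := by
  cases o with
  | X b =>
    have hPv : P.vP (fl x v) b = P.vP x b := by
      unfold vP
      rw [fl_of h (w := .s (b + 1) 7) (by simp [infl]), fl_of h (w := .s b 3) (by simp [infl]),
        fl_of h (w := .a b 5) (by simp [infl]),
        fl_of h (w := .c b true P.K 3) (by simp [infl]),
        fl_of h (w := .c b false P.K 3) (by simp [infl])]
      congr 1
      · exact Phi_congr fun j _ => fl_of h (w := .c b true j 3) (by simp [infl])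
      · exact Phi_congr fun j _ => fl_of h (w := .c b false j 3) (by simp [infl])
    have hP : P.bodyP (fl x v) b (P.vP x b) = P.bodyP x b (P.vP x b) :=
      (body_congr (fun s i => fl_of h (w := .R b s i) (by simp [infl]))
        (fun s i => fl_of h (w := .R (b + 1) s i) (by simp [infl]))
        (fun s => fl_of h (w := .z b s) (by simp [infl])) _).2
    rw [ev_X, ev_X]
    unfold busy
    rw [hPv, hP]
    by_cases hb : 2 ≤ b
    · obtain ⟨b, rfl⟩ : ∃ b', b = b' + 1 := ⟨b - 1, by omega⟩
      rw [Nat.add_sub_cancel]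
      have hVv : P.vV (fl x v) b = P.vV x b := by
        unfold vV
        rw [fl_of h (w := .s (b + 1) 3) (by simp [infl]),
          fl_of h (w := .a b 0) (by simp [infl]), fl_of h (w := .g b) (by simp [infl]),
          fl_of h (w := .k b) (by simp [infl]),
          fl_of h (w := .c b true P.K 0) (by simp [infl])]
        congr 1
        · exact Phi_congr fun j _ => fl_of h (w := .c b true j 0) (by simp [infl])
        · refine Phi_congr fun j _ => ?_
          by_cases hj : j = P.K
          · rw [if_pos hj, if_pos hj]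
          · rw [if_neg hj, if_neg hj]
            exact fl_of h (w := .c b false j 0) (by simp [infl, hj])
      have hV : P.bodyV (fl x v) b (P.vV x b) = P.bodyV x b (P.vV x b) :=
        (body_congr (fun s i => fl_of h (w := .R b s i) (by simp [infl]))
          (fun s i => fl_of h (w := .R (b + 1) s i) (by simp [infl]))
          (fun s => fl_of h (w := .z b s) (by simp [infl])) _).1
      rw [hVv, hV]
    · rw [decide_eq_false hb, Bool.false_and, Bool.false_and]
  | U b =>
    rw [ev_U, ev_U]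
    rw [fl_of h (w := .a b 0) (by simp [infl]), fl_of h (w := .s (b + 1) 4) (by simp [infl])]
  | D b =>
    rw [ev_D, ev_D, fl_of h (w := .a b 2) (by simp [infl]),
      fl_of h (w := .g b) (by simp [infl]), fl_of h (w := .z b _) (by simp [infl])]
  | K b =>
    rw [ev_K, ev_K]
    rw [fl_of h (w := .k b) (by simp [infl]), fl_of h (w := .s b 1) (by simp [infl]),
      fl_of h (w := .s (b + 1) 6) (by simp [infl])]
  | La b r =>
    obtain ⟨h1, h2⟩ := hok
    rw [ev_La, ev_La]
    interval_cases r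
    · rw [fl_of h (w := .a b 1) (by simp [infl]), fl_of h (w := .a b 0) (by simp [infl])]
    · rw [fl_of h (w := .a b 2) (by simp [infl]), fl_of h (w := .a b 1) (by simp [infl])]
    · rw [fl_of h (w := .a b 3) (by simp [infl]), fl_of h (w := .a b 2) (by simp [infl])]
    · rw [fl_of h (w := .a b 4) (by simp [infl]), fl_of h (w := .a b 3) (by simp [infl])]
    · rw [fl_of h (w := .a b 5) (by simp [infl]), fl_of h (w := .a b 4) (by simp [infl])]
  | Ls b r =>
    obtain ⟨h1, h2⟩ := hok
    rw [ev_Ls, ev_Ls]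
    interval_cases r
    · rw [if_pos rfl, if_pos rfl, fl_of h (w := .s b 1) (by simp [infl]),
        fl_of h (w := .a b 3) (by simp [infl]), fl_of h (w := .g b) (by simp [infl])]
    · rw [if_neg (by norm_num), if_neg (by norm_num), fl_of h (w := .s b 2) (by simp [infl]),
        fl_of h (w := .s b 1) (by simp [infl])]
    · rw [if_neg (by norm_num), if_neg (by norm_num), fl_of h (w := .s b 3) (by simp [infl]),
        fl_of h (w := .s b 2) (by simp [infl])]
  | Lt b r =>
    obtain ⟨h1, h2⟩ := hok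
    rw [ev_Lt, ev_Lt]
    interval_cases r
    · rw [fl_of h (w := .s (b + 1) 4) (by simp [infl]),
        fl_of h (w := .s (b + 1) 3) (by simp [infl])]
    · rw [fl_of h (w := .s (b + 1) 5) (by simp [infl]),
        fl_of h (w := .s (b + 1) 4) (by simp [infl])]
    · rw [fl_of h (w := .s (b + 1) 6) (by simp [infl]),
        fl_of h (w := .s (b + 1) 5) (by simp [infl])]
    · rw [fl_of h (w := .s (b + 1) 7) (by simp [infl]),
        fl_of h (w := .s (b + 1) 6) (by simp [infl])]
  | Q b t j =>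
    rw [ev_Q, ev_Q]
    by_cases hj : j = P.K
    · subst hj
      rw [if_pos rfl, if_pos rfl]
      cases t
      · rw [if_neg Bool.false_ne_true, if_neg Bool.false_ne_true,
          fl_of h (w := .c b false P.K 0) (by simp [infl]),
          fl_of h (w := .k b) (by simp [infl]), fl_of h (w := .a b 4) (by simp [infl]),
          fl_of h (w := .s b 2) (by simp [infl])]
      · rw [if_pos rfl, if_pos rfl, fl_of h (w := .c b true P.K 0) (by simp [infl]),
          fl_of h (w := .a b 1) (by simp [infl]),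
          fl_of h (w := .s (b + 1) 5) (by simp [infl])]
    · rw [if_neg hj, if_neg hj, fl_of h (w := .c b t j 0) (by simp [infl, hj]),
        fl_of h (w := .c b t (j + 1) 1) (by simp [infl]),
        fl_of h (w := .c b t (j + 2) 2) (by simp [infl])]
  | L b t j r =>
    obtain ⟨h0, h1, h2⟩ := hok
    rw [ev_L, ev_L]
    interval_cases r
    · rw [fl_of h (w := .c b t j 1) (by simp [infl]),
        fl_of h (w := .c b t j 0) (by simp only [infl]; split_ifs <;> simp)]
    · rw [fl_of h (w := .c b t j 2) (by simp [infl]),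
        fl_of h (w := .c b t j 1) (by simp [infl])]
    · rw [fl_of h (w := .c b t j 3) (by simp [infl]),
        fl_of h (w := .c b t j 2) (by simp [infl])]

end Par

end Pool.Agent.MPa0a715.BQ
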